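import Pool.Agent.Lib.MP_af3d17_nt_h54.Scales

/-!
# MP_af3d17_nt, heat flow: the two regimes
-/

set_option autoImplicit false

namespace Pool.Agent.HF

open Filter Topology

variable {k : ℕ}

/-- the numbers `i h / (y - i x_i)` -/
noncomputable def uu (x : Fin k → ℝ) (h y : ℝ) (i : Fin k) : ℂ :=
  (h * Complex.I) / ((y : ℂ) - x i * Complex.I)

lemma uu_eq (x : Fin k → ℝ) (h : ℝ) {ρ c : ℝ} (hρ : 0 < ρ) (hc : 0 < c) (i : Fin k) :
    uu x h (c * ρ) i = ((h / ρ / c : ℝ) : ℂ) * Complex.I * dd c (x i / ρ) := by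
  have h1 := den_ne hc (x i / ρ)
  have h2 : (ρ : ℂ) ≠ 0 := by exact_mod_cast hρ.ne'
  have h3 : (c : ℂ) ≠ 0 := by exact_mod_cast hc.ne'
  have h4 : ((c * ρ : ℝ) : ℂ) - x i * Complex.I = ρ * ((c : ℂ) - ((x i / ρ : ℝ) : ℂ) * Complex.I) := by
    push_cast
    field_simp
  rw [uu, h4, dd]
  have h5 : (ρ : ℂ) * ((c : ℂ) - ((x i / ρ : ℝ) : ℂ) * Complex.I) ≠ 0 := mul_ne_zero h2 h1
  rw [div_eq_iff h5]
  push_cast
  have h6 : (c : ℂ) - (x i / ρ : ℂ) * Complex.I ≠ 0 := by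
    push_cast at h1; exact h1
  have h7 : (c : ℂ) / ((c : ℂ) - (x i / ρ : ℂ) * Complex.I) *
      ((c : ℂ) - (x i / ρ : ℂ) * Complex.I) = c := div_mul_cancel₀ _ h6
  calc (h : ℂ) * Complex.I = (h / ρ / c) * Complex.I * c * ρ := by field_simp
    _ = (h / ρ / c) * Complex.I * ((c : ℂ) / ((c : ℂ) - (x i / ρ : ℂ) * Complex.I) *
      ((c : ℂ) - (x i / ρ : ℂ) * Complex.I)) * ρ := by rw [h7]
    _ = _ := by ring

lemma SS_eq (x : Fin k → ℝ) {ρ : ℝ} (hρ : 0 < ρ) : SS x ρ = ∑ i, 1 / (1 + |x i / ρ|) := by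
  refine Finset.sum_congr rfl fun i _ => ?_
  rw [abs_div, abs_of_pos hρ]
  field_simp

lemma EE_eq (x : Fin k → ℝ) {ρ : ℝ} (hρ : 0 < ρ) :
    EE x ρ = ∑ i, |x i / ρ| / (1 + (x i / ρ) ^ 2) := by
  refine Finset.sum_congr rfl fun i _ => ?_
  rw [abs_div, abs_of_pos hρ]
  field_simp

section sums
variable (x : Fin k → ℝ) {ρ c : ℝ} (hρ : 0 < ρ) (hc : 1 ≤ c) (hc4 : c ≤ 4)
include hρ hc hc4

lemma sum_dd : ‖∑ i, dd c (x i / ρ) - (SS x ρ : ℂ)‖ ≤ 5 * EE x ρ := by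
  rw [SS_eq x hρ, EE_eq x hρ]
  push_cast
  rw [← Finset.sum_sub_distrib, Finset.mul_sum]
  refine (norm_sum_le _ _).trans (Finset.sum_le_sum fun i _ => ?_)
  have := dd_sub hc hc4 (x i / ρ)
  push_cast at this
  exact this

lemma sum_dd_sq : ‖∑ i, dd c (x i / ρ) ^ 2 - (SS x ρ : ℂ)‖ ≤ 9 * EE x ρ := by
  have h1 := sum_dd x hρ hc hc4
  have h2 : ‖∑ i, dd c (x i / ρ) ^ 2 - ∑ i, dd c (x i / ρ)‖ ≤ 4 * EE x ρ := by
    rw [EE_eq x hρ, ← Finset.sum_sub_distrib, Finset.mul_sum]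
    exact (norm_sum_le _ _).trans (Finset.sum_le_sum fun i _ => dd_sq_sub hc hc4 _)
  calc ‖∑ i, dd c (x i / ρ) ^ 2 - (SS x ρ : ℂ)‖ = ‖(∑ i, dd c (x i / ρ) ^ 2 -
        ∑ i, dd c (x i / ρ)) + (∑ i, dd c (x i / ρ) - (SS x ρ : ℂ))‖ := by congr 1; ring
    _ ≤ _ := norm_add_le _ _
    _ ≤ _ := by linarith

lemma sum_norm_dd : ∑ i, ‖dd c (x i / ρ)‖ ≤ 6 * SS x ρ := by
  rw [SS_eq x hρ, Finset.mul_sum]
  refine Finset.sum_le_sum fun i _ => ?_
  refine (norm_dd_le hc hc4 _).trans (le_of_eq ?_)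
  ring

lemma sum_norm_dd_sq : ∑ i, ‖dd c (x i / ρ)‖ ^ 2 ≤ 6 * SS x ρ := by
  refine le_trans (Finset.sum_le_sum fun i _ => ?_) (sum_norm_dd x hρ hc hc4)
  have h1 := norm_dd_le_one hc (x i / ρ)
  have h2 := norm_nonneg (dd c (x i / ρ))
  nlinarith

lemma sum_norm_uu {h : ℝ} (hh : 0 < h) : ∑ i, ‖uu x h (c * ρ) i‖ ≤ 6 * (h / ρ * SS x ρ) := by
  have h1 : ∑ i, ‖uu x h (c * ρ) i‖ = h / ρ / c * ∑ i, ‖dd c (x i / ρ)‖ := by
    rw [Finset.mul_sum]
    refine Finset.sum_congr rfl fun i _ => ?_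
    rw [uu_eq x h hρ (by linarith), norm_mul, norm_mul, Complex.norm_I, mul_one,
      Complex.norm_real, Real.norm_eq_abs, abs_of_pos (by positivity)]
  rw [h1]
  have h2 := sum_norm_dd x hρ hc hc4
  have h3 : 0 ≤ ∑ i, ‖dd c (x i / ρ)‖ := Finset.sum_nonneg fun i _ => norm_nonneg _
  have h4 : h / ρ / c ≤ h / ρ := div_le_self (by positivity) hc
  calc h / ρ / c * ∑ i, ‖dd c (x i / ρ)‖ ≤ h / ρ * (6 * SS x ρ) := by gcongr
    _ = _ := by ring

lemma sum_norm_uu_sq {h : ℝ} (hh : 0 < h) :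
    ∑ i, ‖uu x h (c * ρ) i‖ ^ 2 ≤ 6 * ((h / ρ) ^ 2 * SS x ρ) := by
  have h1 : ∑ i, ‖uu x h (c * ρ) i‖ ^ 2 = (h / ρ / c) ^ 2 * ∑ i, ‖dd c (x i / ρ)‖ ^ 2 := by
    rw [Finset.mul_sum]
    refine Finset.sum_congr rfl fun i _ => ?_
    rw [uu_eq x h hρ (by linarith), norm_mul, norm_mul, Complex.norm_I, mul_one,
      Complex.norm_real, Real.norm_eq_abs, abs_of_pos (by positivity), mul_pow]
  rw [h1]
  have h2 := sum_norm_dd_sq x hρ hc hc4
  have h3 : 0 ≤ ∑ i, ‖dd c (x i / ρ)‖ ^ 2 := Finset.sum_nonneg fun i _ => by positivity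
  have h4 : h / ρ / c ≤ h / ρ := div_le_self (by positivity) hc
  have h5 : 0 ≤ h / ρ / c := by positivity
  calc (h / ρ / c) ^ 2 * ∑ i, ‖dd c (x i / ρ)‖ ^ 2 ≤ (h / ρ) ^ 2 * (6 * SS x ρ) := by gcongr
    _ = _ := by ring

lemma sum_uu (h : ℝ) : (∑ i, uu x h (c * ρ) i) ^ 2 =
    -((h / ρ / c : ℝ) : ℂ) ^ 2 * (∑ i, dd c (x i / ρ)) ^ 2 := by
  have h1 : ∑ i, uu x h (c * ρ) i =
      ((h / ρ / c : ℝ) : ℂ) * Complex.I * ∑ i, dd c (x i / ρ) := by
    rw [Finset.mul_sum]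
    exact Finset.sum_congr rfl fun i _ => uu_eq x h hρ (by linarith) i
  rw [h1, mul_pow, mul_pow, Complex.I_sq]
  ring

lemma sum_uu_sq (h : ℝ) : ∑ i, uu x h (c * ρ) i ^ 2 =
    -((h / ρ / c : ℝ) : ℂ) ^ 2 * ∑ i, dd c (x i / ρ) ^ 2 := by
  rw [Finset.mul_sum]
  refine Finset.sum_congr rfl fun i _ => ?_
  rw [uu_eq x h hρ (by linarith), mul_pow, mul_pow, Complex.I_sq]
  ring

lemma norm_sq_sub : ‖(∑ i, dd c (x i / ρ)) ^ 2 - (SS x ρ : ℂ) ^ 2‖ ≤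
    5 * EE x ρ * (5 * EE x ρ + 2 * SS x ρ) := by
  have h1 := sum_dd x hρ hc hc4
  have hN := SS_nonneg x hρ
  set D := ∑ i, dd c (x i / ρ)
  have h2 : ‖D + (SS x ρ : ℂ)‖ ≤ 5 * EE x ρ + 2 * SS x ρ := by
    have e : D + (SS x ρ : ℂ) = (D - (SS x ρ : ℂ)) + 2 * (SS x ρ : ℂ) := by ring
    rw [e]
    refine (norm_add_le _ _).trans ?_
    rw [norm_mul, Complex.norm_two, Complex.norm_real, Real.norm_eq_abs, abs_of_nonneg hN]
    linarith
  have e : D ^ 2 - (SS x ρ : ℂ) ^ 2 = (D - SS x ρ) * (D + SS x ρ) := by ring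
  rw [e, norm_mul]
  gcongr
  exact (norm_nonneg _).trans h1

end sums

/-- the configuration at the scale `ρ` contradicts reality of the zeros -/
def Good (x : Fin k → ℝ) (ρ h K η : ℝ) : Prop :=
  0 < h ∧ h ≤ ρ ∧ ∑ i, ‖uu x h ρ i‖ ≤ K ∧ Real.exp (EE x ρ) ≤ K ∧
    Real.exp (EE x ρ) * (‖EP (uu x h ρ)‖ * ‖EP (uu x h (4 * ρ))‖) + η ≤
      ‖EP (uu x h (2 * ρ))‖ ^ 2

lemma Good.mono {x : Fin k → ℝ} {ρ h K K' η η' : ℝ} (hg : Good x ρ h K η) (hK : K ≤ K')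
    (hη : η' ≤ η) : Good x ρ h K' η' := by
  obtain ⟨h1, h2, h3, h4, h5⟩ := hg
  exact ⟨h1, h2, h3.trans hK, h4.trans hK, by linarith⟩

/-- many points, bounded number of points at the scale -/
lemma large (C : ℝ) (hC : 0 ≤ C) : ∃ M K η : ℝ, 0 < η ∧ ∀ (k : ℕ) (x : Fin k → ℝ) (ρ : ℝ),
    0 < ρ → M ≤ SS x ρ → EE x ρ ≤ C → ∃ h, Good x ρ h K η := by
  set V : ℝ := 32 / 9 * (C + 1) with hV
  have hV0 : 0 < V := by positivity
  set d1 : ℝ → ℝ := fun N => V / 2 * (5 * C / N * (5 * C / N + 2)) with hd1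
  set d2 : ℝ → ℝ := fun N => 48 * V * Real.exp (72 * V) * KK / N with hd2
  have t1 : Tendsto d1 atTop (𝓝 0) := by
    have h1 : Tendsto (fun N : ℝ => 5 * C / N) atTop (𝓝 0) :=
      tendsto_const_nhds.div_atTop tendsto_id
    have h2 := ((h1.mul (h1.add_const 2)).const_mul (V / 2))
    simpa using h2
  have t2 : Tendsto d2 atTop (𝓝 0) := tendsto_const_nhds.div_atTop tendsto_id
  set η : ℝ := (1 - Real.exp (-1)) * Real.exp (-V / 4) / 2 with hη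
  have hη0 : 0 < η := by
    have : Real.exp (-1) < 1 := by rw [Real.exp_lt_one_iff]; norm_num
    have h3 : 0 < 1 - Real.exp (-1) := by linarith
    positivity
  have tA : Tendsto (fun N => Real.exp C * ((Real.exp (-V / 2 + d1 N) + d2 N) *
      (Real.exp (-V / 32 + d1 N) + d2 N)) + η - (Real.exp (-V / 8 - d1 N) - d2 N) ^ 2) atTop
      (𝓝 (Real.exp C * ((Real.exp (-V / 2 + 0) + 0) *
      (Real.exp (-V / 32 + 0) + 0)) + η - (Real.exp (-V / 8 - 0) - 0) ^ 2)) := by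
    have a1 : Tendsto (fun N => Real.exp (-V / 2 + d1 N)) atTop (𝓝 (Real.exp (-V / 2 + 0))) :=
      (Real.continuous_exp.tendsto _).comp (t1.const_add _)
    have a2 : Tendsto (fun N => Real.exp (-V / 32 + d1 N)) atTop (𝓝 (Real.exp (-V / 32 + 0))) :=
      (Real.continuous_exp.tendsto _).comp (t1.const_add _)
    have a3 : Tendsto (fun N => Real.exp (-V / 8 - d1 N)) atTop (𝓝 (Real.exp (-V / 8 - 0))) :=
      (Real.continuous_exp.tendsto _).comp (t1.const_sub _)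
    exact ((((a1.add t2).mul (a2.add t2)).const_mul _).add_const _).sub ((a3.sub t2).pow 2)
  have hneg : Real.exp C * ((Real.exp (-V / 2 + 0) + 0) *
      (Real.exp (-V / 32 + 0) + 0)) + η - (Real.exp (-V / 8 - 0) - 0) ^ 2 < 0 := by
    simp only [add_zero, sub_zero]
    have e1 : Real.exp C * (Real.exp (-V / 2) * Real.exp (-V / 32)) =
        Real.exp (-1) * Real.exp (-V / 4) := by
      rw [← Real.exp_add, ← Real.exp_add, ← Real.exp_add]
      congr 1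
      rw [hV]; ring
    have e2 : Real.exp (-V / 8) ^ 2 = Real.exp (-V / 4) := by
      rw [← Real.exp_nat_mul]; congr 1; push_cast; ring
    rw [e1, e2]
    have : Real.exp (-1) < 1 := by rw [Real.exp_lt_one_iff]; norm_num
    have h3 : 0 < (1 - Real.exp (-1)) * Real.exp (-V / 4) :=
      mul_pos (by linarith) (Real.exp_pos _)
    rw [hη]
    nlinarith
  have evA := tA.eventually_lt_const hneg
  have tB : Tendsto (fun N => Real.exp (-V / 8 - d1 N) - d2 N) atTop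
      (𝓝 (Real.exp (-V / 8 - 0) - 0)) :=
    ((Real.continuous_exp.tendsto _).comp (t1.const_sub _)).sub t2
  have evB := tB.eventually_const_lt (show (0 : ℝ) < Real.exp (-V / 8 - 0) - 0 by
    rw [sub_zero]; positivity)
  obtain ⟨M, hM⟩ := eventually_atTop.1 (evA.and (evB.and
    ((eventually_ge_atTop (Real.sqrt V)).and (eventually_ge_atTop 1))))
  refine ⟨M, max (6 * Real.sqrt V) (Real.exp C), η, hη0, ?_⟩
  intro k x ρ hρ hN hE
  obtain ⟨hA, hB, hNV, hN1⟩ := hM _ hN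
  set N := SS x ρ with hNdef
  have hN0 : 0 < N := by linarith
  have hE0 := EE_nonneg x hρ
  have hsV : 0 < Real.sqrt V := Real.sqrt_pos.2 hV0
  set h : ℝ := ρ * (Real.sqrt V / N) with hh
  have hh0 : 0 < h := by positivity
  have hhρ : h / ρ = Real.sqrt V / N := by rw [hh]; field_simp
  have hhN : h / ρ * N = Real.sqrt V := by rw [hhρ]; field_simp
  have hhN2 : (h / ρ) ^ 2 * N ^ 2 = V := by
    rw [← mul_pow, hhN, Real.sq_sqrt hV0.le]
  have key : ∀ c : ℝ, 1 ≤ c → c ≤ 4 →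
      ‖EP (uu x h (c * ρ))‖ ≤ Real.exp (-V / (2 * c ^ 2) + d1 N) + d2 N ∧
      Real.exp (-V / (2 * c ^ 2) - d1 N) - d2 N ≤ ‖EP (uu x h (c * ρ))‖ := by
    intro c hc hc4
    have hc0 : 0 < c := by linarith
    have k1 := sum_norm_uu x hρ hc hc4 hh0
    have k2 := sum_norm_uu_sq x hρ hc hc4 hh0
    have k3 := EP_sub_exp (uu x h (c * ρ))
    rw [← hNdef, hhN] at k1
    have k4 : (∑ i, ‖uu x h (c * ρ) i‖) ^ 2 ≤ 36 * V := by
      have h1 : 0 ≤ ∑ i, ‖uu x h (c * ρ) i‖ := Finset.sum_nonneg fun i _ => norm_nonneg _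
      calc (∑ i, ‖uu x h (c * ρ) i‖) ^ 2 ≤ (6 * Real.sqrt V) ^ 2 := by gcongr
        _ = 36 * V := by rw [mul_pow, Real.sq_sqrt hV0.le]; norm_num
    have k5 : 6 * ((h / ρ) ^ 2 * N) = 6 * V / N := by
      rw [← hhN2]; field_simp
    rw [← hNdef, k5] at k2
    have k6 : ‖EP (uu x h (c * ρ)) - Complex.exp ((∑ i, uu x h (c * ρ) i) ^ 2 / 2)‖ ≤ d2 N := by
      refine k3.trans ?_
      have hK := KK_pos
      calc 8 * (∑ i, ‖uu x h (c * ρ) i‖ ^ 2) * Real.exp (2 * (∑ i, ‖uu x h (c * ρ) i‖) ^ 2) * KK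
          ≤ 8 * (6 * V / N) * Real.exp (2 * (36 * V)) * KK := by gcongr
        _ = d2 N := by
            rw [hd2]
            simp only
            rw [show 2 * (36 * V) = 72 * V by ring]
            ring
    have k7 : |((∑ i, uu x h (c * ρ) i) ^ 2 / 2).re + V / (2 * c ^ 2)| ≤ d1 N := by
      have m1 := norm_sq_sub x hρ hc hc4
      rw [← hNdef] at m1
      have m2 : (∑ i, uu x h (c * ρ) i) ^ 2 / 2 + ((V / (2 * c ^ 2) : ℝ) : ℂ) =
          (((h / ρ / c) ^ 2 / 2 : ℝ) : ℂ) * -((∑ i, dd c (x i / ρ)) ^ 2 - (N : ℂ) ^ 2) := by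
        rw [sum_uu x hρ hc hc4, ← hhN2]
        push_cast
        have hρ' : (ρ : ℂ) ≠ 0 := by exact_mod_cast hρ.ne'
        have hc' : (c : ℂ) ≠ 0 := by exact_mod_cast hc0.ne'
        field_simp
        ring
      have m3 : |((∑ i, uu x h (c * ρ) i) ^ 2 / 2).re + V / (2 * c ^ 2)| ≤
          ‖(∑ i, uu x h (c * ρ) i) ^ 2 / 2 + ((V / (2 * c ^ 2) : ℝ) : ℂ)‖ := by
        have := Complex.abs_re_le_norm
          ((∑ i, uu x h (c * ρ) i) ^ 2 / 2 + ((V / (2 * c ^ 2) : ℝ) : ℂ))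
        rwa [Complex.add_re, Complex.ofReal_re] at this
      refine m3.trans ?_
      rw [m2, norm_mul, norm_neg, Complex.norm_real, Real.norm_eq_abs,
        abs_of_nonneg (by positivity)]
      have m4 : h / ρ / c ≤ h / ρ := div_le_self (by positivity) hc
      calc (h / ρ / c) ^ 2 / 2 * ‖(∑ i, dd c (x i / ρ)) ^ 2 - (N : ℂ) ^ 2‖
          ≤ (h / ρ) ^ 2 / 2 * (5 * EE x ρ * (5 * EE x ρ + 2 * N)) := by gcongr
        _ ≤ (h / ρ) ^ 2 / 2 * (5 * C * (5 * C + 2 * N)) := by gcongr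
        _ = d1 N := by
            rw [hd1]
            simp only
            rw [← hhN2]
            field_simp
    have k8 := abs_le.1 k7
    have k9 : ‖Complex.exp ((∑ i, uu x h (c * ρ) i) ^ 2 / 2)‖ ≤
        Real.exp (-V / (2 * c ^ 2) + d1 N) := by
      rw [Complex.norm_exp, Real.exp_le_exp]
      have : -V / (2 * c ^ 2) = -(V / (2 * c ^ 2)) := neg_div _ _
      rw [this]; linarith
    have k10 : Real.exp (-V / (2 * c ^ 2) - d1 N) ≤
        ‖Complex.exp ((∑ i, uu x h (c * ρ) i) ^ 2 / 2)‖ := by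
      rw [Complex.norm_exp, Real.exp_le_exp]
      have : -V / (2 * c ^ 2) = -(V / (2 * c ^ 2)) := neg_div _ _
      rw [this]; linarith
    have k11 := abs_norm_sub_norm_le (EP (uu x h (c * ρ)))
      (Complex.exp ((∑ i, uu x h (c * ρ) i) ^ 2 / 2))
    have k12 := abs_le.1 (k11.trans k6)
    constructor <;> linarith
  refine ⟨h, hh0, ?_, ?_, ?_, ?_⟩
  · rw [hh]
    have : Real.sqrt V / N ≤ 1 := (div_le_one hN0).2 hNV
    calc ρ * (Real.sqrt V / N) ≤ ρ * 1 := by gcongr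
      _ = ρ := mul_one _
  · have := sum_norm_uu x hρ (le_refl 1) (by norm_num) hh0
    rw [one_mul, ← hNdef, hhN] at this
    exact this.trans (le_max_left _ _)
  · exact (Real.exp_le_exp.2 hE).trans (le_max_right _ _)
  · have p1 := (key 1 le_rfl (by norm_num)).1
    have p4 := (key 4 (by norm_num) le_rfl).1
    have p2 := (key 2 (by norm_num) (by norm_num)).2
    rw [show -V / (2 * 1 ^ 2) = -V / 2 by norm_num, one_mul] at p1
    rw [show -V / (2 * 4 ^ 2) = -V / 32 by norm_num] at p4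
    rw [show -V / (2 * 2 ^ 2) = -V / 8 by norm_num] at p2
    have q2 : (Real.exp (-V / 8 - d1 N) - d2 N) ^ 2 ≤ ‖EP (uu x h (2 * ρ))‖ ^ 2 := by
      gcongr
    have q1 : Real.exp (EE x ρ) * (‖EP (uu x h ρ)‖ * ‖EP (uu x h (4 * ρ))‖) ≤
        Real.exp C * ((Real.exp (-V / 2 + d1 N) + d2 N) *
          (Real.exp (-V / 32 + d1 N) + d2 N)) := by
      gcongr
      exact (norm_nonneg _).trans p1
    linarith

end Pool.Agent.HF
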