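import Pool.Agent.Lib.MP_af3d17_nt_h54.Core

/-!
# MP_af3d17_nt, heat flow: the small regime, and the choice of the scale
-/

set_option autoImplicit false

namespace Pool.Agent.HF

open Filter Topology

lemma small_final {ε c z τ e1 e2 e4 E : ℝ} (hε0 : 0 < ε) (hεs : ε ≤ 1 / 24) (hc0 : 0 < c)
    (hc1 : c ≤ 1) (hc2 : c ≤ ε ^ 2 / 20) (hz2 : 97 / 100 * ε ^ 2 ≤ z) (hz1 : z ≤ 1 / 8)
    (hτ : τ = ε ^ 2 / 20) (n1 : 0 ≤ e1) (n4 : 0 ≤ e4) (p1 : e1 ≤ 1 - z + τ)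
    (p4 : e4 ≤ 1 - z / 16 + τ) (p2 : 1 - z / 4 - τ ≤ e2) (hE : E ≤ c) :
    Real.exp E * (e1 * e4) + ε ^ 2 / 5 ≤ e2 ^ 2 := by
  have hε2 : 0 < ε ^ 2 := by positivity
  have hz0 : 0 < z := by linarith
  have hτ0 : 0 < τ := by rw [hτ]; positivity
  have hε3 : ε ^ 2 ≤ 1 / 576 := by
    have : ε ^ 2 ≤ (1 / 24) ^ 2 := by gcongr
    linarith
  have hτ1 : τ ≤ 1 / 320 := by rw [hτ]; linarith
  have q2 : 1 - z / 2 - 2 * τ ≤ e2 ^ 2 := by
    have h1 : 0 ≤ 1 - z / 4 - τ := by linarith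
    have h2 : (1 - z / 4 - τ) ^ 2 ≤ e2 ^ 2 := by gcongr
    nlinarith [sq_nonneg (z / 4 + τ)]
  have q1 : e1 * e4 ≤ 1 - 17 / 16 * z + 2 * τ + z / 128 + τ / 100 := by
    have h1 : e1 * e4 ≤ (1 - z + τ) * (1 - z / 16 + τ) := by gcongr; linarith
    have h2 : z ^ 2 ≤ z * (1 / 8) := by rw [sq]; gcongr
    have h3 : τ ^ 2 ≤ τ * (1 / 320) := by rw [sq]; gcongr
    have h4 : 0 ≤ z * τ := by positivity
    have h5 : (1 - z + τ) * (1 - z / 16 + τ) =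
      1 - 17 / 16 * z + 2 * τ + z ^ 2 / 16 - 17 / 16 * (z * τ) + τ ^ 2 := by ring
    linarith
  have q3 : e1 * e4 ≤ 6 / 5 := by linarith
  have q0 : 0 ≤ e1 * e4 := by positivity
  have q4 : Real.exp E ≤ 1 + 2 * c := by
    have h1 : Real.exp E ≤ Real.exp c := Real.exp_le_exp.2 hE
    have h2 : Real.exp c ≤ 1 + c + c ^ 2 := by
      have := Real.norm_exp_sub_one_sub_id_le (x := c) (by
        rw [Real.norm_eq_abs, abs_of_pos hc0]; exact hc1)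
      rw [Real.norm_eq_abs, Real.norm_eq_abs, sq_abs] at this
      have := (abs_le.1 this).2
      linarith
    nlinarith
  have q5 : Real.exp E * (e1 * e4) ≤ e1 * e4 + 2 * c * (6 / 5) := by
    calc Real.exp E * (e1 * e4) ≤ (1 + 2 * c) * (e1 * e4) := by gcongr
      _ = e1 * e4 + 2 * c * (e1 * e4) := by ring
      _ ≤ _ := by gcongr
  rw [hτ] at q1 q2
  linarith

/-- boundedly many points, almost none at the scale -/
lemma small (M0 : ℝ) : ∃ c K η : ℝ, 0 < c ∧ 0 < η ∧ ∀ (k : ℕ) (x : Fin k → ℝ) (ρ : ℝ),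
    0 < ρ → 198 / 100 ≤ SS x ρ → SS x ρ < M0 → EE x ρ ≤ c → ∃ h, Good x ρ h K η := by
  set M : ℝ := max M0 2 with hM
  have hM2 : 2 ≤ M := le_max_right _ _
  have hM0 : 0 < M := by linarith
  have hKK := KK_pos
  set K' : ℝ := 68 * 216 * M ^ 3 * Real.exp 2 * KK with hK'
  have hK'0 : 0 < K' := by positivity
  set ε : ℝ := min (1 / (6 * M ^ 2)) (1 / (40 * K')) with hε
  have hε0 : 0 < ε := by positivity
  have hε1 : ε ≤ 1 / (6 * M ^ 2) := min_le_left _ _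
  have hε2 : ε ≤ 1 / (40 * K') := min_le_right _ _
  have hε1' : 6 * M ^ 2 * ε ≤ 1 := by
    rw [le_div_iff₀ (by positivity)] at hε1; linarith
  have hε2' : K' * ε ≤ 1 / 40 := by
    rw [le_div_iff₀ (by positivity)] at hε2; linarith
  have hM3 : M * 1 ≤ M * M := by gcongr; linarith
  have hεM : 6 * M * ε ≤ 1 := by
    have : 6 * (M * 1) * ε ≤ 6 * (M * M) * ε := by gcongr
    linarith
  have hεs : ε ≤ 1 / 24 := by
    have : 6 * 2 ^ 2 * ε ≤ 6 * M ^ 2 * ε := by gcongr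
    linarith
  set c : ℝ := min 1 (min (ε ^ 2 / 20) (1 / (20 * (34 + 10 * M)))) with hc
  have hc0 : 0 < c := by positivity
  have hc1 : c ≤ 1 := min_le_left _ _
  have hc2 : c ≤ ε ^ 2 / 20 := (min_le_right _ _).trans (min_le_left _ _)
  have hc3 : c ≤ 1 / (20 * (34 + 10 * M)) := (min_le_right _ _).trans (min_le_right _ _)
  have hc3' : c * (34 + 10 * M) ≤ 1 / 20 := by
    rw [le_div_iff₀ (by positivity)] at hc3; linarith
  refine ⟨c, max 1 (Real.exp c), ε ^ 2 / 5, hc0, by positivity, ?_⟩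
  intro k x ρ hρ hN1 hN2 hE
  set N := SS x ρ with hNdef
  have hNM : N ≤ M := hN2.le.trans (le_max_left _ _)
  have hN0 : 0 < N := by linarith
  have hE0 := EE_nonneg x hρ
  set E := EE x ρ with hEdef
  set h : ℝ := ε * ρ with hh
  have hh0 : 0 < h := by positivity
  have hhρ : h / ρ = ε := by rw [hh]; field_simp
  set a : ℝ := (N ^ 2 - N) / 2 with ha
  have ha1 : 97 / 100 ≤ a := by
    have : (198 / 100 - 1) * (198 / 100) ≤ (N - 1) * N := by gcongr; linarith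
    rw [ha]; linarith
  have ha2 : a ≤ M ^ 2 / 2 := by
    have : N ^ 2 ≤ M ^ 2 := by gcongr
    rw [ha]; linarith
  set z : ℝ := ε ^ 2 * a with hz
  have hz0 : 0 < z := by positivity
  have hz1 : z ≤ 1 / 8 := by
    have h1 : z ≤ ε ^ 2 * (M ^ 2 / 2) := by rw [hz]; gcongr
    have h2 : (ε * M) ^ 2 ≤ (1 / 6) ^ 2 := by
      have : ε * M ≤ 1 / 6 := by linarith
      gcongr
    rw [mul_pow] at h2
    linarith
  have hz2 : 97 / 100 * ε ^ 2 ≤ z := by rw [hz, mul_comm]; gcongr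
  set τ : ℝ := ε ^ 2 / 20 with hτ
  have hτ0 : 0 < τ := by positivity
  have key : ∀ c' : ℝ, 1 ≤ c' → c' ≤ 4 →
      ‖EP (uu x h (c' * ρ))‖ ≤ 1 - z / c' ^ 2 + τ ∧
      1 - z / c' ^ 2 - τ ≤ ‖EP (uu x h (c' * ρ))‖ := by
    intro c' hc' hc4
    have hc'0 : 0 < c' := by linarith
    have k1 := sum_norm_uu x hρ hc' hc4 hh0
    have k3 := EP_sub_quad (uu x h (c' * ρ))
    rw [← hNdef, hhρ] at k1
    have k0 : 0 ≤ ∑ i, ‖uu x h (c' * ρ) i‖ := Finset.sum_nonneg fun i _ => norm_nonneg _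
    have k1' : ∑ i, ‖uu x h (c' * ρ) i‖ ≤ 6 * M * ε := by
      refine k1.trans ?_
      have : ε * N ≤ ε * M := by gcongr
      linarith
    have k4 : 68 * (∑ i, ‖uu x h (c' * ρ) i‖) ^ 3 *
        Real.exp (2 * (∑ i, ‖uu x h (c' * ρ) i‖) ^ 2) * KK ≤ ε ^ 2 / 40 := by
      have h2 : (∑ i, ‖uu x h (c' * ρ) i‖) ^ 2 ≤ 1 := by
        have : ∑ i, ‖uu x h (c' * ρ) i‖ ≤ 1 := k1'.trans hεM
        exact pow_le_one₀ k0 this
      calc 68 * (∑ i, ‖uu x h (c' * ρ) i‖) ^ 3 *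
            Real.exp (2 * (∑ i, ‖uu x h (c' * ρ) i‖) ^ 2) * KK
          ≤ 68 * (6 * M * ε) ^ 3 * Real.exp (2 * 1) * KK := by gcongr
        _ = K' * ε * ε ^ 2 := by rw [hK', mul_one]; ring
        _ ≤ 1 / 40 * ε ^ 2 := by gcongr
        _ = _ := by ring
    have m1 := norm_sq_sub x hρ hc' hc4
    have m2 := sum_dd_sq x hρ hc' hc4
    rw [← hNdef, ← hEdef] at m1 m2
    set D := ∑ i, dd c' (x i / ρ)
    set Q := ∑ i, dd c' (x i / ρ) ^ 2
    have m3 : ‖(D ^ 2 - Q) - ((N ^ 2 - N : ℝ) : ℂ)‖ ≤ 1 / 20 := by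
      have e : (D ^ 2 - Q) - ((N ^ 2 - N : ℝ) : ℂ) = (D ^ 2 - (N : ℂ) ^ 2) - (Q - (N : ℂ)) := by
        push_cast; ring
      rw [e]
      refine (norm_sub_le _ _).trans ?_
      have h3 : 5 * E * (5 * E + 2 * N) ≤ c * (25 + 10 * M) := by
        calc 5 * E * (5 * E + 2 * N) = E * (25 * E + 10 * N) := by ring
          _ ≤ c * (25 * 1 + 10 * M) := by
              have hE1 : E ≤ 1 := hE.trans hc1
              gcongr
          _ = _ := by ring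
      linarith
    have m4 : EP (uu x h (c' * ρ)) - (((1 - z / c' ^ 2 : ℝ)) : ℂ) =
        (EP (uu x h (c' * ρ)) - (1 + ((∑ i, uu x h (c' * ρ) i) ^ 2 -
          ∑ i, uu x h (c' * ρ) i ^ 2) / 2)) -
        ((ε ^ 2 / c' ^ 2 / 2 : ℝ) : ℂ) * ((D ^ 2 - Q) - ((N ^ 2 - N : ℝ) : ℂ)) := by
      rw [sum_uu x hρ hc' hc4, sum_uu_sq x hρ hc' hc4, hhρ, hz, ha]
      push_cast
      have hc'' : (c' : ℂ) ≠ 0 := by exact_mod_cast hc'0.ne'
      field_simp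
      ring
    have m5 : ‖EP (uu x h (c' * ρ)) - (((1 - z / c' ^ 2 : ℝ)) : ℂ)‖ ≤ τ := by
      rw [m4]
      refine (norm_sub_le _ _).trans ?_
      rw [norm_mul, Complex.norm_real, Real.norm_eq_abs, abs_of_nonneg (by positivity)]
      have h3 : ε ^ 2 / c' ^ 2 / 2 ≤ ε ^ 2 / 2 := by
        have : ε ^ 2 / c' ^ 2 ≤ ε ^ 2 := div_le_self (by positivity) (one_le_pow₀ hc')
        linarith
      have h4 : ε ^ 2 / c' ^ 2 / 2 * ‖(D ^ 2 - Q) - ((N ^ 2 - N : ℝ) : ℂ)‖ ≤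
          ε ^ 2 / 2 * (1 / 20) := by gcongr
      have h5 := k3.trans k4
      rw [hτ]
      linarith
    have m6 := abs_le.1 ((abs_norm_sub_norm_le (EP (uu x h (c' * ρ)))
      (((1 - z / c' ^ 2 : ℝ)) : ℂ)).trans m5)
    have m7 : ‖(((1 - z / c' ^ 2 : ℝ)) : ℂ)‖ = 1 - z / c' ^ 2 := by
      rw [Complex.norm_real, Real.norm_eq_abs, abs_of_nonneg]
      have : z / c' ^ 2 ≤ z := div_le_self hz0.le (one_le_pow₀ hc')
      linarith
    rw [m7] at m6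
    constructor <;> linarith
  refine ⟨h, hh0, ?_, ?_, ?_, ?_⟩
  · rw [hh]
    calc ε * ρ ≤ 1 * ρ := by gcongr; linarith
      _ = ρ := one_mul _
  · have := sum_norm_uu x hρ (le_refl 1) (by norm_num) hh0
    rw [one_mul, ← hNdef, hhρ] at this
    refine this.trans (le_trans ?_ (le_max_left _ _))
    have h2 : ε * N ≤ ε * M := by gcongr
    linarith
  · exact (Real.exp_le_exp.2 hE).trans (le_max_right _ _)
  · have p1 := (key 1 le_rfl (by norm_num)).1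
    have p4 := (key 4 (by norm_num) le_rfl).1
    have p2 := (key 2 (by norm_num) (by norm_num)).2
    rw [one_pow, div_one, one_mul] at p1
    rw [show (4 : ℝ) ^ 2 = 16 by norm_num] at p4
    rw [show (2 : ℝ) ^ 2 = 4 by norm_num] at p2
    set e1 := ‖EP (uu x h ρ)‖
    set e4 := ‖EP (uu x h (4 * ρ))‖
    set e2 := ‖EP (uu x h (2 * ρ))‖
    exact small_final hε0 hεs hc0 hc1 hc2 hz2 hz1 rfl (norm_nonneg _) (norm_nonneg _) p1 p4 p2 hE

/-- there is a good scale -/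
theorem core (C1 η : ℝ) (hC1 : 0 < C1) (hη : 0 < η) : ∃ K η0 L0 : ℝ, 0 < η0 ∧ ∀ L ≥ L0,
    ∀ (k : ℕ) (x : Fin k → ℝ) (ρ : ℝ) (J : ℕ), (k : ℝ) ≤ C1 * L → 0 < ρ →
    (∃ i j, i ≠ j ∧ |x i| ≤ ρ / 100 ∧ |x j| ≤ ρ / 100) → η * L ≤ J →
    ∃ j < J, ∃ h, Good x (sc ρ j) h K η0 := by
  obtain ⟨M, K1, η1, hη1, hl⟩ := large (3 * C1 / η) (by positivity)
  obtain ⟨c, K2, η2, hc, hη2, hs⟩ := small M
  refine ⟨max K1 K2, min η1 η2, max (3 / η) ((8 * |M| / c) / η), lt_min hη1 hη2, ?_⟩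
  intro L hL k x ρ J hk hρ hx hJ
  have hL1 : 3 / η ≤ L := (le_max_left _ _).trans hL
  have hL2 : (8 * |M| / c) / η ≤ L := (le_max_right _ _).trans hL
  rw [div_le_iff₀ hη] at hL1 hL2
  have hJ1 : (3 : ℝ) ≤ J := by linarith
  have hJ2 : 8 * |M| / c ≤ J := by linarith
  have hJ3 : 3 ≤ J := by exact_mod_cast hJ1
  set n := J / 2 with hn
  set m := J - n with hm
  have hmn : m + n = J := by omega
  have hn1 : J ≤ 3 * n := by omega
  have hm1 : J ≤ 2 * m := by omega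
  have hn2 : (J : ℝ) ≤ 3 * n := by exact_mod_cast hn1
  have hm2 : (J : ℝ) ≤ 2 * m := by exact_mod_cast hm1
  have h1 : 4 * M ≤ 6 / 5 * (c * m) := by
    rw [div_le_iff₀ hc] at hJ2
    have h2 : M ≤ |M| := le_abs_self _
    have h3 : (J : ℝ) * c ≤ 2 * m * c := by gcongr
    have h4 : 0 ≤ |M| := abs_nonneg _
    nlinarith
  have h2 : (k : ℝ) ≤ 6 / 5 * (3 * C1 / η * n) := by
    have h3 : L ≤ J / η := by rw [le_div_iff₀ hη]; linarith
    have h4 : C1 * L ≤ C1 * (J / η) := by gcongr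
    have h5 : C1 * (J / η) ≤ C1 * (3 * n / η) := by gcongr
    have h6 : 0 ≤ 3 * C1 / η * n := by positivity
    have h7 : C1 * (3 * n / η) = 3 * C1 / η * n := by ring
    linarith
  obtain ⟨i, j, hij, hxi, hxj⟩ := hx
  have hN : ∀ l, 198 / 100 ≤ SS x (sc ρ l) := fun l =>
    (SS_two x hρ hij hxi hxj).trans (SS_mono x hρ (by
      have := sc_mono hρ (Nat.zero_le l)
      simpa [sc] using this))
  rcases pigeon x hρ (by omega) (by omega) h1 h2 with ⟨l, h3, h4, h5⟩ | ⟨l, h3, h4, h5⟩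
  · obtain ⟨h, hg⟩ := hs k x _ (sc_pos hρ l) (hN l) h4 h5
    exact ⟨l, by omega, h, hg.mono (le_max_right _ _) (min_le_right _ _)⟩
  · obtain ⟨h, hg⟩ := hl k x _ (sc_pos hρ l) h4 h5
    exact ⟨l, by omega, h, hg.mono (le_max_left _ _) (min_le_left _ _)⟩

/-- the three values of the product -/
lemma three_prod {k : ℕ} (x : Fin k → ℝ) {ρ : ℝ} (hρ : 0 < ρ) :
    (∏ i, ‖(ρ : ℂ) - x i * Complex.I‖) * (∏ i, ‖((4 * ρ : ℝ) : ℂ) - x i * Complex.I‖) ≤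
      Real.exp (EE x ρ) * (∏ i, ‖((2 * ρ : ℝ) : ℂ) - x i * Complex.I‖) ^ 2 := by
  rw [EE, Real.exp_sum, ← Finset.prod_mul_distrib, ← Finset.prod_pow, ← Finset.prod_mul_distrib]
  refine Finset.prod_le_prod (fun i _ => by positivity) fun i _ => ?_
  rw [norm_den, norm_den, norm_den, Real.sq_sqrt (by positivity)]
  have hsq : x i ^ 2 = |x i| ^ 2 := (sq_abs _).symm
  rw [hsq]
  set a := |x i| with ha
  have ha0 : 0 ≤ a := abs_nonneg _
  set q := ρ * a / (ρ ^ 2 + a ^ 2) with hq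
  have hq0 : 0 ≤ q := by positivity
  rw [← Real.sqrt_mul (by positivity), Real.sqrt_le_left (by positivity), mul_pow (Real.exp q)]
  have h1 : 1 + 2 * q ≤ Real.exp q ^ 2 := by
    rw [← Real.exp_nat_mul]
    have := Real.add_one_le_exp (2 * q)
    push_cast
    linarith
  have h2 : (ρ ^ 2 + a ^ 2) * ((4 * ρ) ^ 2 + a ^ 2) ≤
      (1 + 2 * q) * ((2 * ρ) ^ 2 + a ^ 2) ^ 2 := by
    have h3 : 0 < ρ ^ 2 + a ^ 2 := by positivity
    have h4 : (1 + 2 * q) * ((2 * ρ) ^ 2 + a ^ 2) ^ 2 =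
        ((ρ ^ 2 + a ^ 2 + 2 * (ρ * a)) * ((2 * ρ) ^ 2 + a ^ 2) ^ 2) / (ρ ^ 2 + a ^ 2) := by
      rw [hq]; field_simp
    rw [h4, le_div_iff₀ h3]
    have h5 : 0 ≤ 2 * ρ * a * (2 * a ^ 4 - 9 * a ^ 3 * ρ + 16 * a ^ 2 * ρ ^ 2 - 9 * a * ρ ^ 3 +
        32 * ρ ^ 4) := by
      have h6 : 0 ≤ 2 * a ^ 4 - 9 * a ^ 3 * ρ + 16 * a ^ 2 * ρ ^ 2 - 9 * a * ρ ^ 3 +
        32 * ρ ^ 4 := by
        nlinarith [sq_nonneg (a ^ 2 - 9 / 4 * a * ρ + 2 * ρ ^ 2), sq_nonneg (a * ρ),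
          sq_nonneg (a * ρ - ρ ^ 2), sq_nonneg (ρ ^ 2), sq_nonneg (a ^ 2 - 2 * a * ρ),
          mul_nonneg ha0 (mul_nonneg hρ.le (sq_nonneg (a - ρ)))]
      positivity
    nlinarith
  exact h2.trans (by gcongr)

end Pool.Agent.HF
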