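import Pool.Agent.Lib.MP_af3d17_nt_h54.Near
import Pool.Agent.Lib.MP_af3d17_nt_h98.Seq

/-!
# MP_af3d17_nt, heat flow: isolated zeros stay on the line
-/

set_option autoImplicit false

namespace Pool.Agent.HF

open MeasureTheory ProbabilityTheory Filter Topology Metric
open Pool.Agent.ZP

/-- division by a root -/
lemma eq_sub_mul_dslope {F : ℂ → ℂ} {a : ℂ} (h : F a = 0) (w : ℂ) :
    F w = (w - a) * dslope F a w := by
  have := sub_smul_dslope F a w
  rw [h, sub_zero, smul_eq_mul] at this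
  exact this.symm

/-- one zero of `X` gives at most one zero of the nearby function `F` -/
lemma no_two {F X : ℂ → ℂ} (hF : Differentiable ℂ F) (hX : Differentiable ℂ X) {ρ : ℂ} {r : ℝ}
    (hr : 0 < r) (hρ : X ρ = 0) (hρ' : deriv X ρ ≠ 0)
    (hne : ∀ w, w ≠ ρ → ‖w - ρ‖ ≤ 10 * r → X w ≠ 0)
    (hcl : ∀ w, r ≤ ‖w - ρ‖ → ‖w - ρ‖ ≤ 10 * r → ‖F w / X w - 1‖ ≤ 1 / 10)
    {s1 s2 : ℂ} (h1 : F s1 = 0) (h2 : F s2 = 0) (hs1 : ‖s1 - ρ‖ < r) (hs2 : ‖s2 - ρ‖ < r) :
    s1 = s2 := by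
  by_contra hss
  set e : ℂ → ℂ := dslope X ρ with he
  have hXe : ∀ w, X w = (w - ρ) * e w := eq_sub_mul_dslope hρ
  have hea : ∀ w, AnalyticAt ℂ e w := fun w => analyticAt_dslope (hX.analyticAt w)
  have hene : ∀ w, ‖w - ρ‖ ≤ 10 * r → e w ≠ 0 := by
    intro w hw
    rcases eq_or_ne w ρ with rfl | hwρ
    · rw [he, dslope_same]; exact hρ'
    · intro h0
      apply hne w hwρ hw
      rw [hXe, h0, mul_zero]
  set F1 : ℂ → ℂ := dslope F s1 with hF1
  have hFF1 : ∀ w, F w = (w - s1) * F1 w := eq_sub_mul_dslope h1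
  have hF1s2 : F1 s2 = 0 := by
    have h3 := hFF1 s2
    rw [h2] at h3
    exact (mul_eq_zero.1 h3.symm).resolve_left (sub_ne_zero.2 (Ne.symm hss))
  set F2 : ℂ → ℂ := dslope F1 s2 with hF2
  have hF12 : ∀ w, F1 w = (w - s2) * F2 w := eq_sub_mul_dslope hF1s2
  have hF2a : ∀ w, AnalyticAt ℂ F2 w := fun w =>
    analyticAt_dslope (analyticAt_dslope (hF.analyticAt w))
  set Q : ℂ → ℂ := fun w => F2 w / e w with hQ
  have hQa : AnalyticOnNhd ℂ Q (closedBall ρ (10 * r)) := by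
    intro w hw
    rw [mem_closedBall, dist_eq_norm] at hw
    exact (hF2a w).div (hea w) (hene w hw)
  -- value of Q
  have hQv : ∀ w, r ≤ ‖w - ρ‖ → ‖w - ρ‖ ≤ 10 * r →
      ‖Q w‖ * (‖w - s1‖ * ‖w - s2‖) = ‖F w / X w‖ * ‖w - ρ‖ := by
    intro w hw1 hw2
    have hwρ : w - ρ ≠ 0 := by
      intro h0
      rw [h0, norm_zero] at hw1
      linarith
    have h5 : F w / X w * (w - ρ) = Q w * ((w - s1) * (w - s2)) := by
      rw [hQ, hXe w, hFF1 w, hF12 w]
      have := hene w hw2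
      field_simp
    rw [← norm_mul, ← norm_mul, ← norm_mul, ← h5]
  have hsph : ∀ w ∈ sphere ρ (10 * r), ‖Q w‖ ≤ 11 / 81 / r := by
    intro w hw
    rw [mem_sphere, dist_eq_norm] at hw
    have h5 := hQv w (by rw [hw]; linarith) hw.le
    have h6 := hcl w (by rw [hw]; linarith) hw.le
    have h7 : ‖F w / X w‖ ≤ 11 / 10 := by
      calc ‖F w / X w‖ = ‖(F w / X w - 1) + 1‖ := by congr 1; ring
        _ ≤ ‖F w / X w - 1‖ + ‖(1 : ℂ)‖ := norm_add_le _ _
        _ ≤ 1 / 10 + 1 := by rw [norm_one]; gcongr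
        _ = _ := by norm_num
    have h8 : ∀ s, ‖s - ρ‖ < r → 9 * r ≤ ‖w - s‖ := by
      intro s hs
      have : ‖w - ρ‖ ≤ ‖w - s‖ + ‖s - ρ‖ := by
        calc ‖w - ρ‖ = ‖(w - s) + (s - ρ)‖ := by congr 1; ring
          _ ≤ _ := norm_add_le _ _
      linarith
    have h9 := h8 s1 hs1
    have h10 := h8 s2 hs2
    rw [hw] at h5
    have h11 : ‖Q w‖ * ((9 * r) * (9 * r)) ≤ 11 / 10 * (10 * r) := by
      calc ‖Q w‖ * ((9 * r) * (9 * r)) ≤ ‖Q w‖ * (‖w - s1‖ * ‖w - s2‖) := by gcongr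
        _ = ‖F w / X w‖ * (10 * r) := h5
        _ ≤ _ := by gcongr
    rw [le_div_iff₀ hr]
    have h12 : 81 * r * (‖Q w‖ * r) ≤ 81 * r * (11 / 81) := by nlinarith
    exact le_of_mul_le_mul_left h12 (by positivity)
  have hmax := norm_le_of_sphere (by positivity) hQa hsph
  set w : ℂ := ρ + r with hw
  have hwρ : ‖w - ρ‖ = r := by
    rw [hw, add_sub_cancel_left, Complex.norm_real, Real.norm_eq_abs, abs_of_pos hr]
  have h5 := hQv w hwρ.ge (by rw [hwρ]; linarith)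
  have h6 := hcl w hwρ.ge (by rw [hwρ]; linarith)
  have h7 : 9 / 10 ≤ ‖F w / X w‖ := by
    have : ‖(1 : ℂ)‖ ≤ ‖F w / X w‖ + ‖F w / X w - 1‖ := by
      calc ‖(1 : ℂ)‖ = ‖F w / X w - (F w / X w - 1)‖ := by congr 1; ring
        _ ≤ _ := norm_sub_le _ _
    rw [norm_one] at this
    linarith
  have h8 : ∀ s, ‖s - ρ‖ < r → ‖w - s‖ ≤ 2 * r := by
    intro s hs
    have : ‖w - s‖ ≤ ‖w - ρ‖ + ‖s - ρ‖ := by
      calc ‖w - s‖ = ‖(w - ρ) - (s - ρ)‖ := by congr 1; ring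
        _ ≤ _ := norm_sub_le _ _
    linarith
  have h9 := hmax w (by rw [mem_closedBall, dist_eq_norm, hwρ]; linarith)
  rw [hwρ] at h5
  have h10 : 9 / 10 * r ≤ 11 / 81 / r * ((2 * r) * (2 * r)) := by
    calc 9 / 10 * r ≤ ‖F w / X w‖ * r := by gcongr
      _ = ‖Q w‖ * (‖w - s1‖ * ‖w - s2‖) := h5.symm
      _ ≤ _ := by
          have := h8 s1 hs1
          have := h8 s2 hs2
          gcongr
  have h11 : 11 / 81 / r * ((2 * r) * (2 * r)) = 44 / 81 * r := by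
    field_simp
    norm_num
  rw [h11] at h10
  linarith

variable {γ : ℕ → ℝ}

/-- spacing of the zeros -/
lemma spacing (hγ : IsOrdinateSeq γ) {T0 : ℝ} (h : RH T0) {a : ℝ} (ha : (a : EReal) < alpha γ)
    (ha0 : a < 0) : ∃ R : ℝ, 1 ≤ R ∧ T0 ≤ R ∧ ∀ ρ ρ' : ℂ, IsUpperZero ρ → IsUpperZero ρ' →
      R ≤ ρ.im → ρ ≠ ρ' → ρ.im ^ a ≤ ‖ρ - ρ'‖ := by
  obtain ⟨N, hN⟩ := eventually_atTop.1 (gap_lower hγ h ha)
  refine ⟨max 1 (max (T0 + 2) (γ N + 2)), le_max_left _ _, ?_, ?_⟩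
  · have := (le_max_left (T0 + 2) (γ N + 2)).trans (le_max_right 1 _)
    linarith
  intro ρ ρ' hρ hρ' hR hne
  have h1 : 1 ≤ ρ.im := (le_max_left _ _).trans hR
  have h2 : T0 + 2 ≤ ρ.im := ((le_max_left _ _).trans (le_max_right _ _)).trans hR
  have h3 : γ N + 2 ≤ ρ.im := ((le_max_right _ _).trans (le_max_right _ _)).trans hR
  have hle1 : ρ.im ^ a ≤ 1 := Real.rpow_le_one_of_one_le_of_nonpos h1 ha0.le
  have him : |ρ.im - ρ'.im| ≤ ‖ρ - ρ'‖ := by
    have := Complex.abs_im_le_norm (ρ - ρ')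
    rwa [Complex.sub_im] at this
  rcases le_or_gt 1 |ρ.im - ρ'.im| with h4 | h4
  · linarith
  have h5 := abs_lt.1 h4
  obtain ⟨h6, -⟩ := h ρ hρ (by linarith)
  obtain ⟨h7, -⟩ := h ρ' hρ' (by linarith)
  have h8 : ρ.im ≠ ρ'.im := fun heq => hne (Complex.ext (h6.trans h7.symm) heq)
  obtain ⟨m, hm⟩ := exists_index_of_zero hγ hρ
  obtain ⟨n, hn⟩ := exists_index_of_zero hγ hρ'
  refine le_trans ?_ him
  rcases lt_or_gt_of_ne h8 with hlt | hlt
  · -- ρ below ρ'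
    have hmn : m < n := lt_index hγ (by rw [hm, hn]; exact hlt)
    have hNm : N ≤ m := by
      have : N < m := lt_index hγ (by rw [hm]; linarith)
      omega
    have g1 := hN m hNm
    have g2 : γ (m + 1) ≤ γ n := hγ.mono hmn
    rw [hm] at g1
    rw [hn] at g2
    rw [abs_sub_comm, abs_of_pos (by linarith)]
    linarith
  · have hmn : n < m := lt_index hγ (by rw [hm, hn]; exact hlt)
    have hNn : N ≤ n := by
      have : N < n := lt_index hγ (by rw [hn]; linarith)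
      omega
    have g1 := hN n hNn
    have g2 : γ (n + 1) ≤ γ m := hγ.mono hmn
    rw [hn] at g1
    rw [hm] at g2
    have g3 : ρ.im ^ a ≤ ρ'.im ^ a :=
      Real.rpow_le_rpow_of_nonpos hρ'.2.2.2 hlt.le ha0.le
    rw [abs_of_pos (by linarith)]
    linarith

/-- the zeros of the local factorisation are upper zeros -/
lemma Loc.upper {C t : ℝ} {k : ℕ} {z : Fin k → ℂ} {g : ℂ → ℂ} (hL : Loc C t z g)
    (ht : 100 ≤ t) (i : Fin k) : IsUpperZero (z i) := by
  obtain ⟨h1, h2⟩ := hL.hz i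
  obtain ⟨m1, m2, m3, m4⟩ := mem_disc h1
  refine ⟨h2, by linarith, ?_, by linarith⟩
  by_contra hcon
  exact riemannZeta_ne_zero_of_one_le_re (not_lt.1 hcon) h2

lemma mirror_norm {w ρ : ℂ} (hρ : ρ.re = 1 / 2) :
    ‖1 - (starRingEnd ℂ) w - ρ‖ = ‖w - ρ‖ := by
  have h1 : ρ = 1 - (starRingEnd ℂ) ρ := by
    apply Complex.ext
    · simp; rw [hρ]; norm_num
    · simp
  have e : 1 - (starRingEnd ℂ) w - ρ = -(starRingEnd ℂ) (w - ρ) := by
    rw [map_sub]
    linear_combination -h1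
  rw [e, norm_neg, RCLike.norm_conj]

/-- the easy direction, normalised -/
theorem easy_aux (hγ : IsOrdinateSeq γ) {T0 : ℝ} (h : RH T0) {a : ℝ}
    (ha : (a : EReal) < alpha γ) : ∃ R : ℝ, 1 ≤ R ∧ ∀ (h : ℝ) (s : ℂ), 0 < h → h ≤ ‖s‖ ^ a →
      R ≤ ‖s‖ → xiH h s = 0 → 1 / 2 ≤ s.re → 0 ≤ s.im → s.re = 1 / 2 := by
  obtain ⟨a3, h3a, h3b⟩ := EReal.lt_iff_exists_real_btwn.1 ha
  have h3a' : a < a3 := by exact_mod_cast h3a
  have h30 : a3 < 0 := by
    have : (a3 : EReal) < 0 := lt_of_lt_of_le h3b (alpha_le_zero hγ)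
    exact_mod_cast this
  set a1 : ℝ := a + (a3 - a) / 3 with ha1
  set a2 : ℝ := a + 2 * (a3 - a) / 3 with ha2
  have o1 : a < a1 := by rw [ha1]; linarith
  have o2 : a1 < a2 := by rw [ha1, ha2]; linarith
  have o3 : a2 < a3 := by rw [ha2]; linarith
  have o4 : a2 < 0 := o3.trans h30
  have o5 : a < 0 := by linarith
  obtain ⟨C, T1, hC, hT1, hloc⟩ := exists_loc
  obtain ⟨R1, hR1, hR1', hsp⟩ := spacing hγ h h3b h30
  obtain ⟨R2, hR2, hst⟩ := strip_near (η := 1 / 10) hC o2 o4 (by norm_num)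
  obtain ⟨R3, hR3, hri⟩ := right_near (c := -a) (η := 1 / 10) (by linarith) (by norm_num)
  -- comparison of powers
  have hev1 : ∀ᶠ t : ℝ in atTop, 20 * (t / 2) ^ a2 ≤ t ^ a3 := by
    have h1 := (tendsto_rpow_atTop (sub_pos.2 o3)).eventually_ge_atTop (20 * 2 ^ (-a2))
    filter_upwards [h1, eventually_gt_atTop 0] with t h2 ht
    rw [Real.div_rpow ht.le (by norm_num), Real.rpow_sub ht] at *
    have h4 : 0 < t ^ a2 := Real.rpow_pos_of_pos ht _
    rw [le_div_iff₀ h4, Real.rpow_neg (by norm_num)] at h2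
    calc 20 * (t ^ a2 / 2 ^ a2) = 20 * (2 ^ a2)⁻¹ * t ^ a2 := by ring
      _ ≤ t ^ a3 := h2
  have hev2 : ∀ᶠ t : ℝ in atTop, (t / 2) ^ a ≤ t ^ a1 := by
    have h1 := (tendsto_rpow_atTop (sub_pos.2 o1)).eventually_ge_atTop (2 ^ (-a))
    filter_upwards [h1, eventually_gt_atTop 0] with t h2 ht
    rw [Real.div_rpow ht.le (by norm_num), Real.rpow_sub ht] at *
    have h4 : 0 < t ^ a := Real.rpow_pos_of_pos ht _
    rw [le_div_iff₀ h4, Real.rpow_neg (by norm_num)] at h2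
    calc t ^ a / 2 ^ a = (2 ^ a)⁻¹ * t ^ a := by ring
      _ ≤ t ^ a1 := h2
  have hev3 : ∀ᶠ t : ℝ in atTop, (t / 2) ^ a2 ≤ 1 / 20 := by
    have h1 := (tendsto_rpow_neg_atTop (show 0 < -a2 by linarith)).comp
      (tendsto_id.atTop_div_const (show (0 : ℝ) < 2 by norm_num))
    simp only [neg_neg] at h1
    exact h1.eventually_le_const (by norm_num)
  obtain ⟨R4, hR4⟩ := eventually_atTop.1 (hev1.and (hev2.and hev3))
  set R : ℝ := R1 + R2 + R3 + |R4| + T1 + 100 with hR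
  have hRp : R1 + 10 ≤ R ∧ R2 + 10 ≤ R ∧ R3 ≤ R ∧ R4 + 10 ≤ R ∧ T1 + 10 ≤ R ∧ 110 ≤ R := by
    have := le_abs_self R4
    have := abs_nonneg R4
    refine ⟨by linarith, by linarith, by linarith, by linarith, by linarith, by linarith⟩
  obtain ⟨p1, p2, p3, p4, p5, p6⟩ := hRp
  refine ⟨R, by linarith, ?_⟩
  intro hh s hh0 hhs hsR hz hre him
  by_contra hne
  rcases le_or_gt 5 s.re with h5 | h5
  · have h6 := hri s h5 (p3.trans hsR) hh hh0 (by rw [neg_neg]; exact hhs)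
    rw [hz, zero_div, zero_sub, norm_neg, norm_one] at h6
    norm_num at h6
  have hn : ‖s‖ ≤ 5 + s.im := by
    refine (Complex.norm_le_abs_re_add_abs_im s).trans ?_
    rw [abs_of_nonneg (show 0 ≤ s.re by linarith), abs_of_nonneg him]
    linarith
  have hn2 : s.im ≤ ‖s‖ := (le_abs_self _).trans (Complex.abs_im_le_norm s)
  have hsim : R - 5 ≤ s.im := by linarith
  have es : s = pt s.re s.im := rfl
  -- a zero of ξ near s
  obtain ⟨ρ, hρ, hρs⟩ : ∃ ρ, IsUpperZero ρ ∧ ‖s - ρ‖ < s.im ^ a2 := by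
    by_contra hcon
    push Not at hcon
    obtain ⟨k, z, g, hL⟩ := hloc s.im (by linarith)
    have h6 := (hst s.im (by linarith) k z g hL s.re hre h5.le
      (fun i => hcon _ (hL.upper (by linarith) i)) hh hh0 (by
        refine hhs.trans ?_
        have q1 : ‖s‖ ^ a ≤ s.im ^ a :=
          Real.rpow_le_rpow_of_nonpos (by linarith) hn2 o5.le
        refine q1.trans ?_
        exact Real.rpow_le_rpow_of_exponent_le (by linarith) o1.le)).2
    rw [← es, hz, zero_div, zero_sub, norm_neg, norm_one] at h6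
    norm_num at h6
  have hsmall : s.im ^ a2 ≤ 1 := Real.rpow_le_one_of_one_le_of_nonpos (by linarith) o4.le
  have hdiff : |s.im - ρ.im| ≤ ‖s - ρ‖ := by
    have := Complex.abs_im_le_norm (s - ρ)
    rwa [Complex.sub_im] at this
  have hdiff' := abs_le.1 (hdiff.trans (hρs.le.trans hsmall))
  set τ := ρ.im with hτ
  have hτR : R - 6 ≤ τ := by linarith
  obtain ⟨hρ2, hρ3⟩ := h ρ hρ (by linarith)
  obtain ⟨w1, w2, w3⟩ := hR4 τ (by linarith)
  set r := (τ / 2) ^ a2 with hr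
  have hr0 : 0 < r := Real.rpow_pos_of_pos (by linarith) _
  -- the power at nearby points
  have hpow : ∀ w : ℂ, ‖w - ρ‖ ≤ 1 → w.im ^ a2 ≤ r := by
    intro w hw
    have h6 : |w.im - τ| ≤ 1 := by
      have := Complex.abs_im_le_norm (w - ρ)
      rw [Complex.sub_im] at this
      exact this.trans hw
    have h7 := abs_le.1 h6
    exact Real.rpow_le_rpow_of_nonpos (by linarith) (by linarith) o4.le
  have hsr : ‖s - ρ‖ < r := lt_of_lt_of_le hρs (hpow s (hρs.le.trans hsmall))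
  -- closeness on the annulus
  have hann : ∀ w : ℂ, r ≤ ‖w - ρ‖ → ‖w - ρ‖ ≤ 10 * r → 1 / 2 ≤ w.re →
      xi w ≠ 0 ∧ ‖xiH hh w / xi w - 1‖ ≤ 1 / 10 := by
    intro w hw1 hw2 hw3
    have hw4 : ‖w - ρ‖ ≤ 1 := by linarith
    have hw5 := abs_le.1 ((show |w.im - τ| ≤ ‖w - ρ‖ by
      have := Complex.abs_im_le_norm (w - ρ)
      rwa [Complex.sub_im] at this).trans hw4)
    have hw6 := abs_le.1 ((show |w.re - ρ.re| ≤ ‖w - ρ‖ by
      have := Complex.abs_re_le_norm (w - ρ)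
      rwa [Complex.sub_re] at this).trans hw4)
    rw [hρ2] at hw6
    obtain ⟨k, z, g, hL⟩ := hloc w.im (by linarith)
    have ew : w = pt w.re w.im := rfl
    have hd : ∀ i, w.im ^ a2 ≤ ‖pt w.re w.im - z i‖ := by
      intro i
      rw [← ew]
      refine (hpow w hw4).trans ?_
      have hzi := hL.upper (by linarith) i
      rcases eq_or_ne ρ (z i) with heq | hneq
      · rw [← heq]; exact hw1
      · have g1 := hsp ρ (z i) hρ hzi (by linarith) hneq
        have g2 : ‖ρ - z i‖ ≤ ‖w - z i‖ + ‖w - ρ‖ := by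
          calc ‖ρ - z i‖ = ‖(w - z i) - (w - ρ)‖ := by congr 1; ring
            _ ≤ _ := norm_sub_le _ _
        linarith
    have hhw : hh ≤ w.im ^ a1 := by
      refine hhs.trans ?_
      have q1 : ‖s‖ ^ a ≤ (w.im / 2) ^ a :=
        Real.rpow_le_rpow_of_nonpos (by linarith) (by linarith) o5.le
      exact q1.trans (hR4 w.im (by linarith)).2.1
    have h6 := hst w.im (by linarith) k z g hL w.re hw3 (by linarith) hd hh hh0 hhw
    rwa [← ew] at h6
  have hcl : ∀ w : ℂ, r ≤ ‖w - ρ‖ → ‖w - ρ‖ ≤ 10 * r → ‖xiH hh w / xi w - 1‖ ≤ 1 / 10 := by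
    intro w hw1 hw2
    rcases le_or_gt (1 / 2) w.re with hw3 | hw3
    · exact (hann w hw1 hw2 hw3).2
    · have e1 := mirror_norm (w := w) hρ2
      have h6 := (hann (1 - (starRingEnd ℂ) w) (by rw [e1]; exact hw1) (by rw [e1]; exact hw2)
        (by simp; linarith)).2
      rw [xiH_mirror, xi_mirror, ← map_div₀, ← map_one (starRingEnd ℂ), ← map_sub,
        RCLike.norm_conj] at h6
      exact h6
  have hregρ : ρ ∈ Reg := Or.inl (by rw [← hτ]; linarith)
  have hxiρ : xi ρ = 0 := by rw [xi_eq_AA hregρ, hρ.1, mul_zero]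
  have hdρ : deriv xi ρ ≠ 0 := by
    have hEq : xi =ᶠ[𝓝 ρ] fun s => AA s * riemannZeta s := by
      have hopen : IsOpen {s : ℂ | s.im ≠ 0} :=
        isOpen_ne_fun Complex.continuous_im continuous_const
      filter_upwards [hopen.mem_nhds (show ρ ∈ {s : ℂ | s.im ≠ 0} by
        show ρ.im ≠ 0; rw [← hτ]; linarith)] with s hs
      exact xi_eq_AA (Or.inl hs)
    have d2 := (differentiableAt_riemannZeta (Reg_ne hregρ).2.1).hasDerivAt
    have d3 := (hasDerivAt_AA hregρ).fun_mul d2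
    rw [hEq.deriv_eq, d3.deriv, hρ.1, mul_zero, zero_add]
    exact mul_ne_zero (AA_ne hregρ) hρ3
  have hne0 : ∀ w, w ≠ ρ → ‖w - ρ‖ ≤ 10 * r → xi w ≠ 0 := by
    intro w hw1 hw2 hw3
    have hw4 : ‖w - ρ‖ ≤ 1 / 2 := by linarith
    have hw5 := abs_le.1 ((show |w.im - τ| ≤ ‖w - ρ‖ by
      have := Complex.abs_im_le_norm (w - ρ)
      rwa [Complex.sub_im] at this).trans hw4)
    have hwR : w ∈ Reg := Or.inl (by linarith)
    have hζ : riemannZeta w = 0 := by
      rw [xi_eq_AA hwR] at hw3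
      exact (mul_eq_zero.1 hw3).resolve_left (AA_ne hwR)
    have hre1 : w.re < 1 := by
      by_contra hcon
      exact riemannZeta_ne_zero_of_one_le_re (not_lt.1 hcon) hζ
    have hre0 : 0 < w.re := by
      rcases eq_or_lt_of_le hw4 with h0 | h0
      · have : (1 : ℝ) / 20 ≥ r := w3
        have : (10 : ℝ) * r ≤ 1 / 2 := by linarith
        have hz2 := (zeta_zero_iff (s := w) (by linarith)).1 hζ
        by_contra hcon
        refine riemannZeta_ne_zero_of_one_le_re ?_ hz2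
        simp
        linarith
      · have := (abs_lt.1 ((show |w.re - ρ.re| ≤ ‖w - ρ‖ by
          have := Complex.abs_re_le_norm (w - ρ)
          rwa [Complex.sub_re] at this).trans_lt h0)).1
        rw [hρ2] at this
        linarith
    have hup : IsUpperZero w := ⟨hζ, hre0, hre1, by linarith⟩
    have g1 := hsp ρ w hρ hup (by linarith) hw1.symm
    have g2 : ‖ρ - w‖ = ‖w - ρ‖ := norm_sub_rev _ _
    rw [g2] at g1
    linarith
  have hss := no_two (differentiable_xiH hh) differentiable_xi hr0 hxiρ hdρ hne0 hcl hz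
    (s2 := 1 - (starRingEnd ℂ) s) (by rw [xiH_mirror, hz, map_zero]) hsr
    (by rw [mirror_norm hρ2]; exact hsr)
  apply hne
  have := congrArg Complex.re hss
  simp at this
  linarith

/-- the easy direction -/
theorem easy (hγ : IsOrdinateSeq γ) {T0 : ℝ} (h : RH T0) {a : ℝ}
    (ha : (a : EReal) < alpha γ) : ∃ R : ℝ, ∀ (h : ℝ) (s : ℂ), 0 < h → h ≤ ‖s‖ ^ a →
      R ≤ ‖s‖ → xiH h s = 0 → s.re = 1 / 2 := by
  obtain ⟨a1, h1a, h1b⟩ := EReal.lt_iff_exists_real_btwn.1 ha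
  have h1a' : a < a1 := by exact_mod_cast h1a
  have h10 : a1 < 0 := by
    have : (a1 : EReal) < 0 := lt_of_lt_of_le h1b (alpha_le_zero hγ)
    exact_mod_cast this
  obtain ⟨R, hR, hmain⟩ := easy_aux hγ h h1b
  have hev2 : ∀ᶠ t : ℝ in atTop, (t / 2) ^ a ≤ t ^ a1 := by
    have h1 := (tendsto_rpow_atTop (sub_pos.2 h1a')).eventually_ge_atTop (2 ^ (-a))
    filter_upwards [h1, eventually_gt_atTop 0] with t h2 ht
    rw [Real.div_rpow ht.le (by norm_num), Real.rpow_sub ht] at *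
    have h4 : 0 < t ^ a := Real.rpow_pos_of_pos ht _
    rw [le_div_iff₀ h4, Real.rpow_neg (by norm_num)] at h2
    calc t ^ a / 2 ^ a = (2 ^ a)⁻¹ * t ^ a := by ring
      _ ≤ t ^ a1 := h2
  obtain ⟨R2, hR2⟩ := eventually_atTop.1 hev2
  refine ⟨|R2| + R + 2, fun hh s hh0 hhs hsR hz => ?_⟩
  have := le_abs_self R2
  have := abs_nonneg R2
  -- any of the four symmetric points
  have key : ∀ w : ℂ, |‖w‖ - ‖s‖| ≤ 1 → xiH hh w = 0 → 1 / 2 ≤ w.re → 0 ≤ w.im →
      w.re = 1 / 2 := by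
    intro w hw1 hw2 hw3 hw4
    have hw5 := abs_le.1 hw1
    refine hmain hh w hh0 ?_ (by linarith) hw2 hw3 hw4
    refine hhs.trans ((Real.rpow_le_rpow_of_nonpos (y := ‖s‖) (x := ‖w‖ / 2) (by linarith)
      (by linarith) (by linarith)).trans (hR2 ‖w‖ (by linarith)))
  have hconj : xiH hh ((starRingEnd ℂ) s) = 0 := by rw [xiH_conj, hz, map_zero]
  have hmir : xiH hh (1 - (starRingEnd ℂ) s) = 0 := by rw [xiH_mirror, hz, map_zero]
  have hmir2 : xiH hh (1 - s) = 0 := by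
    have := xiH_mirror hh ((starRingEnd ℂ) s)
    rw [Complex.conj_conj, hconj, map_zero] at this
    exact this
  have hn1 : |‖1 - s‖ - ‖s‖| ≤ 1 := by
    have h1 := abs_norm_sub_norm_le (1 - s) (-s)
    rw [norm_neg] at h1
    refine h1.trans (le_of_eq ?_)
    rw [show (1 : ℂ) - s - -s = 1 by ring, norm_one]
  have hn2 : ‖(starRingEnd ℂ) s‖ = ‖s‖ := RCLike.norm_conj s
  have hn3 : |‖1 - (starRingEnd ℂ) s‖ - ‖s‖| ≤ 1 := by
    have : ‖1 - (starRingEnd ℂ) s‖ = ‖1 - s‖ := by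
      rw [← RCLike.norm_conj (1 - s), map_sub, map_one]
    rw [this]
    exact hn1
  rcases le_total (1 / 2) s.re with h1 | h1 <;> rcases le_total 0 s.im with h2 | h2
  · exact key s (by simp) hz h1 h2
  · have := key ((starRingEnd ℂ) s) (by rw [hn2]; simp) hconj (by simpa using h1)
      (by simpa using h2)
    simpa using this
  · have := key (1 - (starRingEnd ℂ) s) hn3 hmir (by simp; linarith) (by simpa using h2)
    simp at this
    linarith
  · have := key (1 - s) hn1 hmir2 (by simp; linarith) (by simpa using h2)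
    simp at this
    linarith

end Pool.Agent.HF
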