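import Pool.Agent.Lib.MP_af3d17_nt_h54.Hard3

/-!
# MP_af3d17_nt, heat flow: the exponents
-/

set_option autoImplicit false

namespace Pool.Agent.HF

open MeasureTheory ProbabilityTheory Filter Topology Metric
open Pool.Agent.ZP

/-! ### continuity in `h` at `0` -/

lemma deriv_strip (a b : ℝ) : ∃ C : ℝ, 0 < C ∧ ∀ s : ℂ, a ≤ s.re → s.re ≤ b →
    ‖deriv xi s‖ ≤ C * (2 + ‖s‖) ^ 2 := by
  obtain ⟨C, hC, h1⟩ := xi_strip (a - 1) (b + 1)
  refine ⟨C, hC, fun s h2 h3 => ?_⟩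
  have h4 : ∀ z ∈ sphere s 1, ‖xi z‖ ≤ C * (2 + ‖s‖) ^ 2 := by
    intro z hz
    rw [mem_sphere, dist_eq_norm] at hz
    have h5 := (Complex.abs_re_le_norm (z - s)).trans hz.le
    rw [Complex.sub_re, abs_le] at h5
    have h6 : ‖z‖ ≤ 1 + ‖s‖ := by
      calc ‖z‖ = ‖(z - s) + s‖ := by congr 1; ring
        _ ≤ ‖z - s‖ + ‖s‖ := norm_add_le _ _
        _ = _ := by rw [hz]
    refine (h1 z (by linarith) (by linarith)).trans ?_
    have : 1 + ‖z‖ ≤ 2 + ‖s‖ := by linarith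
    gcongr
  have h5 := Complex.norm_deriv_le_of_forall_mem_sphere_norm_le one_pos
    differentiable_xi.diffContOnCl h4
  rwa [div_one] at h5

/-- `ξ_h → ξ` locally uniformly -/
lemma xiH_close (ρ : ℂ) : ∃ C : ℝ, 0 < C ∧ ∀ w ∈ closedBall ρ 1, ∀ h : ℝ, 0 < h → h ≤ 1 →
    ‖xiH h w - xi w‖ ≤ C * h := by
  obtain ⟨C, hC, hd⟩ := deriv_strip (ρ.re - 1) (ρ.re + 1)
  set R := 3 + ‖ρ‖ with hR
  have hR0 : 0 < R := by positivity
  have hKK := KK_pos
  refine ⟨C * (8 * R ^ 2 + 136) * KK, by positivity, fun w hw h hh hh1 => ?_⟩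
  rw [mem_closedBall, dist_eq_norm] at hw
  have h5 := (Complex.abs_re_le_norm (w - ρ)).trans hw
  rw [Complex.sub_re, abs_le] at h5
  have hwn : ‖w‖ ≤ 1 + ‖ρ‖ := by
    calc ‖w‖ = ‖(w - ρ) + ρ‖ := by congr 1; ring
      _ ≤ ‖w - ρ‖ + ‖ρ‖ := norm_add_le _ _
      _ ≤ _ := by linarith
  have e0 : xiH h w - xi w = ∫ x : ℝ, (xi (w + h * x * Complex.I) - xi w) ∂gm := by
    rw [integral_sub (integrable_shift h w) (integrable_const _), xiH]
    simp
  rw [e0]
  have key : ∀ x : ℝ, ‖xi (w + h * x * Complex.I) - xi w‖ ≤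
      (C * (8 * R ^ 2 + 136) * h) * Real.exp (x ^ 2 / 4) := by
    intro x
    have h6 : ‖xi (w + h * x * Complex.I) - xi w‖ ≤
        (C * (R + |x|) ^ 2) * ‖(w + h * x * Complex.I) - w‖ := by
      refine Convex.norm_image_sub_le_of_norm_deriv_le (𝕜 := ℂ) (s := segment ℝ w
        (w + h * x * Complex.I)) (fun v _ => differentiable_xi v) (fun v hv => ?_)
        (convex_segment _ _) (left_mem_segment _ _ _) (right_mem_segment _ _ _)
      obtain ⟨p, q, hp, hq, hpq, rfl⟩ := hv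
      have hpq' : (p : ℂ) + q = 1 := by exact_mod_cast hpq
      have e : p • w + q • (w + h * x * Complex.I) = w + h * (q * x : ℝ) * Complex.I := by
        simp only [Complex.real_smul]
        push_cast
        linear_combination w * hpq'
      rw [e]
      have h7 : ‖w + h * (q * x : ℝ) * Complex.I‖ ≤ ‖w‖ + |x| := by
        refine (norm_add_le _ _).trans ?_
        rw [norm_mul, norm_mul, Complex.norm_I, mul_one, Complex.norm_real, Complex.norm_real,
          Real.norm_eq_abs, Real.norm_eq_abs, abs_mul, abs_of_nonneg hq, abs_of_pos hh]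
        have : h * (q * |x|) ≤ 1 * (1 * |x|) := by
          gcongr
          linarith
        linarith
      refine (hd _ (by rw [shift_re]; linarith) (by rw [shift_re]; linarith)).trans ?_
      refine mul_le_mul_of_nonneg_left ?_ hC.le
      refine pow_le_pow_left₀ (by positivity) ?_ 2
      linarith
    have h8 : ‖(w + h * x * Complex.I) - w‖ = h * |x| := by
      rw [add_sub_cancel_left, norm_mul, norm_mul, Complex.norm_I, mul_one, Complex.norm_real,
        Complex.norm_real, Real.norm_eq_abs, Real.norm_eq_abs, abs_of_pos hh]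
    rw [h8] at h6
    refine h6.trans ?_
    have h9 : (R + |x|) ^ 2 * |x| ≤ (8 * R ^ 2 + 136) * Real.exp (x ^ 2 / 4) := by
      have hmono : Real.exp (x ^ 2 / 8) ≤ Real.exp (x ^ 2 / 4) := by
        rw [Real.exp_le_exp]; nlinarith [sq_nonneg x]
      have m1 := abs_le_exp x
      have m2 := cube_le_exp x
      have m3 : (R + |x|) ^ 2 * |x| ≤ 2 * R ^ 2 * |x| + 2 * |x| ^ 3 := by
        have : 0 ≤ (R - |x|) ^ 2 * |x| := by positivity
        nlinarith
      have m4 : 2 * R ^ 2 * |x| ≤ 2 * R ^ 2 * (4 * Real.exp (x ^ 2 / 4)) := by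
        gcongr
        linarith
      nlinarith
    calc C * (R + |x|) ^ 2 * (h * |x|) = C * h * ((R + |x|) ^ 2 * |x|) := by ring
      _ ≤ C * h * ((8 * R ^ 2 + 136) * Real.exp (x ^ 2 / 4)) := by gcongr
      _ = _ := by ring
  refine (norm_integral_le key).trans (le_of_eq ?_)
  ring

/-- a zero of `ξ` is a limit of zeros of `ξ_h` -/
lemma hurwitz {ρ : ℂ} (hρ : xi ρ = 0) {r : ℝ} (hr : 0 < r) : ∃ h0 : ℝ, 0 < h0 ∧ ∀ h : ℝ,
    0 < h → h < h0 → ∃ s : ℂ, ‖s - ρ‖ ≤ r ∧ xiH h s = 0 := by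
  -- isolated zero
  have hiso : ∀ᶠ w in 𝓝[≠] ρ, xi w ≠ 0 := by
    rcases (differentiable_xi.analyticAt ρ).eventually_eq_zero_or_eventually_ne_zero with h | h
    · exfalso
      have h1 : AnalyticOnNhd ℂ xi Set.univ := fun z _ => differentiable_xi.analyticAt z
      have h2 := h1.eqOn_zero_of_preconnected_of_eventuallyEq_zero isPreconnected_univ
        (Set.mem_univ ρ) h (Set.mem_univ (2 : ℂ))
      exact xi_ne_right (w := 2) (by simp) h2
    · exact h
  rw [eventually_nhdsWithin_iff, Metric.eventually_nhds_iff_ball] at hiso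
  obtain ⟨ε, hε, hiso⟩ := hiso
  set r' := min (min r 1) (ε / 2) with hr'
  have hr'0 : 0 < r' := by positivity
  have hr'1 : r' ≤ 1 := (min_le_left _ _).trans (min_le_right _ _)
  have hr'r : r' ≤ r := (min_le_left _ _).trans (min_le_left _ _)
  have hr'ε : r' < ε := lt_of_le_of_lt (min_le_right _ _) (by linarith)
  have hsne : ∀ w ∈ sphere ρ r', xi w ≠ 0 := by
    intro w hw
    rw [mem_sphere] at hw
    refine hiso w (by rw [mem_ball, hw]; exact hr'ε) ?_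
    rintro rfl
    rw [dist_self] at hw
    linarith
  obtain ⟨w0, hw0, hmin⟩ := (isCompact_sphere ρ r').exists_isMinOn
    (NormedSpace.sphere_nonempty.2 hr'0.le) continuous_xi.norm.continuousOn
  set m := ‖xi w0‖ with hm
  have hm0 : 0 < m := norm_pos_iff.2 (hsne w0 hw0)
  obtain ⟨C, hC, hcl⟩ := xiH_close ρ
  refine ⟨min 1 (m / (4 * C)), by positivity, fun h hh hh0 => ?_⟩
  have hh1 : h ≤ 1 := hh0.le.trans (min_le_left _ _)
  have hh2 : C * h ≤ m / 4 := by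
    have : h ≤ m / (4 * C) := hh0.le.trans (min_le_right _ _)
    rw [le_div_iff₀ (by positivity)] at this
    linarith
  by_contra hcon
  push Not at hcon
  have hne : ∀ s ∈ closedBall ρ r', xiH h s ≠ 0 := by
    intro s hs
    rw [mem_closedBall, dist_eq_norm] at hs
    exact hcon s (hs.trans hr'r)
  have hQa : AnalyticOnNhd ℂ (fun s => (xiH h s)⁻¹) (closedBall ρ r') := fun s hs =>
    ((differentiable_xiH h).analyticAt s).inv (hne s hs)
  have hsph : ∀ s ∈ sphere ρ r', ‖(xiH h s)⁻¹‖ ≤ 4 / (3 * m) := by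
    intro s hs
    have h1 : m ≤ ‖xi s‖ := hmin hs
    have h2 := hcl s (sphere_subset_closedBall.trans (closedBall_subset_closedBall hr'1) hs)
      h hh hh1
    have h3 : ‖xi s‖ ≤ ‖xiH h s‖ + ‖xiH h s - xi s‖ := by
      calc ‖xi s‖ = ‖xiH h s - (xiH h s - xi s)‖ := by congr 1; ring
        _ ≤ _ := norm_sub_le _ _
    have h4 : 3 * m / 4 ≤ ‖xiH h s‖ := by linarith
    rw [norm_inv, inv_eq_one_div, div_le_div_iff₀ (by linarith) (by positivity)]
    linarith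
  have h5 := norm_le_of_sphere hr'0 hQa hsph ρ (mem_closedBall_self hr'0.le)
  have h6 := hcl ρ (mem_closedBall_self zero_le_one) h hh hh1
  rw [hρ, sub_zero] at h6
  have h7 : 0 < ‖xiH h ρ‖ := norm_pos_iff.2 (hne ρ (mem_closedBall_self hr'0.le))
  rw [norm_inv, inv_eq_one_div, div_le_div_iff₀ h7 (by positivity)] at h5
  linarith

/-! ### the exponent of the heat flow -/

/-- the pairs `(h, s)` with `h > 0` such that `s` is a zero off the critical line of the Gaussian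
average of `ξ` with standard deviation `h`, with `|s| → ∞` -/
noncomputable def heatZeros : Filter (ℝ × ℂ) :=
  comap (fun p => ‖p.2‖) atTop ⊓ 𝓟 {p | 0 < p.1 ∧ xiH p.1 p.2 = 0 ∧ p.2.re ≠ 1 / 2}

/-- `log h / log |s|` -/
noncomputable def heatExponent (p : ℝ × ℂ) : EReal :=
  ((Real.log p.1 / Real.log ‖p.2‖ : ℝ) : EReal)

/-- the exponent `β` -/
noncomputable def beta : EReal := liminf heatExponent heatZeros

lemma heat_basis : heatZeros.HasBasis (fun _ : ℝ => True)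
    (fun R => (fun p : ℝ × ℂ => ‖p.2‖) ⁻¹' Set.Ici R ∩
      {p | 0 < p.1 ∧ xiH p.1 p.2 = 0 ∧ p.2.re ≠ 1 / 2}) :=
  (atTop_basis.comap _).inf_principal _

lemma heat_frequently {P : ℝ × ℂ → Prop} : (∃ᶠ p in heatZeros, P p) ↔
    ∀ R : ℝ, ∃ p : ℝ × ℂ, R ≤ ‖p.2‖ ∧ (0 < p.1 ∧ xiH p.1 p.2 = 0 ∧ p.2.re ≠ 1 / 2) ∧ P p := by
  rw [heat_basis.frequently_iff]
  constructor
  · intro h R
    obtain ⟨p, h1, h2⟩ := h trivial (i := R)
    exact ⟨p, h1.1, h1.2, h2⟩
  · intro h R _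
    obtain ⟨p, h1, h2, h3⟩ := h R
    exact ⟨p, ⟨h1, h2⟩, h3⟩

lemma heat_eventually {P : ℝ × ℂ → Prop} : (∀ᶠ p in heatZeros, P p) ↔
    ∃ R : ℝ, ∀ p : ℝ × ℂ, R ≤ ‖p.2‖ → (0 < p.1 ∧ xiH p.1 p.2 = 0 ∧ p.2.re ≠ 1 / 2) → P p := by
  rw [heat_basis.eventually_iff]
  constructor
  · rintro ⟨R, -, h⟩
    exact ⟨R, fun p h1 h2 => h ⟨h1, h2⟩⟩
  · rintro ⟨R, h⟩
    exact ⟨R, trivial, fun p h1 => h p h1.1 h1.2⟩

/-- criterion for `β ≤ b` -/
lemma beta_le {b : ℝ} (h : ∀ R : ℝ, ∃ (h : ℝ) (s : ℂ), R ≤ ‖s‖ ∧ 0 < h ∧ h ≤ ‖s‖ ^ b ∧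
    xiH h s = 0 ∧ s.re ≠ 1 / 2) : beta ≤ (b : EReal) := by
  refine liminf_le_of_frequently_le' (heat_frequently.2 fun R => ?_)
  obtain ⟨hh, s, h1, h2, h3, h4, h5⟩ := h (max R 2)
  have hs2 : 2 ≤ ‖s‖ := (le_max_right _ _).trans h1
  refine ⟨(hh, s), (le_max_left _ _).trans h1, ⟨h2, h4, h5⟩, ?_⟩
  rw [heatExponent, EReal.coe_le_coe_iff]
  have hlog : 0 < Real.log ‖s‖ := Real.log_pos (by linarith)
  simp only
  rw [div_le_iff₀ hlog, ← Real.log_rpow (by linarith)]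
  exact Real.log_le_log h2 h3

/-- criterion for `a ≤ β` -/
lemma le_beta {a : ℝ} (h : ∃ R : ℝ, ∀ (h : ℝ) (s : ℂ), 0 < h → h ≤ ‖s‖ ^ a → R ≤ ‖s‖ →
    xiH h s = 0 → s.re = 1 / 2) : (a : EReal) ≤ beta := by
  obtain ⟨R, hR⟩ := h
  refine le_liminf_of_le (by isBoundedDefault) (heat_eventually.2 ⟨max R 2, ?_⟩)
  rintro ⟨hh, s⟩ h1 ⟨h2, h3, h4⟩
  simp only at h1 h2 h3 h4
  have hs2 : 2 ≤ ‖s‖ := (le_max_right _ _).trans h1
  rw [heatExponent, EReal.coe_le_coe_iff]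
  have hlog : 0 < Real.log ‖s‖ := Real.log_pos (by linarith)
  simp only
  rw [le_div_iff₀ hlog, ← Real.log_rpow (by linarith)]
  refine Real.log_le_log (Real.rpow_pos_of_pos (by linarith) _) ?_
  by_contra hcon
  exact h4 (hR hh s h2 (not_le.1 hcon).le ((le_max_left _ _).trans h1) h3)

variable {γ : ℕ → ℝ}

lemma alpha_le_beta (hγ : IsOrdinateSeq γ) : alpha γ ≤ beta := by
  rcases eq_or_ne (alpha γ) ⊥ with h | h
  · rw [h]; exact bot_le
  obtain ⟨T0, hT0⟩ := rh_of_alpha hγ h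
  by_contra hcon
  obtain ⟨a, h1, h2⟩ := EReal.lt_iff_exists_real_btwn.1 (not_le.1 hcon)
  exact absurd (le_beta (easy hγ hT0 h2)) (not_le.2 h1)

/-- infinitely many zeros off the line -/
lemma beta_of_off (h : ∀ T : ℝ, ∃ ρ, IsUpperZero ρ ∧ T < ρ.im ∧ ρ.re ≠ 1 / 2) (b : ℝ) :
    beta ≤ (b : EReal) := by
  refine beta_le fun R => ?_
  obtain ⟨ρ, h1, h2, h3⟩ := h (|R| + 2)
  have hR := le_abs_self R
  have hR0 := abs_nonneg R
  set r : ℝ := min 1 (|ρ.re - 1 / 2| / 2) with hr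
  have hr3 : 0 < |ρ.re - 1 / 2| := abs_pos.2 (sub_ne_zero.2 h3)
  have hr0 : 0 < r := by positivity
  have hxi : xi ρ = 0 := by rw [xi_eq_AA (Or.inl (by linarith)), h1.1, mul_zero]
  obtain ⟨h0, hh0, hz⟩ := hurwitz hxi hr0
  have him : ρ.im ≤ ‖ρ‖ := (le_abs_self _).trans (Complex.abs_im_le_norm ρ)
  -- h small
  set q : ℝ := min ((‖ρ‖ + 1) ^ b) ((‖ρ‖ - 1) ^ b) with hq
  have hq0 : 0 < q := lt_min (Real.rpow_pos_of_pos (by linarith) _)
    (Real.rpow_pos_of_pos (by linarith) _)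
  set hh := min (h0 / 2) q with hhh
  have hh1 : 0 < hh := by positivity
  obtain ⟨s, hs1, hs2⟩ := hz hh hh1 (lt_of_le_of_lt (min_le_left _ _) (by linarith))
  have hsr : ‖s - ρ‖ ≤ 1 := hs1.trans (min_le_left _ _)
  have hn := abs_le.1 ((abs_norm_sub_norm_le s ρ).trans hsr)
  refine ⟨hh, s, by linarith, hh1, (min_le_right _ _).trans ?_, hs2, ?_⟩
  · rcases le_total 0 b with hb | hb
    · exact (min_le_right _ _).trans (Real.rpow_le_rpow (by linarith) (by linarith) hb)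
    · exact (min_le_left _ _).trans (Real.rpow_le_rpow_of_nonpos (by linarith) (by linarith) hb)
  · intro hs3
    have h5 := (Complex.abs_re_le_norm (s - ρ)).trans hs1
    rw [Complex.sub_re, hs3, abs_sub_comm] at h5
    have h6 : r ≤ |ρ.re - 1 / 2| / 2 := min_le_right _ _
    linarith

/-- close zeros -/
lemma beta_of_pairs {T0 : ℝ} (hline : ∀ ρ, IsUpperZero ρ → T0 < ρ.im → ρ.re = 1 / 2) {b1 b : ℝ}
    (hb1 : b1 < b) (hb : b < 0)
    (h : ∀ R : ℝ, ∃ T ≥ R, riemannZeta (pt (1 / 2) T) = 0 ∧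
    ((∃ d, 0 < d ∧ d ≤ T ^ b1 ∧ riemannZeta (pt (1 / 2) (T + d)) = 0) ∨
      deriv riemannZeta (pt (1 / 2) T) = 0)) : beta ≤ (b : EReal) := by
  refine beta_le fun R => ?_
  set b2 : ℝ := (b1 + b) / 2 with hb2
  have o1 : b1 < b2 := by rw [hb2]; linarith
  have o2 : b2 < b := by rw [hb2]; linarith
  obtain ⟨R1, hR1⟩ := hard hline o1 (o2.trans hb)
  have hev : ∀ᶠ t : ℝ in atTop, t ^ b2 ≤ (2 * t) ^ b := by
    have h1 := (tendsto_rpow_atTop (sub_pos.2 o2)).eventually_ge_atTop (2 ^ (-b))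
    filter_upwards [h1, eventually_gt_atTop 0] with t h2 ht
    rw [Real.mul_rpow (by norm_num) ht.le]
    rw [Real.rpow_sub ht, le_div_iff₀ (Real.rpow_pos_of_pos ht _), Real.rpow_neg (by norm_num)]
      at h2
    have h3 : (0 : ℝ) < 2 ^ b := Real.rpow_pos_of_pos (by norm_num) _
    calc t ^ b2 = 2 ^ b * ((2 ^ b)⁻¹ * t ^ b2) := by field_simp
      _ ≤ 2 ^ b * t ^ b := by gcongr
  obtain ⟨R2, hR2⟩ := eventually_atTop.1 hev
  obtain ⟨T, hT, hz1, hz2⟩ := h (max (max R1 R2) (|R| + 3))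
  have t1 : R1 ≤ T := ((le_max_left _ _).trans (le_max_left _ _)).trans hT
  have t2 : R2 ≤ T := ((le_max_right _ _).trans (le_max_left _ _)).trans hT
  have t3 : |R| + 3 ≤ T := (le_max_right _ _).trans hT
  have hRabs := le_abs_self R
  have hR0 := abs_nonneg R
  obtain ⟨hh, s, k1, k2, k3, k4, k5, k6⟩ := hR1 T t1 hz1 hz2
  have k5' := abs_le.1 k5
  have n1 : s.im ≤ ‖s‖ := (le_abs_self _).trans (Complex.abs_im_le_norm s)
  have n2 : ‖s‖ ≤ 2 * T := by
    refine (Complex.norm_le_abs_re_add_abs_im s).trans ?_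
    rw [abs_of_nonneg (show 0 ≤ s.im by linarith)]
    linarith
  refine ⟨hh, s, by linarith, k1, ?_, k3, k4⟩
  exact k2.trans ((hR2 T t2).trans (Real.rpow_le_rpow_of_nonpos (by linarith) n2 hb.le))

lemma beta_le_alpha (hγ : IsOrdinateSeq γ) : min 0 beta ≤ alpha γ := by
  by_cases hoff : ∀ T : ℝ, ∃ ρ, IsUpperZero ρ ∧ T < ρ.im ∧ ρ.re ≠ 1 / 2
  · have h1 : beta = ⊥ := by
      rw [EReal.eq_bot_iff_forall_lt]
      intro y
      refine lt_of_le_of_lt (beta_of_off hoff (y - 1)) ?_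
      exact_mod_cast (by linarith : y - 1 < y)
    rw [h1]
    exact (min_le_right _ _).trans bot_le
  push Not at hoff
  obtain ⟨T0, hline⟩ := hoff
  by_contra hcon
  obtain ⟨b, h1, h2⟩ := EReal.lt_iff_exists_real_btwn.1 (not_le.1 hcon)
  have hb0 : b < 0 := by
    have : (b : EReal) < 0 := lt_of_lt_of_le h2 (min_le_left _ _)
    exact_mod_cast this
  have hbβ : (b : EReal) < beta := lt_of_lt_of_le h2 (min_le_right _ _)
  refine absurd ?_ (not_le.2 hbβ)
  by_cases hmult : ∀ T : ℝ, ∃ ρ, IsUpperZero ρ ∧ T < ρ.im ∧ deriv riemannZeta ρ = 0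
  · refine beta_of_pairs hline (b1 := b - 1) (by linarith) hb0 fun R => ?_
    obtain ⟨ρ, k1, k2, k3⟩ := hmult (max R T0)
    have k4 := hline ρ k1 ((le_max_right _ _).trans_lt k2)
    have e : ρ = pt (1 / 2) ρ.im := Complex.ext k4 rfl
    refine ⟨ρ.im, ((le_max_left _ _).trans_lt k2).le, ?_, Or.inr ?_⟩
    · rw [← e]; exact k1.1
    · rw [← e]; exact k3
  · push Not at hmult
    obtain ⟨T1, hsimple⟩ := hmult
    have hRH : RH (max T0 T1) := fun ρ k1 k2 =>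
      ⟨hline ρ k1 ((le_max_left _ _).trans_lt k2), hsimple ρ k1 ((le_max_right _ _).trans_lt k2)⟩
    obtain ⟨b1, h3, h4⟩ := EReal.lt_iff_exists_real_btwn.1 h1
    have h4' : b1 < b := by exact_mod_cast h4
    have hgap := gap_upper hγ hRH (h4'.trans hb0) h3
    refine beta_of_pairs hline h4' hb0 fun R => ?_
    have hev : ∀ᶠ n : ℕ in atTop, max R (max T0 T1) + 1 ≤ γ n :=
      (tendsto_gamma hγ).eventually_ge_atTop _
    obtain ⟨n, k1, k2⟩ := (hgap.and_eventually hev).exists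
    have m1 : R ≤ γ n := by linarith [le_max_left R (max T0 T1)]
    have m2 : max T0 T1 < γ n := by linarith [le_max_right R (max T0 T1)]
    have m3 := gap_pos hγ hRH m2
    refine ⟨γ n, m1, zeta_of_index hγ hRH m2, Or.inl ⟨γ (n + 1) - γ n, by linarith, k1, ?_⟩⟩
    rw [add_sub_cancel]
    exact zeta_of_index hγ hRH (m2.trans m3)

/-- the exponent of the gaps is the exponent of the heat flow -/
theorem alpha_eq (hγ : IsOrdinateSeq γ) : alpha γ = min 0 beta :=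
  le_antisymm (le_min (alpha_le_zero hγ) (alpha_le_beta hγ)) (beta_le_alpha hγ)

end Pool.Agent.HF
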