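import Mathlib

/-!
# MP_af3d17_nt, heat flow: elementary facts on the standard Gaussian
-/

set_option autoImplicit false

namespace Pool.Agent.HF

open MeasureTheory ProbabilityTheory Filter Topology

/-- the standard Gaussian measure -/
noncomputable abbrev gm : Measure ℝ := gaussianReal 0 1

/-- the basic majorant is integrable -/
lemma integrable_exp_sq : Integrable (fun x : ℝ => Real.exp (x ^ 2 / 4)) gm := by
  have hv : (1 : NNReal) ≠ 0 := one_ne_zero
  rw [gm, gaussianReal_of_var_ne_zero 0 hv,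
    integrable_withDensity_iff_integrable_smul' (measurable_gaussianPDF 0 1)
      (ae_of_all _ fun x => gaussianPDF_lt_top)]
  have h1 : Integrable (fun x : ℝ => (Real.sqrt (2 * Real.pi))⁻¹ *
      Real.exp (-(1 / 4) * x ^ 2)) := (integrable_exp_neg_mul_sq (by norm_num)).const_mul _
  refine h1.congr (ae_of_all _ fun x => ?_)
  simp only [toReal_gaussianPDF, gaussianPDFReal, smul_eq_mul, NNReal.coe_one, mul_one, sub_zero]
  rw [mul_assoc, ← Real.exp_add]
  congr 2
  ring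

/-- the integral of the basic majorant -/
noncomputable def KK : ℝ := ∫ x, Real.exp (x ^ 2 / 4) ∂gm

lemma one_le_KK : 1 ≤ KK := by
  have h : ∫ _x : ℝ, (1 : ℝ) ∂gm ≤ KK :=
    integral_mono (integrable_const _) integrable_exp_sq fun x => by
      simp only
      exact Real.one_le_exp (by positivity)
  simpa using h

lemma KK_pos : 0 < KK := lt_of_lt_of_le one_pos one_le_KK

lemma integrable_of_le {E : Type*} [NormedAddCommGroup E] {f : ℝ → E} (hf : Continuous f) {C : ℝ}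
    (h : ∀ x, ‖f x‖ ≤ C * Real.exp (x ^ 2 / 4)) : Integrable f gm :=
  Integrable.mono' (integrable_exp_sq.const_mul C) hf.aestronglyMeasurable
    (ae_of_all _ h)

lemma norm_integral_le {E : Type*} [NormedAddCommGroup E] [NormedSpace ℝ E] {f : ℝ → E} {C : ℝ}
    (h : ∀ x, ‖f x‖ ≤ C * Real.exp (x ^ 2 / 4)) : ‖∫ x, f x ∂gm‖ ≤ C * KK := by
  refine (norm_integral_le_of_norm_le (integrable_exp_sq.const_mul C) (ae_of_all _ h)).trans ?_
  rw [integral_const_mul, KK]

lemma exp_lin_le (κ x : ℝ) : Real.exp (κ * |x|) ≤ Real.exp (2 * κ ^ 2) * Real.exp (x ^ 2 / 8) := by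
  rw [← Real.exp_add, Real.exp_le_exp]
  have h1 : x ^ 2 = |x| ^ 2 := (sq_abs x).symm
  nlinarith [sq_nonneg (|x| - 4 * κ)]

lemma abs_le_exp (x : ℝ) : |x| ≤ 4 * Real.exp (x ^ 2 / 8) := by
  have h1 := Real.add_one_le_exp (x ^ 2 / 8)
  have h2 : x ^ 2 = |x| ^ 2 := (sq_abs x).symm
  nlinarith [sq_nonneg (|x| - 2)]

lemma sq_le_exp (x : ℝ) : x ^ 2 ≤ 8 * Real.exp (x ^ 2 / 8) := by
  have h1 := Real.add_one_le_exp (x ^ 2 / 8)
  linarith

lemma cube_le_exp (x : ℝ) : |x| ^ 3 ≤ 68 * Real.exp (x ^ 2 / 8) := by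
  have h0 : 0 ≤ x ^ 2 / 8 := by positivity
  have h1 := Real.quadratic_le_exp_of_nonneg h0
  have h3 := Real.add_one_le_exp (x ^ 2 / 8)
  have h2 : x ^ 2 = |x| ^ 2 := (sq_abs x).symm
  have h4 : |x| ^ 3 ≤ (|x| ^ 2 + |x| ^ 4) / 2 := by nlinarith [mul_nonneg (sq_nonneg |x|) (sq_nonneg (|x| - 1))]
  have h5 : |x| ^ 4 = (x ^ 2) ^ 2 := by rw [h2]; ring
  rw [← h2, h5] at h4
  nlinarith [sq_nonneg (x ^ 2)]

lemma exp_quarter (x : ℝ) : Real.exp (x ^ 2 / 8) * Real.exp (x ^ 2 / 8) = Real.exp (x ^ 2 / 4) := by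
  rw [← Real.exp_add]
  congr 1
  ring

/-- main comparison lemma -/
lemma compare {f p : ℝ → ℂ} (hf : Continuous f) (hp : Continuous p) {κ B h A D : ℝ}
    (hB : 0 ≤ B) (hh : 0 < h)
    (h1 : ∀ x, |h * x| ≤ 1 → ‖f x - p x‖ ≤ Real.exp (κ * |x|) * (Real.exp (B * h * |x|) - 1))
    (h2 : ∀ x, 1 < |h * x| → ‖f x‖ ≤ Real.exp (A + D * (h * x) ^ 2)) (hD : D * h ^ 2 ≤ 1 / 16)
    (h3 : ∀ x, ‖p x‖ ≤ Real.exp (κ * |x|)) (hBh : B * h ≤ 1) :
    Integrable f gm ∧ Integrable p gm ∧ ‖∫ x, f x ∂gm - ∫ x, p x ∂gm‖ ≤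
      KK * (4 * (B * h) * Real.exp (2 * (κ + 1) ^ 2) + Real.exp (A - 1 / (16 * h ^ 2))
        + Real.exp (2 * κ ^ 2 - 1 / (8 * h ^ 2))) := by
  have hmono : ∀ x : ℝ, Real.exp (x ^ 2 / 8) ≤ Real.exp (x ^ 2 / 4) := fun x => by
    rw [Real.exp_le_exp]; nlinarith [sq_nonneg x]
  have hBh0 : 0 ≤ B * h := by positivity
  have hpi : ∀ x, ‖p x‖ ≤ Real.exp (2 * κ ^ 2) * Real.exp (x ^ 2 / 4) := fun x =>
    (h3 x).trans ((exp_lin_le κ x).trans
      (mul_le_mul_of_nonneg_left (hmono x) (Real.exp_pos _).le))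
  have hp' : Integrable p gm := integrable_of_le hp hpi
  have hd : ∀ x, ‖f x - p x‖ ≤ (4 * (B * h) * Real.exp (2 * (κ + 1) ^ 2) +
      Real.exp (A - 1 / (16 * h ^ 2)) + Real.exp (2 * κ ^ 2 - 1 / (8 * h ^ 2))) *
      Real.exp (x ^ 2 / 4) := by
    intro x
    rcases le_or_gt |h * x| 1 with hx | hx
    · have e1 : Real.exp (B * h * |x|) - 1 ≤ B * h * |x| * Real.exp |x| := by
        have e2 : Real.exp (B * h * |x|) - 1 ≤ B * h * |x| * Real.exp (B * h * |x|) := by
          have := Real.add_one_le_exp (-(B * h * |x|))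
          have e3 : Real.exp (-(B * h * |x|)) * Real.exp (B * h * |x|) = 1 := by
            rw [← Real.exp_add]; simp
          nlinarith [Real.exp_pos (B * h * |x|)]
        refine e2.trans ?_
        gcongr
        calc B * h * |x| ≤ 1 * |x| := by gcongr
          _ = |x| := one_mul _
      have e4 : Real.exp (κ * |x|) * (B * h * |x| * Real.exp |x|) =
          B * h * (|x| * Real.exp ((κ + 1) * |x|)) := by
        rw [add_mul, Real.exp_add, one_mul]; ring
      have e5 : |x| * Real.exp ((κ + 1) * |x|) ≤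
          4 * Real.exp (2 * (κ + 1) ^ 2) * Real.exp (x ^ 2 / 4) := by
        calc |x| * Real.exp ((κ + 1) * |x|) ≤ (4 * Real.exp (x ^ 2 / 8)) *
              (Real.exp (2 * (κ + 1) ^ 2) * Real.exp (x ^ 2 / 8)) := by
              gcongr
              · exact abs_le_exp x
              · exact exp_lin_le (κ + 1) x
          _ = _ := by rw [← exp_quarter]; ring
      calc ‖f x - p x‖ ≤ Real.exp (κ * |x|) * (Real.exp (B * h * |x|) - 1) := h1 x hx
        _ ≤ Real.exp (κ * |x|) * (B * h * |x| * Real.exp |x|) := by gcongr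
        _ = B * h * (|x| * Real.exp ((κ + 1) * |x|)) := e4
        _ ≤ B * h * (4 * Real.exp (2 * (κ + 1) ^ 2) * Real.exp (x ^ 2 / 4)) := by gcongr
        _ = (4 * (B * h) * Real.exp (2 * (κ + 1) ^ 2) + 0 + 0) * Real.exp (x ^ 2 / 4) := by ring
        _ ≤ _ := by gcongr <;> positivity
    · have hx2 : 1 ≤ h ^ 2 * x ^ 2 := by
        have : 1 ≤ |h * x| ^ 2 := by nlinarith
        rw [sq_abs] at this
        nlinarith
      have hx3 : 1 / h ^ 2 ≤ x ^ 2 := by
        rw [div_le_iff₀ (by positivity)]; linarith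
      have e1 : Real.exp (A + D * (h * x) ^ 2) ≤
          Real.exp (A - 1 / (16 * h ^ 2)) * Real.exp (x ^ 2 / 4) := by
        rw [← Real.exp_add, Real.exp_le_exp]
        have e2 : D * (h * x) ^ 2 ≤ x ^ 2 / 16 := by
          calc D * (h * x) ^ 2 = (D * h ^ 2) * x ^ 2 := by ring
            _ ≤ 1 / 16 * x ^ 2 := by gcongr
            _ = _ := by ring
        have e3 : 1 / (16 * h ^ 2) = 1 / h ^ 2 / 16 := by rw [div_div, mul_comm]
        rw [e3]
        nlinarith
      have e2 : Real.exp (κ * |x|) ≤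
          Real.exp (2 * κ ^ 2 - 1 / (8 * h ^ 2)) * Real.exp (x ^ 2 / 4) := by
        refine (exp_lin_le κ x).trans ?_
        rw [← Real.exp_add, ← Real.exp_add, Real.exp_le_exp]
        have e3 : 1 / (8 * h ^ 2) = 1 / h ^ 2 / 8 := by rw [div_div, mul_comm]
        rw [e3]
        nlinarith
      calc ‖f x - p x‖ ≤ ‖f x‖ + ‖p x‖ := norm_sub_le _ _
        _ ≤ Real.exp (A - 1 / (16 * h ^ 2)) * Real.exp (x ^ 2 / 4) +
            Real.exp (2 * κ ^ 2 - 1 / (8 * h ^ 2)) * Real.exp (x ^ 2 / 4) :=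
            add_le_add ((h2 x hx).trans e1) ((h3 x).trans e2)
        _ = (0 + Real.exp (A - 1 / (16 * h ^ 2)) + Real.exp (2 * κ ^ 2 - 1 / (8 * h ^ 2))) *
            Real.exp (x ^ 2 / 4) := by ring
        _ ≤ _ := by gcongr; positivity
  have hdi : Integrable (fun x => f x - p x) gm := integrable_of_le (hf.sub hp) hd
  have hf' : Integrable f gm := by
    have := hdi.add hp'
    refine this.congr (ae_of_all _ fun x => ?_)
    simp
  refine ⟨hf', hp', ?_⟩
  rw [← integral_sub hf' hp', mul_comm KK]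
  exact norm_integral_le hd

/-- `E exp (cX) = exp (c²/2)` -/
lemma integral_cexp (c : ℂ) : ∫ x : ℝ, Complex.exp ((x : ℂ) * c) ∂gm = Complex.exp (c ^ 2 / 2) := by
  have h := complexMGF_id_gaussianReal (μ := 0) (v := 1) c
  rw [complexMGF] at h
  simp only [id_eq, Complex.ofReal_zero, mul_zero, NNReal.coe_one, Complex.ofReal_one,
    one_mul, zero_add] at h
  rw [← h]
  congr 1
  funext x
  rw [mul_comm]

lemma integral_poly (a b : ℂ) :
    ∫ x : ℝ, (1 + (x : ℂ) * a + (x : ℂ) ^ 2 * b) ∂gm = 1 + b := by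
  have i1 : Integrable (fun x : ℝ => x) gm := by
    have := memLp_id_gaussianReal (μ := 0) (v := 1) 1
    exact memLp_one_iff_integrable.1 this
  have i2 : Integrable (fun x : ℝ => x ^ 2) gm := by
    have := (memLp_id_gaussianReal (μ := 0) (v := 1) 2).integrable_sq
    simpa using this
  have m1 : ∫ x : ℝ, x ∂gm = 0 := integral_id_gaussianReal
  have m2 : ∫ x : ℝ, x ^ 2 ∂gm = 1 := by
    have h := variance_fun_id_gaussianReal (μ := 0) (v := 1)
    rw [variance_eq_integral (by fun_prop)] at h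
    simp only [m1, sub_zero, NNReal.coe_one] at h
    exact h
  have j1 : Integrable (fun x : ℝ => (x : ℂ) * a) gm := i1.ofReal.mul_const a
  have j2 : Integrable (fun x : ℝ => (x : ℂ) ^ 2 * b) gm := by
    have : Integrable (fun x : ℝ => ((x ^ 2 : ℝ) : ℂ) * b) gm := i2.ofReal.mul_const b
    simpa using this
  have j3 : Integrable (fun x : ℝ => 1 + (x : ℂ) * a) gm := (integrable_const _).add j1
  have s1 : ∫ x : ℝ, (1 + (x : ℂ) * a + (x : ℂ) ^ 2 * b) ∂gm =
      ∫ x : ℝ, (1 + (x : ℂ) * a) ∂gm + ∫ x : ℝ, (x : ℂ) ^ 2 * b ∂gm := integral_add j3 j2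
  have s2 : ∫ x : ℝ, (1 + (x : ℂ) * a) ∂gm = ∫ _x : ℝ, (1 : ℂ) ∂gm + ∫ x : ℝ, (x : ℂ) * a ∂gm :=
    integral_add (integrable_const _) j1
  rw [s1, s2, integral_mul_const, integral_mul_const]
  have e1 : ∫ x : ℝ, (x : ℂ) ∂gm = 0 := by
    have := integral_complex_ofReal (f := fun x : ℝ => x) (μ := gm)
    rw [this, m1]; simp
  have e2 : ∫ x : ℝ, (x : ℂ) ^ 2 ∂gm = 1 := by
    have : (fun x : ℝ => (x : ℂ) ^ 2) = fun x : ℝ => ((x ^ 2 : ℝ) : ℂ) := by
      funext x; push_cast; rfl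
    have h2 := integral_complex_ofReal (f := fun x : ℝ => x ^ 2) (μ := gm)
    rw [this, h2, m2]; simp
  rw [e1, e2]
  simp

/-- symmetry -/
lemma integral_neg_gm {E : Type*} [NormedAddCommGroup E] [NormedSpace ℝ E] (f : ℝ → E) :
    ∫ x, f (-x) ∂gm = ∫ x, f x ∂gm := by
  have h : gm.map (fun x => -x) = gm := by
    rw [gaussianReal_map_neg, neg_zero]
  conv_rhs => rw [← h]
  exact (integral_map_equiv (MeasurableEquiv.neg ℝ) f).symm

end Pool.Agent.HF
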