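import Pool.Agent.Lib.MP_af3d17_nt_h54.Easy
import Pool.Agent.Lib.MP_af3d17_nt_h54.Core2

/-!
# MP_af3d17_nt, heat flow: close zeros leave the line
-/

set_option autoImplicit false

namespace Pool.Agent.HF

open MeasureTheory ProbabilityTheory Filter Topology Metric
open Pool.Agent.ZP

/-- comparison of the nonvanishing factors -/
lemma H_seg {C : ℝ} (hC : 0 < C) : ∃ C' : ℝ, 0 < C' ∧ ∀ t : ℝ, 100 ≤ t →
    ∀ (k : ℕ) (z : Fin k → ℂ) (g : ℂ → ℂ), Loc C t z g →
    ∀ a ∈ closedBall (pt 10 t) (96 / 10), ∀ b ∈ closedBall (pt 10 t) (96 / 10),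
    ‖AA b * g b‖ ≤ ‖AA a * g a‖ * Real.exp (C' * Real.log t * ‖b - a‖) := by
  obtain ⟨Ca, hCa, haa⟩ := aa_strip
  refine ⟨2 * Ca + C, by positivity, ?_⟩
  intro t ht k z g hL a ha b hb
  have hlog := one_le_log ht
  set L := Real.log t with hLdef
  have h67 : closedBall (pt 10 t) (96 / 10) ⊆ closedBall (pt 10 t) (97 / 10) :=
    closedBall_subset_closedBall (by norm_num)
  have h68 : closedBall (pt 10 t) (96 / 10) ⊆ closedBall (pt 10 t) (98 / 10) :=
    closedBall_subset_closedBall (by norm_num)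
  refine (seg_bound (g := fun w => AA w * g w) (B := (2 * Ca + C) * L) (by positivity)
    (fun v hv => ?_)).1
  have hv' : v ∈ closedBall (pt 10 t) (96 / 10) :=
    (convex_closedBall _ _).segment_subset ha hb hv
  obtain ⟨m1, m2, m3, m4⟩ := mem_disc hv'
  have n1 : v ∈ Reg := Or.inl (by linarith)
  have d1 := hasDerivAt_AA n1
  have d2 := ((hL.hg v (h68 hv')).differentiableAt).hasDerivAt
  have d3 := d1.fun_mul d2
  refine ⟨d3.differentiableAt, ?_⟩
  rw [d3.deriv]
  have h8 := hL.hne v (h67 hv')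
  have h9 : deriv g v = logDeriv g v * g v := by
    rw [logDeriv_apply, div_mul_cancel₀ _ h8]
  have e : AA v * aa v * g v + AA v * deriv g v =
      (aa v + logDeriv g v) * (AA v * g v) := by rw [h9]; ring
  rw [e, norm_mul]
  gcongr
  refine (norm_add_le _ _).trans ?_
  have q1 := haa v (by rw [abs_le]; constructor <;> linarith) (by linarith)
  have q2 := hL.hld v hv'
  have q3 : Real.log v.im ≤ 2 * L := by
    have : Real.log v.im ≤ Real.log (t ^ 2) := by
      refine Real.log_le_log (by linarith) ?_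
      nlinarith
    rwa [Real.log_pow, Nat.cast_ofNat] at this
  have q4 : Ca * Real.log v.im ≤ Ca * (2 * L) := by gcongr
  have e2 : (2 * Ca + C) * L = Ca * (2 * L) + C * L := by ring
  rw [e2]
  linarith

/-- convexity in the logarithmic scale -/
lemma three_prod_ge {k : ℕ} (x : Fin k → ℝ) {ρ : ℝ} (hρ : 0 < ρ) :
    (∏ i, ‖((2 * ρ : ℝ) : ℂ) - x i * Complex.I‖) ^ 2 ≤
    (∏ i, ‖(ρ : ℂ) - x i * Complex.I‖) * (∏ i, ‖((4 * ρ : ℝ) : ℂ) - x i * Complex.I‖) := by
  rw [← Finset.prod_mul_distrib, ← Finset.prod_pow]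
  refine Finset.prod_le_prod (fun i _ => by positivity) fun i _ => ?_
  rw [norm_den, norm_den, norm_den, Real.sq_sqrt (by positivity), ← Real.sqrt_mul (by positivity)]
  refine Real.le_sqrt_of_sq_le ?_
  have : 0 ≤ x i ^ 2 * ρ ^ 2 := by positivity
  nlinarith

/-- two zero factors from a close pair or a multiple zero -/
lemma two_idx {C T δ : ℝ} {k : ℕ} {z : Fin k → ℂ} {g : ℂ → ℂ} (hL : Loc C T z g)
    (hδ0 : 0 ≤ δ) (hδ : δ ≤ 1) (h1 : riemannZeta (pt (1 / 2) T) = 0)
    (h2 : (∃ d, 0 < d ∧ d ≤ δ ∧ riemannZeta (pt (1 / 2) (T + d)) = 0) ∨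
      deriv riemannZeta (pt (1 / 2) T) = 0) :
    ∃ i j, i ≠ j ∧ ‖z i - pt (1 / 2) T‖ ≤ δ ∧ ‖z j - pt (1 / 2) T‖ ≤ δ := by
  have hmem : ∀ d : ℝ, 0 ≤ d → d ≤ 1 → pt (1 / 2) (T + d) ∈ closedBall (pt 10 T) (96 / 10) :=
    fun d hd0 hd => pt_mem_disc (by norm_num) (by nlinarith)
  have h67 : closedBall (pt 10 T) (96 / 10) ⊆ closedBall (pt 10 T) (97 / 10) :=
    closedBall_subset_closedBall (by norm_num)
  have h68 : closedBall (pt 10 T) (96 / 10) ⊆ closedBall (pt 10 T) (98 / 10) :=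
    closedBall_subset_closedBall (by norm_num)
  have hidx : ∀ d : ℝ, 0 ≤ d → d ≤ 1 → riemannZeta (pt (1 / 2) (T + d)) = 0 →
      ∃ i, z i = pt (1 / 2) (T + d) := by
    intro d hd0 hd hz
    rw [hL.hf _ (h68 (hmem d hd0 hd))] at hz
    rcases mul_eq_zero.1 hz with h | h
    · obtain ⟨i, -, hi⟩ := Finset.prod_eq_zero_iff.1 h
      exact ⟨i, (sub_eq_zero.1 hi).symm⟩
    · exact absurd h (hL.hne _ (h67 (hmem d hd0 hd)))
  have hT0 : pt (1 / 2) (T + 0) = pt (1 / 2) T := by rw [add_zero]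
  obtain ⟨i, hi⟩ := hidx 0 le_rfl zero_le_one (by rw [hT0]; exact h1)
  rw [hT0] at hi
  rcases h2 with ⟨d, hd0, hd, hz⟩ | hz
  · obtain ⟨j, hj⟩ := hidx d hd0.le (hd.trans hδ) hz
    have e1 : z j - pt (1 / 2) T = (d : ℂ) * Complex.I := by
      rw [hj]
      apply Complex.ext <;> simp
    refine ⟨i, j, ?_, ?_, ?_⟩
    · rintro rfl
      rw [hi] at hj
      have := congrArg Complex.im hj
      simp at this
      linarith
    · rw [hi, sub_self, norm_zero]; exact hδ0
    · rw [e1, norm_mul, Complex.norm_I, mul_one, Complex.norm_real, Real.norm_eq_abs,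
        abs_of_pos hd0]
      exact hd
  · by_contra hcon
    push Not at hcon
    have hne : ∀ j, j ≠ i → pt (1 / 2) T - z j ≠ 0 := by
      intro j hji h0
      have := hcon i j hji.symm (by rw [hi, sub_self, norm_zero]; exact hδ0)
      rw [← neg_sub, h0, neg_zero, norm_zero] at this
      linarith
    have hmem0 : pt (1 / 2) T ∈ closedBall (pt 10 T) (96 / 10) := by
      rw [← hT0]; exact hmem 0 le_rfl zero_le_one
    set q : ℂ → ℂ := fun s => (∏ j ∈ Finset.univ.erase i, (s - z j)) * g s with hq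
    have hqd : DifferentiableAt ℂ q (pt (1 / 2) T) := by
      refine DifferentiableAt.mul ?_ (hL.hg _ (h68 hmem0)).differentiableAt
      fun_prop
    have hq0 : q (pt (1 / 2) T) ≠ 0 := by
      refine mul_ne_zero (Finset.prod_ne_zero_iff.2 fun j hj => ?_) (hL.hne _ (h67 hmem0))
      exact hne j (Finset.ne_of_mem_erase hj)
    have hEq : riemannZeta =ᶠ[𝓝 (pt (1 / 2) T)] fun s => (s - z i) * q s := by
      have hint : ball (pt 10 T) (98 / 10) ∈ 𝓝 (pt (1 / 2) T) := by
        refine isOpen_ball.mem_nhds ?_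
        rw [mem_ball]
        rw [mem_closedBall] at hmem0
        linarith
      filter_upwards [hint] with s hs
      rw [hL.hf s (ball_subset_closedBall hs), hq]
      simp only
      rw [← mul_assoc, Finset.mul_prod_erase Finset.univ (fun j => s - z j) (Finset.mem_univ i)]
    have hd : HasDerivAt (fun s => (s - z i) * q s)
        (1 * q (pt (1 / 2) T) + (pt (1 / 2) T - z i) * deriv q (pt (1 / 2) T))
        (pt (1 / 2) T) :=
      ((hasDerivAt_id _).sub_const _).mul hqd.hasDerivAt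
    rw [hEq.deriv_eq, hd.deriv, hi, sub_self, zero_mul, add_zero, one_mul] at hz
    exact hq0 hz

/-- growth of the average -/
lemma xiH_growth : ∃ C T1 : ℝ, 0 < C ∧ 100 ≤ T1 ∧ ∀ t ≥ T1, ∀ σ : ℝ, 1 / 10 ≤ σ → σ ≤ 20 →
    ∀ h : ℝ, 0 < h → C * Real.log t * h ≤ 1 →
    ‖xiH h (pt σ t)‖ ≤ ‖AA (pt σ t)‖ * Real.exp (C * Real.log t) := by
  obtain ⟨C, T1, hC, hT1, hgr⟩ := growth
  have hKK := KK_pos
  have hKK1 := one_le_KK
  have hlogK : 0 ≤ Real.log KK := Real.log_nonneg hKK1
  refine ⟨C + 2 + Real.log KK, T1, by positivity, hT1, fun t ht σ h1 h2 h hh hCh => ?_⟩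
  have hlog := one_le_log (hT1.trans ht)
  set L := Real.log t with hL
  have hCh' : C * L * h ≤ 1 := by
    refine le_trans ?_ hCh
    gcongr
    linarith
  have hint : ‖xiH h (pt σ t)‖ ≤ (‖AA (pt σ t)‖ * Real.exp (C * L) * Real.exp 2) * KK := by
    refine norm_integral_le fun x => ?_
    have e : pt σ t + h * x * Complex.I = pt σ (t + h * x) := by
      apply Complex.ext
      · rw [shift_re, pt_re, pt_re]
      · rw [shift_im, pt_im, pt_im]
    rw [e]
    refine (hgr t ht σ h1 h2 (h * x)).trans ?_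
    have h3 : Real.exp (C * L * (1 + |h * x|)) ≤
        Real.exp (C * L) * (Real.exp 2 * Real.exp (x ^ 2 / 4)) := by
      rw [mul_add, mul_one, Real.exp_add]
      gcongr
      have h4 : C * L * |h * x| ≤ 1 * |x| := by
        rw [abs_mul, abs_of_pos hh]
        calc C * L * (h * |x|) = (C * L * h) * |x| := by ring
          _ ≤ 1 * |x| := by gcongr
      have h5 := exp_lin_le 1 x
      have h6 : Real.exp (x ^ 2 / 8) ≤ Real.exp (x ^ 2 / 4) := by
        rw [Real.exp_le_exp]; nlinarith [sq_nonneg x]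
      calc Real.exp (C * L * |h * x|) ≤ Real.exp (1 * |x|) := Real.exp_le_exp.2 h4
        _ ≤ Real.exp (2 * 1 ^ 2) * Real.exp (x ^ 2 / 8) := h5
        _ ≤ Real.exp 2 * Real.exp (x ^ 2 / 4) := by
            rw [one_pow, mul_one]; gcongr
    calc ‖AA (pt σ t)‖ * Real.exp (C * L * (1 + |h * x|))
        ≤ ‖AA (pt σ t)‖ * (Real.exp (C * L) * (Real.exp 2 * Real.exp (x ^ 2 / 4))) := by gcongr
      _ = _ := by ring
  refine hint.trans ?_
  have e : KK = Real.exp (Real.log KK) := (Real.exp_log hKK).symm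
  calc (‖AA (pt σ t)‖ * Real.exp (C * L) * Real.exp 2) * KK
      = ‖AA (pt σ t)‖ * Real.exp (C * L + 2 + Real.log KK) := by
        rw [Real.exp_add, Real.exp_add, Real.exp_log hKK]; ring
    _ ≤ _ := by
        gcongr
        have : Real.log KK * 1 ≤ Real.log KK * L := by gcongr
        nlinarith

end Pool.Agent.HF
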