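import Pool.Agent.Lib.MP_af3d17_nt_h54.Hard

/-!
# MP_af3d17_nt, heat flow: zeros on the line force convexity
-/

set_option autoImplicit false

namespace Pool.Agent.HF

open MeasureTheory ProbabilityTheory Filter Topology Metric
open Pool.Agent.ZP

lemma pt_sub (y T v : ℝ) : pt (1 / 2 + y) T - pt (1 / 2) (T + v) = (y : ℂ) - v * Complex.I := by
  apply Complex.ext <;> simp

/-- if all zeros near `1/2 + iT` are on the line -/
lemma conv_line : ∃ C0 : ℝ, 0 < C0 ∧ ∀ (F : ℂ → ℂ) (T D m : ℝ), Differentiable ℂ F → 1 ≤ D →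
    0 < m → (∀ w ∈ closedBall (pt (11 / 20) T) (8 / 100), ‖F w‖ ≤ Real.exp D * m) →
    Real.exp (-D) * m ≤ ‖F (pt (11 / 20) T)‖ →
    (∀ w ∈ closedBall (pt (11 / 20) T) (7 / 100), F w = 0 → w.re = 1 / 2) →
    ∀ ρ : ℝ, 0 < ρ → 4 * ρ ≤ 1 / 10 →
    ‖F (pt (1 / 2 + 2 * ρ) T)‖ ^ 2 ≤
      ‖F (pt (1 / 2 + ρ) T)‖ * ‖F (pt (1 / 2 + 4 * ρ) T)‖ * Real.exp (C0 * D * ρ) := by
  obtain ⟨C, hC, hfac⟩ := local_factor (r := 6 / 100) (r' := 7 / 100) (R := 8 / 100)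
    (by norm_num) (by norm_num) (by norm_num)
  refine ⟨3 * C, by positivity, ?_⟩
  intro F T D m hF hD hm hup hlow hline ρ hρ hρ1
  set c := pt (11 / 20) T with hc
  set f : ℂ → ℂ := fun s => F s / m with hf
  have hm' : (m : ℂ) ≠ 0 := by exact_mod_cast hm.ne'
  have hnf : ∀ s, ‖f s‖ = ‖F s‖ / m := fun s => by
    rw [hf]; simp only
    rw [norm_div, Complex.norm_real, Real.norm_eq_abs, abs_of_pos hm]
  obtain ⟨k, z, g, -, h2, h3, h4, h5, h6, -⟩ := hfac f c (Real.exp D) (Real.exp_le_exp.2 hD)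
    (fun s _ => (hF.div_const _).analyticAt s)
    (fun s hs => by rw [hnf, div_le_iff₀ hm]; exact hup s hs)
    (by rw [hnf, one_div, ← Real.exp_neg, le_div_iff₀ hm]; exact hlow)
  rw [Real.log_exp] at h6
  set v : Fin k → ℝ := fun i => (z i).im - T with hv
  have hz : ∀ i, z i = pt (1 / 2) (T + v i) := by
    intro i
    apply Complex.ext
    · rw [pt_re]
      refine hline _ (h2 i).1 ?_
      have := (h2 i).2
      rw [hf] at this
      simp only at this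
      rcases div_eq_zero_iff.1 this with h | h
      · exact h
      · exact absurd h hm'
    · rw [pt_im, hv]; ring
  have hmem : ∀ y : ℝ, 0 < y → y ≤ 1 / 10 →
      pt (1 / 2 + y) T ∈ closedBall c (6 / 100) := by
    intro y h0 h1
    rw [mem_closedBall, dist_eq_norm]
    have e : pt (1 / 2 + y) T - c = ((y - 1 / 20 : ℝ) : ℂ) := by
      apply Complex.ext
      · rw [hc]; simp; ring
      · rw [hc]; simp
    rw [e, Complex.norm_real, Real.norm_eq_abs, abs_le]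
    constructor <;> linarith
  have hval : ∀ y : ℝ, 0 < y → y ≤ 1 / 10 → ‖F (pt (1 / 2 + y) T)‖ =
      m * ((∏ i, ‖(y : ℂ) - v i * Complex.I‖) * ‖g (pt (1 / 2 + y) T)‖) := by
    intro y h0 h1
    have e1 := h4 _ (closedBall_subset_closedBall (by norm_num) (hmem y h0 h1))
    have e2 : ‖F (pt (1 / 2 + y) T)‖ = m * ‖f (pt (1 / 2 + y) T)‖ := by
      rw [hnf]; field_simp
    rw [e2, e1, norm_mul, norm_prod]
    congr 2
    refine Finset.prod_congr rfl fun i _ => ?_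
    rw [hz i, pt_sub]
  have hseg : ∀ a b : ℝ, 0 < a → a ≤ 1 / 10 → 0 < b → b ≤ 1 / 10 →
      ‖g (pt (1 / 2 + b) T)‖ ≤ ‖g (pt (1 / 2 + a) T)‖ * Real.exp (C * D * |b - a|) := by
    intro a b ha0 ha1 hb0 hb1
    have k1 := (seg_bound (g := g) (a := pt (1 / 2 + a) T) (b := pt (1 / 2 + b) T) (B := C * D)
      (by positivity) fun w hw => by
        have hw' : w ∈ closedBall c (6 / 100) :=
          (convex_closedBall _ _).segment_subset (hmem a ha0 ha1) (hmem b hb0 hb1) hw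
        refine ⟨(h3 w (closedBall_subset_closedBall (by norm_num) hw')).differentiableAt, ?_⟩
        have h7 := h6 w hw'
        have h8 := h5 w (closedBall_subset_closedBall (by norm_num) hw')
        have h9 : deriv g w = logDeriv g w * g w := by
          rw [logDeriv_apply, div_mul_cancel₀ _ h8]
        rw [h9, norm_mul]
        gcongr).1
    have e : ‖pt (1 / 2 + b) T - pt (1 / 2 + a) T‖ = |b - a| := by
      have : pt (1 / 2 + b) T - pt (1 / 2 + a) T = ((b - a : ℝ) : ℂ) := by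
        apply Complex.ext <;> simp
      rw [this, Complex.norm_real, Real.norm_eq_abs]
    rwa [e] at k1
  have g1 := hseg ρ (2 * ρ) hρ (by linarith) (by linarith) (by linarith)
  have g2 := hseg (4 * ρ) (2 * ρ) (by linarith) (by linarith) (by linarith) (by linarith)
  rw [show |2 * ρ - ρ| = ρ by rw [abs_of_pos (by linarith)]; ring] at g1
  rw [show |2 * ρ - 4 * ρ| = 2 * ρ by rw [abs_of_neg (by linarith)]; ring] at g2
  have g3 : ‖g (pt (1 / 2 + 2 * ρ) T)‖ ^ 2 ≤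
      ‖g (pt (1 / 2 + ρ) T)‖ * ‖g (pt (1 / 2 + 4 * ρ) T)‖ * Real.exp (3 * C * D * ρ) := by
    calc ‖g (pt (1 / 2 + 2 * ρ) T)‖ ^ 2 = ‖g (pt (1 / 2 + 2 * ρ) T)‖ *
          ‖g (pt (1 / 2 + 2 * ρ) T)‖ := sq _
      _ ≤ (‖g (pt (1 / 2 + ρ) T)‖ * Real.exp (C * D * ρ)) *
          (‖g (pt (1 / 2 + 4 * ρ) T)‖ * Real.exp (C * D * (2 * ρ))) := by gcongr
      _ = ‖g (pt (1 / 2 + ρ) T)‖ * ‖g (pt (1 / 2 + 4 * ρ) T)‖ *
          (Real.exp (C * D * ρ) * Real.exp (C * D * (2 * ρ))) := by ring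
      _ = _ := by rw [← Real.exp_add]; congr 2; ring
  have p1 := three_prod_ge v hρ
  rw [hval (2 * ρ) (by linarith) (by linarith), hval ρ hρ (by linarith),
    hval (4 * ρ) (by linarith) (by linarith), mul_pow, mul_pow]
  set P2 := ∏ i, ‖((2 * ρ : ℝ) : ℂ) - v i * Complex.I‖
  set P1 := ∏ i, ‖(ρ : ℂ) - v i * Complex.I‖
  set P4 := ∏ i, ‖((4 * ρ : ℝ) : ℂ) - v i * Complex.I‖
  have hP1 : 0 ≤ P1 := Finset.prod_nonneg fun i _ => norm_nonneg _
  have hP4 : 0 ≤ P4 := Finset.prod_nonneg fun i _ => norm_nonneg _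
  calc m ^ 2 * (P2 ^ 2 * ‖g (pt (1 / 2 + 2 * ρ) T)‖ ^ 2)
      ≤ m ^ 2 * ((P1 * P4) * (‖g (pt (1 / 2 + ρ) T)‖ * ‖g (pt (1 / 2 + 4 * ρ) T)‖ *
        Real.exp (3 * C * D * ρ))) := by gcongr
    _ = _ := by ring

/-- the final contradiction, real numbers only -/
lemma final_arith {K K2 η0 η1 ε R1 R2 R4 e1 e2 e4 q : ℝ} (hK : 0 ≤ K) (hK2 : 0 ≤ K2)
    (hη1 : 0 < η1) (hη1' : η1 ≤ 1) (hη : 2 * η1 * K2 + K * η1 * (2 * K2 + 1) ≤ η0 / 4)
    (hε : 0 ≤ ε) (hε1 : ε ≤ 1) (hεη : 2 * ε * (K2 ^ 2 + K * (2 * K2 + 1)) ≤ η0 / 4)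
    (hη0 : 0 < η0)
    (hR1 : |R1 - e1| ≤ η1) (hR2 : |R2 - e2| ≤ η1) (hR4 : |R4 - e4| ≤ η1)
    (h0 : 0 ≤ R1) (h02 : 0 ≤ R2) (h04 : 0 ≤ R4) (he1 : 0 ≤ e1) (he2 : 0 ≤ e2) (he4 : 0 ≤ e4)
    (he1' : e1 ≤ K2) (he2' : e2 ≤ K2) (he4' : e4 ≤ K2) (hq0 : 0 ≤ q) (hq : q ≤ K)
    (hgood : q * (e1 * e4) + η0 ≤ e2 ^ 2)
    (hconv : R2 ^ 2 ≤ R1 * R4 * q * Real.exp ε) : False := by
  have a1 := abs_le.1 hR1
  have a2 := abs_le.1 hR2
  have a4 := abs_le.1 hR4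
  have hexp : Real.exp ε ≤ 1 + 2 * ε := by
    have := Real.norm_exp_sub_one_sub_id_le (x := ε) (by
      rw [Real.norm_eq_abs, abs_of_nonneg hε]; exact hε1)
    rw [Real.norm_eq_abs, Real.norm_eq_abs, sq_abs] at this
    have := (abs_le.1 this).2
    nlinarith
  have b1 : R1 * R4 ≤ e1 * e4 + η1 * (2 * K2 + 1) := by
    calc R1 * R4 ≤ (e1 + η1) * (e4 + η1) := by
          gcongr <;> linarith
      _ = e1 * e4 + η1 * (e1 + e4 + η1) := by ring
      _ ≤ _ := by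
          gcongr
          linarith
  have b2 : R1 * R4 * q ≤ e2 ^ 2 - η0 + K * η1 * (2 * K2 + 1) := by
    calc R1 * R4 * q ≤ (e1 * e4 + η1 * (2 * K2 + 1)) * q := by gcongr
      _ = q * (e1 * e4) + q * (η1 * (2 * K2 + 1)) := by ring
      _ ≤ (e2 ^ 2 - η0) + K * (η1 * (2 * K2 + 1)) := by
          have : q * (η1 * (2 * K2 + 1)) ≤ K * (η1 * (2 * K2 + 1)) := by gcongr
          linarith
      _ = _ := by ring
  have b3 : R1 * R4 * q ≤ K2 ^ 2 + K * (2 * K2 + 1) := by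
    have c1 : e2 ^ 2 ≤ K2 ^ 2 := by gcongr
    have c2 : K * η1 * (2 * K2 + 1) ≤ K * 1 * (2 * K2 + 1) := by gcongr
    linarith
  have b4 : R2 ^ 2 ≤ R1 * R4 * q + 2 * ε * (K2 ^ 2 + K * (2 * K2 + 1)) := by
    calc R2 ^ 2 ≤ R1 * R4 * q * Real.exp ε := hconv
      _ ≤ R1 * R4 * q * (1 + 2 * ε) := by gcongr
      _ = R1 * R4 * q + 2 * ε * (R1 * R4 * q) := by ring
      _ ≤ _ := by gcongr
  have b5 : e2 ^ 2 - 2 * η1 * K2 ≤ R2 ^ 2 := by
    rcases le_total e2 R2 with h | h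
    · have c1 : e2 ^ 2 ≤ R2 ^ 2 := by gcongr
      have c2 : 0 ≤ η1 * K2 := by positivity
      linarith
    · have c1 : e2 ^ 2 - R2 ^ 2 = (e2 - R2) * (e2 + R2) := by ring
      have c2 : (e2 - R2) * (e2 + R2) ≤ η1 * (K2 + K2) := by
        gcongr <;> linarith
      linarith
  linarith

end Pool.Agent.HF
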