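import Pool.Agent.Lib.MP_af3d17_nt_h54.Hard2

/-!
# MP_af3d17_nt, heat flow: the hard direction
-/

set_option autoImplicit false

namespace Pool.Agent.HF

open MeasureTheory ProbabilityTheory Filter Topology Metric
open Pool.Agent.ZP

/-- a small positive constant -/
lemma exists_eta (K K2 η0 : ℝ) (hK : 0 ≤ K) (hK2 : 0 ≤ K2) (hη0 : 0 < η0) :
    ∃ η1 : ℝ, 0 < η1 ∧ η1 ≤ 1 ∧ 2 * η1 * K2 + K * η1 * (2 * K2 + 1) ≤ η0 / 4 := by
  set Q := 2 * K2 + K * (2 * K2 + 1) + 1 with hQ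
  have hQ0 : 0 < Q := by positivity
  refine ⟨min 1 (η0 / 4 / Q), by positivity, min_le_left _ _, ?_⟩
  have h1 : min 1 (η0 / 4 / Q) * Q ≤ η0 / 4 := by
    calc min 1 (η0 / 4 / Q) * Q ≤ η0 / 4 / Q * Q := by
          gcongr
          exact min_le_right _ _
      _ = η0 / 4 := by field_simp
  have h2 : 0 < min 1 (η0 / 4 / Q) := by positivity
  rw [hQ] at h1
  nlinarith

lemma norm_uu_le {k : ℕ} (x : Fin k → ℝ) {h ρ y : ℝ} (hρ : 0 < ρ) (hy : ρ ≤ y) (i : Fin k) :
    ‖uu x h y i‖ ≤ ‖uu x h ρ i‖ := by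
  rw [uu, uu, norm_div, norm_div, norm_den, norm_den]
  have h1 : 0 < Real.sqrt (ρ ^ 2 + x i ^ 2) := Real.sqrt_pos.2 (by positivity)
  have h2 : Real.sqrt (ρ ^ 2 + x i ^ 2) ≤ Real.sqrt (y ^ 2 + x i ^ 2) :=
    Real.sqrt_le_sqrt (by nlinarith)
  gcongr

/-- bounds needed for the convexity -/
lemma size_at_center {C : ℝ} (hC : 0 < C) {b : ℝ} (hb : b < 0) : ∃ D R : ℝ, 0 < D ∧ 100 ≤ R ∧
    ∀ T ≥ R, ∀ (k : ℕ) (z : Fin k → ℂ) (g : ℂ → ℂ), Loc C T z g → (∀ i, (z i).re = 1 / 2) →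
    ∀ h : ℝ, 0 < h → h ≤ T ^ b → 1 ≤ D * Real.log T ∧ ∃ m : ℝ, 0 < m ∧
      (∀ w ∈ closedBall (pt (11 / 20) T) (8 / 100), ‖xiH h w‖ ≤
        Real.exp (D * Real.log T) * m) ∧
      Real.exp (-(D * Real.log T)) * m ≤ ‖xiH h (pt (11 / 20) T)‖ := by
  obtain ⟨Cx, T1, hCx, hT1, hxg⟩ := xiH_growth
  obtain ⟨CA, hCA, hA⟩ := AA_seg
  obtain ⟨R2, hR2, hst⟩ := strip_near (a := b) (a' := b / 2) (η := 1 / 10) hC (by linarith)
    (by linarith) (by norm_num)
  have hev1 : ∀ᶠ t : ℝ in atTop, t ^ (b / 2) ≤ 1 / 20 := by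
    have h1 := tendsto_rpow_neg_atTop (show 0 < -(b / 2) by linarith)
    rw [neg_neg] at h1
    exact h1.eventually_le_const (by norm_num)
  have hev2 : ∀ᶠ t : ℝ in atTop, 2 * Cx * Real.log t * t ^ b ≤ 1 := by
    have h1 := (isLittleO_log_rpow_atTop (show 0 < -b by linarith)).tendsto_div_nhds_zero
    have h2 := h1.const_mul (2 * Cx)
    rw [mul_zero] at h2
    have h3 := h2.eventually_le_const one_pos
    filter_upwards [h3, eventually_gt_atTop 0] with t h4 ht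
    rw [Real.rpow_neg ht.le, div_inv_eq_mul] at h4
    rwa [mul_assoc]
  obtain ⟨R3, hR3⟩ := eventually_atTop.1 (hev1.and hev2)
  refine ⟨2 * Cx + 2 * CA + 4 * C + 1, max (max (T1 + 1) R2) R3, by positivity, ?_, ?_⟩
  · exact hR2.trans ((le_max_right _ _).trans (le_max_left _ _))
  intro T hT k z g hL hre h hh hhT
  have t1 : T1 + 1 ≤ T := ((le_max_left _ _).trans (le_max_left _ _)).trans hT
  have t2 : R2 ≤ T := ((le_max_right _ _).trans (le_max_left _ _)).trans hT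
  have t3 : R3 ≤ T := (le_max_right _ _).trans hT
  have hT100 : 100 ≤ T := hR2.trans t2
  have hlog := one_le_log hT100
  set L := Real.log T with hLdef
  obtain ⟨u1, u2⟩ := hR3 T t3
  set c := pt (11 / 20) T with hc
  have hcR : c ∈ Reg := Or.inl (by rw [hc, pt_im]; linarith)
  have hm : 0 < ‖AA c‖ := norm_pos_iff.2 (AA_ne hcR)
  have hD1 : 1 ≤ (2 * Cx + 2 * CA + 4 * C + 1) * L := by
    calc (1 : ℝ) = 1 * 1 := by ring
      _ ≤ _ := by
          gcongr
          linarith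
  refine ⟨hD1, ‖AA c‖, hm, ?_, ?_⟩
  · intro w hw
    rw [mem_closedBall, dist_eq_norm] at hw
    have w1 := abs_le.1 ((Complex.abs_re_le_norm (w - c)).trans hw)
    have w2 := abs_le.1 ((Complex.abs_im_le_norm (w - c)).trans hw)
    rw [Complex.sub_re, hc, pt_re] at w1
    rw [Complex.sub_im, hc, pt_im] at w2
    have ew : w = pt w.re w.im := rfl
    have hlw : Real.log w.im ≤ 2 * L := by
      have : Real.log w.im ≤ Real.log (T ^ 2) := by
        refine Real.log_le_log (by linarith) ?_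
        nlinarith
      rwa [Real.log_pow, Nat.cast_ofNat] at this
    have h1 := hxg w.im (by linarith) w.re (by linarith) (by linarith) h hh (by
      calc Cx * Real.log w.im * h ≤ Cx * (2 * L) * T ^ b := by gcongr
        _ = 2 * Cx * L * T ^ b := by ring
        _ ≤ 1 := u2)
    rw [← ew] at h1
    have h2 := hA c w (T ^ 2) (by rw [hc, pt_re]; norm_num)
      (by rw [abs_le]; constructor <;> linarith) (by rw [hc, pt_im]; linarith) (by linarith)
      (by rw [hc, pt_im]; nlinarith) (by nlinarith)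
    rw [Real.log_pow, Nat.cast_ofNat] at h2
    have h3 : CA * (2 * L) * ‖w - c‖ ≤ 2 * CA * L := by
      have : CA * (2 * L) * ‖w - c‖ ≤ CA * (2 * L) * 1 := by
        gcongr
        linarith
      linarith
    calc ‖xiH h w‖ ≤ ‖AA w‖ * Real.exp (Cx * Real.log w.im) := h1
      _ ≤ (‖AA c‖ * Real.exp (2 * CA * L)) * Real.exp (Cx * (2 * L)) := by
          gcongr
          exact h2.trans (by gcongr)
      _ = Real.exp (2 * CA * L + Cx * (2 * L)) * ‖AA c‖ := by rw [Real.exp_add]; ring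
      _ ≤ _ := by
          gcongr
          have : 0 ≤ C * L := by positivity
          nlinarith
  · have hcb : c ∈ closedBall (pt 10 T) (96 / 10) :=
      pt_mem_disc (by norm_num) (by nlinarith)
    have hd : ∀ i, 1 / 20 ≤ ‖c - z i‖ := by
      intro i
      have h1 := (le_abs_self _).trans (Complex.abs_re_le_norm (c - z i))
      rw [Complex.sub_re, hc, pt_re, hre i] at h1
      rw [hc]
      linarith
    obtain ⟨r1, r2⟩ := hst T t2 k z g hL (11 / 20) (by norm_num) (by norm_num)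
      (fun i => u1.trans (hd i)) h hh hhT
    rw [← hc] at r1 r2
    have h3 : 9 / 10 ≤ ‖xiH h c / xi c‖ := by
      have : ‖(1 : ℂ)‖ ≤ ‖xiH h c / xi c‖ + ‖xiH h c / xi c - 1‖ := by
        calc ‖(1 : ℂ)‖ = ‖xiH h c / xi c - (xiH h c / xi c - 1)‖ := by congr 1; ring
          _ ≤ _ := norm_sub_le _ _
      rw [norm_one] at this
      linarith
    rw [norm_div, le_div_iff₀ (norm_pos_iff.2 r1)] at h3
    have h4 : Real.exp (-(3 * (C * L))) * (‖AA c‖ * Real.exp (-(C * L))) ≤ ‖xi c‖ := by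
      rw [xi_eq_AA hcR, hL.hf c (closedBall_subset_closedBall (by norm_num) hcb), norm_mul,
        norm_mul, norm_prod]
      have h5 : Real.exp (-(3 * (C * L))) ≤ ∏ i, ‖c - z i‖ := by
        calc Real.exp (-(3 * (C * L))) ≤ Real.exp (-(3 * k)) := by
              rw [Real.exp_le_exp]
              have := hL.hk
              linarith
          _ = Real.exp (-3) ^ k := by rw [← Real.exp_nat_mul]; congr 1; ring
          _ ≤ (1 / 20 : ℝ) ^ k := by
              gcongr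
              rw [Real.exp_neg, inv_eq_one_div]
              refine one_div_le_one_div_of_le (by norm_num) ?_
              have := Real.exp_one_gt_d9
              have e5 : Real.exp 3 = Real.exp 1 ^ 3 := by rw [← Real.exp_nat_mul]; norm_num
              rw [e5]
              have : (2.718 : ℝ) ^ 3 ≤ Real.exp 1 ^ 3 := by
                gcongr
                linarith
              norm_num at this ⊢
              linarith
          _ = ∏ _i : Fin k, (1 / 20 : ℝ) := by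
              rw [Finset.prod_const, Finset.card_univ, Fintype.card_fin]
          _ ≤ _ := Finset.prod_le_prod (fun i _ => by norm_num) fun i _ => hd i
      have h6 := hL.hlow c hcb
      calc Real.exp (-(3 * (C * L))) * (‖AA c‖ * Real.exp (-(C * L)))
          ≤ (∏ i, ‖c - z i‖) * (‖AA c‖ * ‖g c‖) := by gcongr
        _ = _ := by ring
    have h7 : Real.exp (-1) ≤ 9 / 10 := by
      have h8 : Real.exp (-1) * Real.exp 1 = 1 := by rw [← Real.exp_add]; simp
      have := Real.exp_one_gt_d9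
      have := Real.exp_pos (-1)
      nlinarith
    calc Real.exp (-((2 * Cx + 2 * CA + 4 * C + 1) * L)) * ‖AA c‖
        ≤ Real.exp (-1 + (-(3 * (C * L)) + -(C * L))) * ‖AA c‖ := by
          gcongr
          have : 0 ≤ Cx * L := by positivity
          have : 0 ≤ CA * L := by positivity
          nlinarith
      _ = Real.exp (-1) * (Real.exp (-(3 * (C * L))) * (‖AA c‖ * Real.exp (-(C * L)))) := by
          rw [Real.exp_add, Real.exp_add]; ring
      _ ≤ 9 / 10 * ‖xi c‖ := by gcongr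
      _ ≤ _ := h3

/-- close or multiple zeros produce zeros off the line -/
theorem hard {T0 : ℝ} (hline : ∀ ρ, IsUpperZero ρ → T0 < ρ.im → ρ.re = 1 / 2) {b1 b2 : ℝ}
    (h12 : b1 < b2) (hb2 : b2 < 0) : ∃ R : ℝ, ∀ T ≥ R, riemannZeta (pt (1 / 2) T) = 0 →
    ((∃ d, 0 < d ∧ d ≤ T ^ b1 ∧ riemannZeta (pt (1 / 2) (T + d)) = 0) ∨
      deriv riemannZeta (pt (1 / 2) T) = 0) →
    ∃ (h : ℝ) (s : ℂ), 0 < h ∧ h ≤ T ^ b2 ∧ xiH h s = 0 ∧ s.re ≠ 1 / 2 ∧
      |s.im - T| ≤ 1 ∧ |s.re| ≤ 1 := by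
  obtain ⟨C, T1, hC, hT1, hloc⟩ := exists_loc
  obtain ⟨C', hC', T2, hT2, hrat⟩ := ratio hC
  obtain ⟨CH, hCH, hHs⟩ := H_seg hC
  obtain ⟨C0, hC0, hconv⟩ := conv_line
  obtain ⟨D, R3, hD, hR3, hsize⟩ := size_at_center hC hb2
  set η : ℝ := (b2 - b1) / 8 with hη
  have hη0 : 0 < η := by rw [hη]; linarith
  obtain ⟨K', ηg, L0, hηg, hcore⟩ := core C η hC hη0
  set K := max K' 1 with hK
  have hK1 : 1 ≤ K := le_max_right _ _
  have hKK := KK_pos
  set K2 := Real.exp (2 * K ^ 2) * KK with hK2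
  have hK20 : 0 < K2 := by positivity
  obtain ⟨η1, hη1, hη1', hη1''⟩ := exists_eta K K2 ηg (by linarith) hK20.le hηg
  obtain ⟨R4, hR4, hpar⟩ := params C' K (-b1) (-b2) η1 hC' (by linarith) hη1 (by linarith)
  set Q := (C0 * D + 3 * CH) with hQ
  have hQ0 : 0 < Q := by positivity
  set Q2 := K2 ^ 2 + K * (2 * K2 + 1) with hQ2
  have hQ20 : 0 < Q2 := by positivity
  have hev1 : ∀ᶠ t : ℝ in atTop, Q * Real.log t * t ^ b2 ≤ min 1 (ηg / 8 / Q2) := by
    have h1 := (isLittleO_log_rpow_atTop (show 0 < -b2 by linarith)).tendsto_div_nhds_zero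
    have h2 := h1.const_mul Q
    rw [mul_zero] at h2
    have h3 := h2.eventually_le_const (show (0 : ℝ) < min 1 (ηg / 8 / Q2) by positivity)
    filter_upwards [h3, eventually_gt_atTop 0] with t h4 ht
    rw [Real.rpow_neg ht.le, div_inv_eq_mul] at h4
    rwa [mul_assoc]
  have hev2 : ∀ᶠ t : ℝ in atTop, 100 ≤ t ^ (2 * η) :=
    (tendsto_rpow_atTop (by positivity)).eventually_ge_atTop 100
  have hev3 : ∀ᶠ t : ℝ in atTop, max L0 (1 / η) ≤ Real.log t :=
    Real.tendsto_log_atTop.eventually_ge_atTop _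
  have hev4 : ∀ᶠ t : ℝ in atTop, t ^ b2 ≤ 1 / 40 := by
    have h1 := tendsto_rpow_neg_atTop (show 0 < -b2 by linarith)
    rw [neg_neg] at h1
    exact h1.eventually_le_const (by norm_num)
  obtain ⟨R5, hR5⟩ := eventually_atTop.1 (hev1.and (hev2.and (hev3.and hev4)))
  refine ⟨max (max (max T1 T2) (max R3 R4)) (max R5 (T0 + 20)), fun T hT hz1 hz2 => ?_⟩
  have t1 : T1 ≤ T := ((le_max_left _ _).trans ((le_max_left _ _).trans (le_max_left _ _))).trans hT
  have t2 : T2 ≤ T :=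
    ((le_max_right _ _).trans ((le_max_left _ _).trans (le_max_left _ _))).trans hT
  have t3 : R3 ≤ T :=
    ((le_max_left _ _).trans ((le_max_right _ _).trans (le_max_left _ _))).trans hT
  have t4 : R4 ≤ T :=
    ((le_max_right _ _).trans ((le_max_right _ _).trans (le_max_left _ _))).trans hT
  have t5 : R5 ≤ T := ((le_max_left _ _).trans (le_max_right _ _)).trans hT
  have t6 : T0 + 20 ≤ T := ((le_max_right _ _).trans (le_max_right _ _)).trans hT
  have hT100 : 100 ≤ T := hT1.trans t1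
  have hTpos : 0 < T := by linarith
  have hlog := one_le_log hT100
  obtain ⟨v1, v2, v3, v4⟩ := hR5 T t5
  set L := Real.log T with hLdef
  have v3a : L0 ≤ L := (le_max_left _ _).trans v3
  have v3b : 1 ≤ η * L := by
    have := (le_max_right _ _).trans v3
    rw [div_le_iff₀ hη0] at this
    linarith
  obtain ⟨k, z, g, hL⟩ := hloc T t1
  have hb1T : T ^ b1 ≤ 1 := Real.rpow_le_one_of_one_le_of_nonpos (by linarith) (by linarith)
  have hb1T0 : 0 < T ^ b1 := Real.rpow_pos_of_pos hTpos _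
  have hup := hL.upper hT100
  have hzre : ∀ i, (z i).re = 1 / 2 := by
    intro i
    refine hline _ (hup i) ?_
    obtain ⟨m1, m2, m3, m4⟩ := mem_disc (hL.hz i).1
    linarith
  set x : Fin k → ℝ := fun i => (z i).im - T with hx
  have hzx : ∀ i, z i = pt (1 / 2) (T + x i) := by
    intro i
    apply Complex.ext
    · rw [pt_re, hzre i]
    · rw [pt_im, hx]; ring
  obtain ⟨i, j, hij, hi, hj⟩ := two_idx hL hb1T0.le hb1T hz1 hz2
  have hxi' : ∀ l, ‖z l - pt (1 / 2) T‖ ≤ T ^ b1 → |x l| ≤ (100 * T ^ b1) / 100 := by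
    intro l hl
    have := (Complex.abs_im_le_norm (z l - pt (1 / 2) T)).trans hl
    rw [Complex.sub_im, pt_im] at this
    rw [hx]
    simp only
    linarith
  -- the number of scales
  set J : ℕ := ⌊2 * η * L⌋₊ with hJ
  have hJ1 : (J : ℝ) ≤ 2 * η * L := Nat.floor_le (by positivity)
  have hJ2 : 2 * η * L < J + 1 := Nat.lt_floor_add_one _
  have hJ3 : η * L ≤ J := by linarith
  obtain ⟨l, hl, h, hgood'⟩ := hcore L v3a k x (100 * T ^ b1) J hL.hk (by positivity)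
    ⟨i, j, hij, hxi' i hi, hxi' j hj⟩ hJ3
  set ρ := sc (100 * T ^ b1) l with hρ
  have hρ0 : 0 < ρ := sc_pos (by positivity) l
  obtain ⟨g1, g2, g3, g4, g5⟩ := hgood'.mono (le_max_left K' 1) (le_refl ηg)
  rw [← hK] at g3 g4
  have hρ1 : T ^ b1 ≤ ρ := by
    have h1 : sc (100 * T ^ b1) 0 ≤ ρ := sc_mono (by positivity) (Nat.zero_le l)
    rw [sc, pow_zero, one_mul] at h1
    linarith
  have hρ2 : ρ ≤ T ^ b2 := by
    have h1 : (16 : ℝ) ^ l ≤ T ^ (6 * η) := by
      have e1 : (16 : ℝ) ≤ Real.exp 3 := by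
        have := Real.exp_one_gt_d9
        have e5 : Real.exp 3 = Real.exp 1 ^ 3 := by rw [← Real.exp_nat_mul]; norm_num
        rw [e5]
        have : (2.7 : ℝ) ^ 3 ≤ Real.exp 1 ^ 3 := by
          gcongr
          linarith
        norm_num at this ⊢
        linarith
      calc (16 : ℝ) ^ l ≤ Real.exp 3 ^ l := by gcongr
        _ = Real.exp (3 * l) := by rw [← Real.exp_nat_mul, mul_comm]
        _ ≤ Real.exp (3 * (2 * η * L)) := by
            have : (l : ℝ) ≤ J := by exact_mod_cast hl.le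
            rw [Real.exp_le_exp]
            linarith
        _ = T ^ (6 * η) := by
            rw [Real.rpow_def_of_pos hTpos]
            congr 1
            ring
    rw [hρ, sc]
    calc (16 : ℝ) ^ l * (100 * T ^ b1) ≤ T ^ (6 * η) * (T ^ (2 * η) * T ^ b1) := by gcongr
      _ = T ^ b2 := by
          rw [← Real.rpow_add hTpos, ← Real.rpow_add hTpos]
          congr 1
          rw [hη]; ring
  have hhT : h ≤ T ^ b2 := g2.trans hρ2
  have hρ4 : 4 * ρ ≤ 1 / 10 := by linarith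
  by_contra hcon
  push Not at hcon
  have honline : ∀ w ∈ closedBall (pt (11 / 20) T) (7 / 100), xiH h w = 0 → w.re = 1 / 2 := by
    intro w hw hw0
    by_contra hne
    rw [mem_closedBall, dist_eq_norm] at hw
    have w1 := abs_le.1 ((Complex.abs_re_le_norm (w - pt (11 / 20) T)).trans hw)
    have w2 := abs_le.1 ((Complex.abs_im_le_norm (w - pt (11 / 20) T)).trans hw)
    rw [Complex.sub_re, pt_re] at w1
    rw [Complex.sub_im, pt_im] at w2
    have := hcon h w g1 hhT hw0 hne (by rw [abs_le]; constructor <;> linarith)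
    rw [abs_of_nonneg (by linarith)] at this
    linarith
  obtain ⟨hD1, m, hm, hm1, hm2⟩ := hsize T t3 k z g hL hzre h g1 hhT
  have hcv := hconv (xiH h) T (D * L) m (differentiable_xiH h) hD1 hm hm1 hm2 honline ρ hρ0 hρ4
  -- the quotients at the three points
  have hdist : ∀ y : ℝ, ρ ≤ y → ∀ i, T ^ b1 ≤ ‖pt (1 / 2 + y) T - z i‖ := by
    intro y hy i
    rw [hzx i, pt_sub, norm_den]
    refine (hρ1.trans hy).trans (Real.le_sqrt_of_sq_le ?_)
    have := sq_nonneg (x i)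
    linarith
  have huu : ∀ y : ℝ, (fun i => ((h : ℂ) * Complex.I) / (pt (1 / 2 + y) T - z i)) = uu x h y := by
    intro y
    funext i
    rw [hzx i, pt_sub, uu]
  obtain ⟨q1, q2, q3⟩ := hpar T t4 h g1 (by rw [neg_neg]; exact hhT)
  have hquot : ∀ y : ℝ, ρ ≤ y → y ≤ 1 / 10 → xi (pt (1 / 2 + y) T) ≠ 0 ∧
      |‖xiH h (pt (1 / 2 + y) T) / xi (pt (1 / 2 + y) T)‖ - ‖EP (uu x h y)‖| ≤ η1 := by
    intro y hy hy1
    have hsum : ∑ i, ‖((h : ℂ) * Complex.I) / (pt (1 / 2 + y) T - z i)‖ ≤ K := by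
      have e1 : ∑ i, ‖((h : ℂ) * Complex.I) / (pt (1 / 2 + y) T - z i)‖ =
          ∑ i, ‖uu x h y i‖ :=
        Finset.sum_congr rfl fun i _ => congrArg norm (congrFun (huu y) i)
      rw [e1]
      exact (Finset.sum_le_sum fun i _ => norm_uu_le x hρ0 hy i).trans g3
    obtain ⟨r1, r2⟩ := hrat T t2 k z g hL (1 / 2 + y) (by linarith) (by linarith) h K (-b1) g1
      (by linarith) (fun i => by rw [neg_neg]; exact hdist y hy i) hsum q1 q2
    refine ⟨r1, (abs_norm_sub_norm_le _ _).trans ?_⟩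
    rw [← huu y]
    exact r2.trans q3
  obtain ⟨n1, k1⟩ := hquot ρ le_rfl (by linarith)
  obtain ⟨n2, k2⟩ := hquot (2 * ρ) (by linarith) (by linarith)
  obtain ⟨n4, k4⟩ := hquot (4 * ρ) (by linarith) hρ4
  -- values of ξ
  have hmem : ∀ y : ℝ, 0 < y → y ≤ 1 / 10 → pt (1 / 2 + y) T ∈ closedBall (pt 10 T) (96 / 10) :=
    fun y h0 h1 => pt_mem_disc (by norm_num) (by nlinarith)
  have hxival : ∀ y : ℝ, 0 < y → y ≤ 1 / 10 → ‖xi (pt (1 / 2 + y) T)‖ =
      (∏ i, ‖(y : ℂ) - x i * Complex.I‖) *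
        ‖AA (pt (1 / 2 + y) T) * g (pt (1 / 2 + y) T)‖ := by
    intro y h0 h1
    have e1 := hL.hf _ (closedBall_subset_closedBall (by norm_num) (hmem y h0 h1))
    rw [xi_eq_AA (Or.inl (by rw [pt_im]; linarith)), e1]
    have e2 : AA (pt (1 / 2 + y) T) * ((∏ i, (pt (1 / 2 + y) T - z i)) * g (pt (1 / 2 + y) T)) =
        (∏ i, (pt (1 / 2 + y) T - z i)) * (AA (pt (1 / 2 + y) T) * g (pt (1 / 2 + y) T)) := by
      ring
    rw [e2, norm_mul, norm_prod]
    congr 1
    refine Finset.prod_congr rfl fun i _ => ?_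
    rw [hzx i, pt_sub]
  have hnorm : ∀ a b : ℝ, ‖pt (1 / 2 + b) T - pt (1 / 2 + a) T‖ = |b - a| := by
    intro a b
    have : pt (1 / 2 + b) T - pt (1 / 2 + a) T = ((b - a : ℝ) : ℂ) := by
      apply Complex.ext <;> simp
    rw [this, Complex.norm_real, Real.norm_eq_abs]
  have s1 := hHs T hT100 k z g hL _ (hmem (2 * ρ) (by linarith) (by linarith)) _
    (hmem ρ hρ0 (by linarith))
  have s4 := hHs T hT100 k z g hL _ (hmem (2 * ρ) (by linarith) (by linarith)) _
    (hmem (4 * ρ) (by linarith) hρ4)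
  rw [hnorm, show |ρ - 2 * ρ| = ρ by rw [abs_of_neg (by linarith)]; ring] at s1
  rw [hnorm, show |4 * ρ - 2 * ρ| = 2 * ρ by rw [abs_of_pos (by linarith)]; ring] at s4
  rw [← hLdef] at s1 s4
  have hprod := three_prod x hρ0
  have hxi3 : ‖xi (pt (1 / 2 + ρ) T)‖ * ‖xi (pt (1 / 2 + 4 * ρ) T)‖ ≤
      Real.exp (EE x ρ) * Real.exp (3 * CH * L * ρ) * ‖xi (pt (1 / 2 + 2 * ρ) T)‖ ^ 2 := by
    rw [hxival ρ hρ0 (by linarith), hxival (4 * ρ) (by linarith) hρ4,
      hxival (2 * ρ) (by linarith) (by linarith)]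
    set P1 := ∏ i, ‖(ρ : ℂ) - x i * Complex.I‖
    set P2 := ∏ i, ‖((2 * ρ : ℝ) : ℂ) - x i * Complex.I‖
    set P4 := ∏ i, ‖((4 * ρ : ℝ) : ℂ) - x i * Complex.I‖
    set H1 := ‖AA (pt (1 / 2 + ρ) T) * g (pt (1 / 2 + ρ) T)‖
    set H2 := ‖AA (pt (1 / 2 + 2 * ρ) T) * g (pt (1 / 2 + 2 * ρ) T)‖
    set H4 := ‖AA (pt (1 / 2 + 4 * ρ) T) * g (pt (1 / 2 + 4 * ρ) T)‖
    have hP1 : 0 ≤ P1 := Finset.prod_nonneg fun i _ => norm_nonneg _
    have hP4 : 0 ≤ P4 := Finset.prod_nonneg fun i _ => norm_nonneg _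
    calc P1 * H1 * (P4 * H4) = (P1 * P4) * (H1 * H4) := by ring
      _ ≤ (Real.exp (EE x ρ) * P2 ^ 2) * ((H2 * Real.exp (CH * L * ρ)) *
          (H2 * Real.exp (CH * L * (2 * ρ)))) := by
          gcongr
      _ = Real.exp (EE x ρ) * (Real.exp (CH * L * ρ) * Real.exp (CH * L * (2 * ρ))) *
          (P2 * H2) ^ 2 := by ring
      _ = _ := by rw [← Real.exp_add]; congr 3; ring
  set X1 := ‖xi (pt (1 / 2 + ρ) T)‖ with hX1
  set X2 := ‖xi (pt (1 / 2 + 2 * ρ) T)‖ with hX2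
  set X4 := ‖xi (pt (1 / 2 + 4 * ρ) T)‖ with hX4
  have hX2p : 0 < X2 := norm_pos_iff.2 n2
  have hX1p : 0 < X1 := norm_pos_iff.2 n1
  have hX4p : 0 < X4 := norm_pos_iff.2 n4
  rw [norm_div] at k1 k2 k4
  rw [← hX1] at k1
  rw [← hX2] at k2
  rw [← hX4] at k4
  set F1 := ‖xiH h (pt (1 / 2 + ρ) T)‖ with hF1
  set F2 := ‖xiH h (pt (1 / 2 + 2 * ρ) T)‖ with hF2
  set F4 := ‖xiH h (pt (1 / 2 + 4 * ρ) T)‖ with hF4
  have hF1p : 0 ≤ F1 := norm_nonneg _
  have hF2p : 0 ≤ F2 := norm_nonneg _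
  have hF4p : 0 ≤ F4 := norm_nonneg _
  have hfinal : (F2 / X2) ^ 2 ≤ F1 / X1 * (F4 / X4) * Real.exp (EE x ρ) *
      Real.exp (Q * L * ρ) := by
    have e1 : Real.exp (Q * L * ρ) = Real.exp (3 * CH * L * ρ) * Real.exp (C0 * (D * L) * ρ) := by
      rw [← Real.exp_add, hQ]; congr 1; ring
    rw [div_pow, div_le_iff₀ (by positivity), e1]
    have e2 : F1 / X1 * (F4 / X4) * Real.exp (EE x ρ) *
        (Real.exp (3 * CH * L * ρ) * Real.exp (C0 * (D * L) * ρ)) * X2 ^ 2 =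
        (F1 / X1 * (F4 / X4)) * (Real.exp (EE x ρ) * Real.exp (3 * CH * L * ρ) * X2 ^ 2) *
          Real.exp (C0 * (D * L) * ρ) := by ring
    rw [e2]
    calc F2 ^ 2 ≤ F1 * F4 * Real.exp (C0 * (D * L) * ρ) := hcv
      _ = (F1 / X1 * (F4 / X4)) * (X1 * X4) * Real.exp (C0 * (D * L) * ρ) := by
          field_simp
      _ ≤ _ := by gcongr
  have hEP : ∀ y : ℝ, ρ ≤ y → ‖EP (uu x h y)‖ ≤ K2 := by
    intro y hy
    refine (norm_EP_le _).trans ?_
    have h1 : ∑ i, ‖uu x h y i‖ ≤ K :=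
      (Finset.sum_le_sum fun i _ => norm_uu_le x hρ0 hy i).trans g3
    have h0 : 0 ≤ ∑ i, ‖uu x h y i‖ := Finset.sum_nonneg fun i _ => norm_nonneg _
    rw [hK2]
    gcongr
  have hε : Q * L * ρ ≤ min 1 (ηg / 8 / Q2) := by
    refine le_trans ?_ v1
    gcongr
  have hε2 : 2 * (Q * L * ρ) * Q2 ≤ ηg / 4 := by
    have h1 : Q * L * ρ ≤ ηg / 8 / Q2 := hε.trans (min_le_right _ _)
    rw [le_div_iff₀ hQ20] at h1
    linarith
  exact final_arith (K := K) (K2 := K2) (η0 := ηg) (η1 := η1) (ε := Q * L * ρ)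
    (by linarith) hK20.le hη1 hη1' hη1'' (by positivity) (hε.trans (min_le_left _ _)) hε2 hηg
    k1 k2 k4 (by positivity) (by positivity) (by positivity) (norm_nonneg _) (norm_nonneg _)
    (norm_nonneg _) (hEP ρ le_rfl) (hEP _ (by linarith)) (hEP _ (by linarith))
    (Real.exp_pos _).le g4 g5 hfinal

end Pool.Agent.HF
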