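import Pool.Agent.Lib.MP_af3d17_nt_h54.XiDefs
import Pool.Agent.Lib.MP_af3d17_nt_h98.Zer

/-!
# MP_af3d17_nt, heat flow: local factorisation and growth of `ξ`
-/

set_option autoImplicit false

namespace Pool.Agent.HF

open MeasureTheory ProbabilityTheory Filter Topology Metric
open Pool.Agent.ZP

/-- comparison of two values of a function with bounded logarithmic derivative -/
lemma seg_bound {g : ℂ → ℂ} {a b : ℂ} {B : ℝ} (hB : 0 < B)
    (h : ∀ w ∈ segment ℝ a b, DifferentiableAt ℂ g w ∧ ‖deriv g w‖ ≤ B * ‖g w‖) :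
    ‖g b‖ ≤ ‖g a‖ * Real.exp (B * ‖b - a‖) ∧
      ‖g b - g a‖ ≤ ‖g a‖ * (Real.exp (B * ‖b - a‖) - 1) := by
  set c : ℝ → ℂ := fun u => a + u * (b - a) with hc
  have hmem : ∀ u ∈ Set.Icc (0 : ℝ) 1, c u ∈ segment ℝ a b := by
    intro u hu
    rw [segment_eq_image']
    exact ⟨u, hu, by simp [hc]⟩
  have hder : ∀ u ∈ Set.Icc (0 : ℝ) 1,
      HasDerivAt (g ∘ c) ((b - a) • deriv g (c u)) u := by
    intro u hu
    have h1 := (h _ (hmem u hu)).1.hasDerivAt
    have h2 : HasDerivAt c (b - a) u := by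
      have h3 : HasDerivAt (fun u : ℝ => (u : ℂ)) 1 u := Complex.ofRealCLM.hasDerivAt
      have h4 := (h3.mul_const (b - a)).const_add a
      rwa [one_mul] at h4
    exact h1.scomp u h2
  have hcont : ContinuousOn (g ∘ c) (Set.Icc 0 1) := fun u hu =>
    (hder u hu).continuousAt.continuousWithinAt
  have hsub : Set.Ico (0 : ℝ) 1 ⊆ Set.Icc 0 1 := Set.Ico_subset_Icc_self
  have hbd : ∀ u ∈ Set.Ico (0 : ℝ) 1, ‖(b - a) • deriv g (c u)‖ ≤
      (B * ‖b - a‖) * ‖(g ∘ c) u‖ := by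
    intro u hu
    rw [norm_smul, Function.comp_apply]
    calc ‖b - a‖ * ‖deriv g (c u)‖ ≤ ‖b - a‖ * (B * ‖g (c u)‖) := by
          gcongr
          exact (h _ (hmem u (hsub hu))).2
      _ = _ := by ring
  have c0 : c 0 = a := by simp [hc]
  have c1 : c 1 = b := by simp [hc]
  constructor
  · have h1 := norm_le_gronwallBound_of_norm_deriv_right_le (f := g ∘ c)
      (f' := fun u => (b - a) • deriv g (c u)) (δ := ‖g a‖) (K := B * ‖b - a‖) (ε := 0)
      hcont (fun u hu => (hder u (hsub hu)).hasDerivWithinAt)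
      (by rw [Function.comp_apply, c0]) (fun u hu => by rw [add_zero]; exact hbd u hu) 1 (by simp)
    rw [gronwallBound_ε0, Function.comp_apply, c1, sub_zero, mul_one] at h1
    exact h1
  · rcases eq_or_ne a b with rfl | hab
    · simp
    have hK : B * ‖b - a‖ ≠ 0 := (mul_pos hB (norm_pos_iff.2 (sub_ne_zero.2 hab.symm))).ne'
    have h1 := norm_le_gronwallBound_of_norm_deriv_right_le (f := fun u => (g ∘ c) u - g a)
      (f' := fun u => (b - a) • deriv g (c u)) (δ := 0) (K := B * ‖b - a‖)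
      (ε := B * ‖b - a‖ * ‖g a‖) (hcont.sub continuousOn_const)
      (fun u hu => ((hder u (hsub hu)).sub_const _).hasDerivWithinAt)
      (by simp only [Function.comp_apply]; rw [c0, sub_self, norm_zero])
      (fun u hu => by
        refine (hbd u hu).trans ?_
        have h3 : ‖(g ∘ c) u‖ ≤ ‖(g ∘ c) u - g a‖ + ‖g a‖ := by
          calc ‖(g ∘ c) u‖ = ‖((g ∘ c) u - g a) + g a‖ := by congr 1; ring
            _ ≤ _ := norm_add_le _ _
        have h4 : 0 ≤ B * ‖b - a‖ := by positivity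
        nlinarith) 1 (by simp)
    rw [gronwallBound_of_K_ne_0 hK] at h1
    simp only [Function.comp_apply, c1, sub_zero, mul_one, zero_mul, zero_add] at h1
    rw [mul_div_cancel_left₀ _ hK] at h1
    exact h1

/-- the archimedean factor of `ξ` -/
noncomputable def AA (s : ℂ) : ℂ := s * (s - 1) / 2 * Complex.Gammaℝ s

/-- its logarithmic derivative -/
noncomputable def aa (s : ℂ) : ℂ :=
  1 / s + 1 / (s - 1) + (Complex.digamma (s / 2) / 2 - (Real.log Real.pi : ℂ) / 2)

lemma hasDerivAt_Gammaℝ' {s : ℂ} (hne : ∀ m : ℕ, s / 2 ≠ -(m : ℂ)) :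
    HasDerivAt Complex.Gammaℝ (Complex.Gammaℝ s *
      (Complex.digamma (s / 2) / 2 - (Real.log Real.pi : ℂ) / 2)) s := by
  have hpi : (Real.pi : ℂ) ≠ 0 := by exact_mod_cast Real.pi_ne_zero
  have h1 : HasDerivAt (fun s : ℂ => -s / 2) (-1 / 2) s := (hasDerivAt_id s).neg.div_const 2
  have h2 := h1.const_cpow (c := (Real.pi : ℂ)) (Or.inl hpi)
  have h3 : HasDerivAt (fun s : ℂ => s / 2) (1 / 2) s := (hasDerivAt_id s).div_const 2
  have h4 : HasDerivAt Complex.Gamma (deriv Complex.Gamma (s / 2)) (s / 2) :=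
    (Complex.differentiableAt_Gamma _ hne).hasDerivAt
  have h5 : HasDerivAt (fun s : ℂ => Complex.Gamma (s / 2)) _ s :=
    HasDerivAt.comp s h4 h3
  have h6 := h2.fun_mul h5
  have e : (fun s : ℂ => (Real.pi : ℂ) ^ (-s / 2) * Complex.Gamma (s / 2)) = Complex.Gammaℝ := by
    funext z; rw [Complex.Gammaℝ_def]
  rw [e] at h6
  refine h6.congr_deriv ?_
  rw [Complex.Gammaℝ_def, Complex.digamma_def, logDeriv_apply,
    Complex.ofReal_log Real.pi_pos.le]
  have hG := Complex.Gamma_ne_zero hne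
  field_simp
  ring

/-- the region where the factor is nonzero -/
def Reg : Set ℂ := {s | s.im ≠ 0 ∨ 1 < s.re}

lemma Reg_ne {s : ℂ} (hs : s ∈ Reg) : s ≠ 0 ∧ s ≠ 1 ∧ Complex.Gammaℝ s ≠ 0 ∧
    ∀ m : ℕ, s / 2 ≠ -(m : ℂ) := by
  have h3 : ∀ m : ℕ, s / 2 ≠ -(m : ℂ) := by
    intro m hm
    have h4 : s = -(2 * m : ℝ) := by
      push_cast
      linear_combination 2 * hm
    rcases hs with hs | hs
    · apply hs
      rw [h4, ← Complex.ofReal_neg, Complex.ofReal_im]
    · rw [h4, ← Complex.ofReal_neg, Complex.ofReal_re] at hs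
      have : (0 : ℝ) ≤ m := Nat.cast_nonneg m
      linarith
  refine ⟨?_, ?_, ?_, h3⟩
  · rintro rfl
    rcases hs with hs | hs
    · simp at hs
    · simp at hs; linarith
  · rintro rfl
    rcases hs with hs | hs
    · simp at hs
    · simp at hs
  · rw [Ne, Complex.Gammaℝ_eq_zero_iff]
    rintro ⟨n, hn⟩
    apply h3 n
    rw [hn]; ring

lemma AA_ne {s : ℂ} (hs : s ∈ Reg) : AA s ≠ 0 := by
  obtain ⟨h1, h2, h3, -⟩ := Reg_ne hs
  have h4 : s - 1 ≠ 0 := sub_ne_zero.2 h2
  exact mul_ne_zero (div_ne_zero (mul_ne_zero h1 h4) (by norm_num)) h3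

lemma hasDerivAt_AA {s : ℂ} (hs : s ∈ Reg) : HasDerivAt AA (AA s * aa s) s := by
  obtain ⟨h1, h2, h3, h4⟩ := Reg_ne hs
  have h5 : s - 1 ≠ 0 := sub_ne_zero.2 h2
  have h6 : HasDerivAt (fun s : ℂ => s * (s - 1) / 2) ((1 * (s - 1) + s * 1) / 2) s :=
    ((hasDerivAt_id s).fun_mul ((hasDerivAt_id s).sub_const 1)).div_const 2
  have h7 := h6.fun_mul (hasDerivAt_Gammaℝ' h4)
  have e : (fun s : ℂ => s * (s - 1) / 2 * Complex.Gammaℝ s) = AA := rfl
  rw [e] at h7
  refine h7.congr_deriv ?_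
  rw [AA, aa]
  field_simp

lemma xi_eq_AA {s : ℂ} (hs : s ∈ Reg) : xi s = AA s * riemannZeta s := by
  obtain ⟨h1, h2, h3, h4⟩ := Reg_ne hs
  rw [xi_eq h1 h2 h3, AA]

lemma log_half_bound {w : ℂ} (h : 2 ≤ ‖w‖) : ‖Complex.log w‖ ≤ Real.log ‖w‖ + Real.pi := by
  have h0 : 0 ≤ Real.log ‖w‖ := Real.log_nonneg (by linarith)
  have e : Complex.log w = (Real.log ‖w‖ : ℂ) + (Complex.arg w : ℂ) * Complex.I := by
    rw [Complex.log]
  rw [e]
  refine (norm_add_le _ _).trans ?_
  rw [norm_mul, Complex.norm_I, mul_one, Complex.norm_real, Complex.norm_real, Real.norm_eq_abs,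
    Real.norm_eq_abs, abs_of_nonneg h0]
  have := Complex.abs_arg_le_pi w
  linarith

/-- bound for the logarithmic derivative in the strip -/
lemma aa_strip : ∃ C : ℝ, 0 < C ∧ ∀ w : ℂ, |w.re| ≤ 20 → 4 ≤ w.im →
    ‖aa w‖ ≤ C * Real.log w.im := by
  refine ⟨20, by norm_num, fun w h1 h2 => ?_⟩
  have hpi := Real.pi_pos
  have hpi4 := Real.pi_le_four
  have hL : 1 ≤ Real.log w.im := by
    rw [Real.le_log_iff_exp_le (by linarith)]
    have := Real.exp_one_lt_d9
    linarith
  have him : (w / 2).im = w.im / 2 := by simp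
  have hn : w.im ≤ ‖w‖ := (le_abs_self _).trans (Complex.abs_im_le_norm w)
  have hn2 : ‖w‖ ≤ 20 + w.im := by
    refine (Complex.norm_le_abs_re_add_abs_im w).trans ?_
    rw [abs_of_nonneg (show 0 ≤ w.im by linarith)]
    linarith
  have h3 := Psi.digamma_bound (s := w / 2) (by rw [him]; linarith)
  rw [him] at h3
  have h4 : 2 * Real.pi / (w.im / 2) ≤ 4 := by
    rw [div_le_iff₀ (by linarith)]; linarith
  have hw2 : ‖w / 2‖ = ‖w‖ / 2 := by rw [norm_div, Complex.norm_two]
  have h5 := log_half_bound (w := w / 2) (by rw [hw2]; linarith)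
  have h6 : Real.log ‖w / 2‖ ≤ Real.log w.im + 2 := by
    have h7 : ‖w / 2‖ ≤ w.im * 3 := by rw [hw2]; linarith
    have h8 : Real.log ‖w / 2‖ ≤ Real.log (w.im * 3) :=
      Real.log_le_log (by rw [hw2]; linarith) h7
    rw [Real.log_mul (by linarith) (by norm_num)] at h8
    have h9 : Real.log 3 ≤ 2 := by
      rw [Real.log_le_iff_le_exp (by norm_num)]
      have := Real.add_one_le_exp (2 : ℝ)
      linarith
    linarith
  have h10 : ‖Complex.digamma (w / 2)‖ ≤ Real.log w.im + 10 := by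
    calc ‖Complex.digamma (w / 2)‖ = ‖(Complex.digamma (w / 2) - Complex.log (w / 2)) +
          Complex.log (w / 2)‖ := by congr 1; ring
      _ ≤ _ := norm_add_le _ _
      _ ≤ _ := by linarith
  have h11 : Real.log Real.pi ≤ 4 := by
    have := Real.log_le_sub_one_of_pos hpi
    linarith
  have h12 : 0 ≤ Real.log Real.pi := Real.log_nonneg (by linarith [Real.pi_gt_three])
  have h13 : ‖1 / w‖ ≤ 1 := by
    rw [norm_div, norm_one]
    exact (div_le_one (by linarith)).2 (by linarith)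
  have h14 : ‖1 / (w - 1)‖ ≤ 1 := by
    rw [norm_div, norm_one]
    have h15 : w.im ≤ ‖w - 1‖ := by
      have := (le_abs_self _).trans (Complex.abs_im_le_norm (w - 1))
      simpa using this
    exact (div_le_one (by linarith)).2 (by linarith)
  have h16 : ‖Complex.digamma (w / 2) / 2 - (Real.log Real.pi : ℂ) / 2‖ ≤
      (Real.log w.im + 10) / 2 + 2 := by
    refine (norm_sub_le _ _).trans ?_
    rw [norm_div, norm_div, Complex.norm_two, Complex.norm_real, Real.norm_eq_abs,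
      abs_of_nonneg h12]
    linarith
  calc ‖aa w‖ ≤ ‖1 / w + 1 / (w - 1)‖ +
        ‖Complex.digamma (w / 2) / 2 - (Real.log Real.pi : ℂ) / 2‖ := norm_add_le _ _
    _ ≤ (‖1 / w‖ + ‖1 / (w - 1)‖) +
        ‖Complex.digamma (w / 2) / 2 - (Real.log Real.pi : ℂ) / 2‖ := by
        gcongr; exact norm_add_le _ _
    _ ≤ 20 * Real.log w.im := by linarith

/-- bound for the logarithmic derivative to the right -/
lemma aa_right : ∃ C : ℝ, 0 < C ∧ ∀ w : ℂ, 5 ≤ w.re → ‖aa w‖ ≤ C + Real.log ‖w‖ := by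
  refine ⟨‖∑' k : ℕ, 1 / ((k : ℝ) + 1) ^ 2‖ + 20, by positivity, fun w h1 => ?_⟩
  have hpi := Real.pi_pos
  have hpi4 := Real.pi_le_four
  have hre : (w / 2).re = w.re / 2 := by simp
  have hn : w.re ≤ ‖w‖ := (le_abs_self _).trans (Complex.abs_re_le_norm w)
  have hL : 0 ≤ Real.log ‖w‖ := Real.log_nonneg (by linarith)
  have hU : w / 2 ∈ Psi.U := by
    show 2 < (w / 2).re
    rw [hre]; linarith
  have h3 := Psi.digamma_eq hU
  have hw2 : ‖w / 2‖ = ‖w‖ / 2 := by rw [norm_div, Complex.norm_two]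
  have h5 := log_half_bound (w := w / 2) (by rw [hw2]; linarith)
  have h6 : Real.log ‖w / 2‖ ≤ Real.log ‖w‖ := by
    refine Real.log_le_log (by rw [hw2]; linarith) ?_
    rw [hw2]; linarith
  have h7 : ‖Psi.T (w / 2)‖ ≤ ‖∑' k : ℕ, 1 / ((k : ℝ) + 1) ^ 2‖ := by
    refine (tsum_of_norm_bounded Psi.summable_u.hasSum fun k => ?_).trans (le_abs_self _)
    exact Psi.norm_h_le' hU k
  have h10 : ‖Complex.digamma (w / 2)‖ ≤ Real.log ‖w‖ + 4 +
      ‖∑' k : ℕ, 1 / ((k : ℝ) + 1) ^ 2‖ := by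
    rw [h3]
    refine (norm_add_le _ _).trans ?_
    linarith
  have h11 : Real.log Real.pi ≤ 4 := by
    have := Real.log_le_sub_one_of_pos hpi
    linarith
  have h12 : 0 ≤ Real.log Real.pi := Real.log_nonneg (by linarith [Real.pi_gt_three])
  have h13 : ‖1 / w‖ ≤ 1 := by
    rw [norm_div, norm_one]
    exact (div_le_one (by linarith)).2 (by linarith)
  have h14 : ‖1 / (w - 1)‖ ≤ 1 := by
    rw [norm_div, norm_one]
    have h15 : w.re - 1 ≤ ‖w - 1‖ := by
      have := (le_abs_self _).trans (Complex.abs_re_le_norm (w - 1))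
      simpa using this
    exact (div_le_one (by linarith)).2 (by linarith)
  have h16 : ‖Complex.digamma (w / 2) / 2 - (Real.log Real.pi : ℂ) / 2‖ ≤
      (Real.log ‖w‖ + 4 + ‖∑' k : ℕ, 1 / ((k : ℝ) + 1) ^ 2‖) / 2 + 2 := by
    refine (norm_sub_le _ _).trans ?_
    rw [norm_div, norm_div, Complex.norm_two, Complex.norm_real, Real.norm_eq_abs,
      abs_of_nonneg h12]
    linarith
  have h17 := norm_nonneg (∑' k : ℕ, 1 / ((k : ℝ) + 1) ^ 2)
  calc ‖aa w‖ ≤ ‖1 / w + 1 / (w - 1)‖ +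
        ‖Complex.digamma (w / 2) / 2 - (Real.log Real.pi : ℂ) / 2‖ := norm_add_le _ _
    _ ≤ (‖1 / w‖ + ‖1 / (w - 1)‖) +
        ‖Complex.digamma (w / 2) / 2 - (Real.log Real.pi : ℂ) / 2‖ := by
        gcongr; exact norm_add_le _ _
    _ ≤ _ := by linarith

/-- comparison of values of the archimedean factor along a segment in the strip -/
lemma AA_seg : ∃ C : ℝ, 0 < C ∧ ∀ (a b : ℂ) (M : ℝ), |a.re| ≤ 20 → |b.re| ≤ 20 → 4 ≤ a.im →
    4 ≤ b.im → a.im ≤ M → b.im ≤ M → ‖AA b‖ ≤ ‖AA a‖ * Real.exp (C * Real.log M * ‖b - a‖) := by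
  obtain ⟨C, hC, h⟩ := aa_strip
  refine ⟨C, hC, fun a b M h1 h2 h3 h4 h5 h6 => ?_⟩
  have hM : 0 < Real.log M := Real.log_pos (by linarith)
  refine (seg_bound (mul_pos hC hM) fun w hw => ?_).1
  obtain ⟨p, q, hp, hq, hpq, rfl⟩ := hw
  have e1 : (p • a + q • b).re = p * a.re + q * b.re := by simp
  have e2 : (p • a + q • b).im = p * a.im + q * b.im := by simp
  have hw1 : |(p • a + q • b).re| ≤ 20 := by
    rw [e1]
    calc |p * a.re + q * b.re| ≤ |p * a.re| + |q * b.re| := abs_add_le _ _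
      _ = p * |a.re| + q * |b.re| := by rw [abs_mul, abs_mul, abs_of_nonneg hp, abs_of_nonneg hq]
      _ ≤ p * 20 + q * 20 := by gcongr
      _ = 20 := by rw [← add_mul, hpq, one_mul]
  have hw2 : 4 ≤ (p • a + q • b).im := by
    rw [e2]
    calc (4 : ℝ) = p * 4 + q * 4 := by rw [← add_mul, hpq, one_mul]
      _ ≤ _ := by gcongr
  have hw3 : (p • a + q • b).im ≤ M := by
    rw [e2]
    calc p * a.im + q * b.im ≤ p * M + q * M := by gcongr
      _ = M := by rw [← add_mul, hpq, one_mul]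
  have hd := hasDerivAt_AA (s := p • a + q • b) (Or.inl (by linarith))
  refine ⟨hd.differentiableAt, ?_⟩
  rw [hd.deriv, norm_mul, mul_comm]
  gcongr
  refine (h _ hw1 hw2).trans ?_
  gcongr

/-- growth of `ξ` along vertical lines -/
theorem growth : ∃ C T1 : ℝ, 0 < C ∧ 100 ≤ T1 ∧ ∀ t ≥ T1, ∀ σ : ℝ, 1 / 10 ≤ σ → σ ≤ 20 →
    ∀ y : ℝ, ‖xi (pt σ (t + y))‖ ≤ ‖AA (pt σ t)‖ * Real.exp (C * Real.log t * (1 + |y|)) := by
  obtain ⟨C1, hC1, hseg⟩ := AA_seg
  obtain ⟨C2, hC2, hz⟩ := Pool.Agent.ZP.zeta_growth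
  obtain ⟨C3, hC3, hs⟩ := xi_strip (1 / 10) 20
  -- lower bound at height 4
  obtain ⟨c0, hc0, hlow⟩ : ∃ c0 : ℝ, 0 < c0 ∧ ∀ σ : ℝ, 1 / 10 ≤ σ → σ ≤ 20 →
      c0 ≤ ‖AA (pt σ 4)‖ := by
    have hcont : ContinuousOn (fun σ : ℝ => ‖AA (pt σ 4)‖) (Set.Icc (1 / 10) 20) := by
      intro σ _
      refine ContinuousAt.continuousWithinAt ?_
      have h1 : ContinuousAt AA (pt σ 4) :=
        (hasDerivAt_AA (Or.inl (by rw [pt_im]; norm_num))).continuousAt
      have h2 : Continuous fun σ : ℝ => pt σ 4 := by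
        have : (fun σ : ℝ => pt σ 4) = fun σ : ℝ => (σ : ℂ) + 4 * Complex.I := by
          funext σ
          apply Complex.ext <;> simp
        rw [this]
        fun_prop
      exact (ContinuousAt.comp (g := AA) (f := fun σ : ℝ => pt σ 4) h1 h2.continuousAt).norm
    obtain ⟨σ0, hσ0, hmin⟩ := isCompact_Icc.exists_isMinOn
      (Set.nonempty_Icc.2 (by norm_num : (1 / 10 : ℝ) ≤ 20)) hcont
    refine ⟨‖AA (pt σ0 4)‖, norm_pos_iff.2 (AA_ne (Or.inl (by rw [pt_im]; norm_num))), ?_⟩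
    intro σ h1 h2
    exact hmin ⟨h1, h2⟩
  set D1 : ℝ := 2 * C1 + Real.log (4 * C2 + 1) + 4 with hD1
  set D2 : ℝ := C3 * 441 + 2 * C1 + |Real.log c0| + 2 with hD2
  have hl1 : 0 < Real.log (4 * C2 + 1) := Real.log_pos (by linarith)
  refine ⟨D1 + D2, 100, by positivity, le_rfl, fun t ht σ h1 h2 y => ?_⟩
  have hL : 1 ≤ Real.log t := by
    rw [Real.le_log_iff_exp_le (by linarith)]
    have := Real.exp_one_lt_d9
    linarith
  have hy := abs_nonneg y
  have hA0 : 0 < ‖AA (pt σ t)‖ :=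
    norm_pos_iff.2 (AA_ne (Or.inl (by rw [pt_im]; linarith)))
  have hσ : |σ| ≤ 20 := by rw [abs_of_nonneg (by linarith)]; exact h2
  rcases le_or_gt |y| (t / 2) with hyt | hyt
  · have hy' := abs_le.1 hyt
    have hw : pt σ (t + y) ∈ Reg := Or.inl (by rw [pt_im]; linarith)
    rw [xi_eq_AA hw, norm_mul]
    have k1 := hseg (pt σ t) (pt σ (t + y)) (t ^ 2) hσ hσ (by rw [pt_im]; linarith)
      (by rw [pt_im]; linarith) (by rw [pt_im]; nlinarith) (by rw [pt_im]; nlinarith)
    have e1 : ‖pt σ (t + y) - pt σ t‖ = |y| := by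
      have : pt σ (t + y) - pt σ t = (y : ℂ) * Complex.I := by
        apply Complex.ext <;> simp
      rw [this, norm_mul, Complex.norm_I, mul_one, Complex.norm_real, Real.norm_eq_abs]
    rw [e1, Real.log_pow] at k1
    have k2 := hz (pt σ (t + y)) h1 h2 (by rw [pt_im]; linarith)
    rw [pt_im] at k2
    have k3 : ‖riemannZeta (pt σ (t + y))‖ ≤
        Real.exp (Real.log (4 * C2 + 1) * Real.log t + 2 * Real.log t) := by
      refine k2.trans ?_
      rw [Real.exp_add]
      have e2 : Real.exp (2 * Real.log t) = t ^ 2 := by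
        rw [mul_comm, Real.exp_mul, Real.exp_log (by linarith)]; norm_num
      have e3 : 4 * C2 + 1 ≤ Real.exp (Real.log (4 * C2 + 1) * Real.log t) := by
        calc 4 * C2 + 1 = Real.exp (Real.log (4 * C2 + 1) * 1) := by
              rw [mul_one, Real.exp_log (by linarith)]
          _ ≤ _ := by
              rw [Real.exp_le_exp]
              gcongr
      rw [e2]
      have e4 : (t + y) ^ 2 ≤ (2 * t) ^ 2 := by
        have : 0 ≤ t + y := by linarith
        gcongr
        linarith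
      calc C2 * (t + y) ^ 2 ≤ C2 * (2 * t) ^ 2 := by gcongr
        _ = (4 * C2) * t ^ 2 := by ring
        _ ≤ Real.exp (Real.log (4 * C2 + 1) * Real.log t) * t ^ 2 := by gcongr; linarith
    calc ‖AA (pt σ (t + y))‖ * ‖riemannZeta (pt σ (t + y))‖
        ≤ (‖AA (pt σ t)‖ * Real.exp (C1 * (((2 : ℕ) : ℝ) * Real.log t) * |y|)) *
          Real.exp (Real.log (4 * C2 + 1) * Real.log t + 2 * Real.log t) := by gcongr
      _ = ‖AA (pt σ t)‖ * Real.exp (C1 * (((2 : ℕ) : ℝ) * Real.log t) * |y| +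
          (Real.log (4 * C2 + 1) * Real.log t + 2 * Real.log t)) := by
          rw [mul_assoc, ← Real.exp_add]
      _ ≤ _ := by
          gcongr
          push_cast
          have hD2' : 0 ≤ D2 := by positivity
          have m1 : C1 * (2 * Real.log t) * |y| + (Real.log (4 * C2 + 1) * Real.log t +
              2 * Real.log t) ≤ D1 * Real.log t * (1 + |y|) := by
            rw [hD1]
            have m2 : 0 ≤ Real.log t * |y| := by positivity
            have m3 : 0 ≤ Real.log (4 * C2 + 1) * (Real.log t * |y|) := by positivity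
            have m4 : 0 ≤ C1 * Real.log t := by positivity
            nlinarith
          have m5 : 0 ≤ D2 * Real.log t * (1 + |y|) := by positivity
          linarith
  · have hyt' : t ≤ 2 * |y| := by linarith
    -- lower bound for the archimedean factor
    have k1 := hseg (pt σ t) (pt σ 4) t hσ hσ (by rw [pt_im]; linarith)
      (by rw [pt_im]) (by rw [pt_im]) (by rw [pt_im]; linarith)
    have e1 : ‖pt σ 4 - pt σ t‖ ≤ t := by
      have : pt σ 4 - pt σ t = ((4 - t : ℝ) : ℂ) * Complex.I := by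
        apply Complex.ext <;> simp
      rw [this, norm_mul, Complex.norm_I, mul_one, Complex.norm_real, Real.norm_eq_abs,
        abs_of_nonpos (by linarith)]
      linarith
    have k2 : c0 ≤ ‖AA (pt σ t)‖ * Real.exp (C1 * Real.log t * (2 * |y|)) := by
      refine (hlow σ h1 h2).trans (k1.trans ?_)
      gcongr
      exact e1.trans hyt'
    have k3 := hs (pt σ (t + y)) h1 h2
    have e2 : ‖pt σ (t + y)‖ ≤ 20 + 3 * |y| := by
      refine (Complex.norm_le_abs_re_add_abs_im _).trans ?_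
      rw [pt_re, pt_im]
      have : |t + y| ≤ t + |y| := by
        refine (abs_add_le _ _).trans ?_
        rw [abs_of_nonneg (show 0 ≤ t by linarith)]
      linarith
    have k4 : ‖xi (pt σ (t + y))‖ ≤ Real.exp ((C3 * 441 + 2) * (1 + |y|)) := by
      refine k3.trans ?_
      have e3 : (1 + ‖pt σ (t + y)‖) ^ 2 ≤ 441 * (1 + |y|) ^ 2 := by
        have : 1 + ‖pt σ (t + y)‖ ≤ 21 * (1 + |y|) := by linarith
        calc (1 + ‖pt σ (t + y)‖) ^ 2 ≤ (21 * (1 + |y|)) ^ 2 := by gcongr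
          _ = _ := by ring
      have e4 : (1 + |y|) ^ 2 ≤ Real.exp (2 * (1 + |y|)) := by
        have : 1 + |y| ≤ Real.exp (1 + |y|) := by
          have := Real.add_one_le_exp (1 + |y|)
          linarith
        calc (1 + |y|) ^ 2 ≤ Real.exp (1 + |y|) ^ 2 := by gcongr
          _ = _ := by rw [← Real.exp_nat_mul]; push_cast; ring_nf
      have e5 : C3 * 441 ≤ Real.exp (C3 * 441 * (1 + |y|)) := by
        have h5 := Real.add_one_le_exp (C3 * 441 * (1 + |y|))
        have : 0 ≤ C3 * 441 * |y| := by positivity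
        nlinarith
      calc C3 * (1 + ‖pt σ (t + y)‖) ^ 2 ≤ C3 * (441 * (1 + |y|) ^ 2) := by gcongr
        _ = (C3 * 441) * (1 + |y|) ^ 2 := by ring
        _ ≤ Real.exp (C3 * 441 * (1 + |y|)) * Real.exp (2 * (1 + |y|)) := by gcongr
        _ = _ := by rw [← Real.exp_add]; congr 1; ring
    have k5 : 1 ≤ ‖AA (pt σ t)‖ * Real.exp (C1 * Real.log t * (2 * |y|) + |Real.log c0|) := by
      rw [Real.exp_add, ← mul_assoc]
      have e6 : 1 ≤ c0 * Real.exp |Real.log c0| := by
        have : Real.exp (-Real.log c0) ≤ Real.exp |Real.log c0| :=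
          Real.exp_le_exp.2 (neg_le_abs _)
        rw [Real.exp_neg, Real.exp_log hc0] at this
        calc (1 : ℝ) = c0 * c0⁻¹ := (mul_inv_cancel₀ hc0.ne').symm
          _ ≤ _ := by gcongr
      exact e6.trans (by gcongr)
    calc ‖xi (pt σ (t + y))‖ ≤ 1 * Real.exp ((C3 * 441 + 2) * (1 + |y|)) := by
          rw [one_mul]; exact k4
      _ ≤ (‖AA (pt σ t)‖ * Real.exp (C1 * Real.log t * (2 * |y|) + |Real.log c0|)) *
          Real.exp ((C3 * 441 + 2) * (1 + |y|)) := by gcongr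
      _ = ‖AA (pt σ t)‖ * Real.exp (C1 * Real.log t * (2 * |y|) + |Real.log c0| +
          (C3 * 441 + 2) * (1 + |y|)) := by rw [mul_assoc, ← Real.exp_add]
      _ ≤ _ := by
          gcongr
          have m1 : C1 * Real.log t * (2 * |y|) + |Real.log c0| +
              (C3 * 441 + 2) * (1 + |y|) ≤ D2 * Real.log t * (1 + |y|) := by
            rw [hD2]
            have m2 : 1 * (1 + |y|) ≤ Real.log t * (1 + |y|) := by gcongr
            have m3 : |Real.log c0| * (1 + |y|) ≤ |Real.log c0| * (Real.log t * (1 + |y|)) := by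
              gcongr; linarith
            have m4 : (C3 * 441 + 2) * (1 + |y|) ≤
                (C3 * 441 + 2) * (Real.log t * (1 + |y|)) := by gcongr; linarith
            have m5 : 0 ≤ C1 * Real.log t := by positivity
            have m6 : 0 ≤ |Real.log c0| * |y| := by positivity
            nlinarith
          have m5 : 0 ≤ D1 * Real.log t * (1 + |y|) := by positivity
          linarith

end Pool.Agent.HF
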