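import Pool.Agent.Lib.MP_af3d17_nt_h54.Ratio

/-!
# MP_af3d17_nt, heat flow: `ξ_h` is close to `ξ` away from the zeros
-/

set_option autoImplicit false

namespace Pool.Agent.HF

open MeasureTheory ProbabilityTheory Filter Topology Metric
open Pool.Agent.ZP

/-- the error term is small -/
lemma params (C' K A c η : ℝ) (hC' : 0 < C') (hc : 0 < c) (hη : 0 < η) (hA : 0 ≤ A) :
    ∃ T1 : ℝ, 100 ≤ T1 ∧ ∀ t ≥ T1, ∀ h : ℝ, 0 < h → h ≤ t ^ (-c) →
      h ≤ 1 / 4 ∧ C' * Real.log t * h ≤ 1 ∧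
      KK * (4 * (C' * Real.log t * h) * Real.exp (2 * (K + 1) ^ 2) +
        Real.exp (C' * (1 + A) * Real.log t ^ 2 - 1 / (16 * h ^ 2)) +
        Real.exp (2 * K ^ 2 - 1 / (8 * h ^ 2))) ≤ η := by
  have hX : Tendsto (fun t : ℝ => t ^ c) atTop atTop := tendsto_rpow_atTop hc
  have f0 : Tendsto (fun t : ℝ => t ^ (-c)) atTop (𝓝 0) := tendsto_rpow_neg_atTop hc
  have f1 : Tendsto (fun t : ℝ => C' * Real.log t * t ^ (-c)) atTop (𝓝 0) := by
    have h1 := (isLittleO_log_rpow_atTop hc).tendsto_div_nhds_zero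
    have h2 := h1.const_mul C'
    rw [mul_zero] at h2
    refine h2.congr' ?_
    filter_upwards [eventually_gt_atTop 0] with t ht
    rw [Real.rpow_neg ht.le, mul_assoc, div_eq_mul_inv]
  have f2 : Tendsto (fun t : ℝ => C' * (1 + A) * Real.log t ^ 2 - (t ^ c) ^ 2 / 16) atTop
      atBot := by
    have h1 : ∀ᶠ t : ℝ in atTop, Real.log t ^ 2 ≤ t ^ c := by
      have h2 := (isLittleO_log_rpow_atTop (show 0 < c / 2 by positivity)).def
        (show (0 : ℝ) < 1 by norm_num)
      filter_upwards [h2, eventually_ge_atTop 1] with t h3 h4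
      rw [one_mul, Real.norm_eq_abs, Real.norm_eq_abs, abs_of_nonneg (Real.log_nonneg h4),
        abs_of_nonneg (Real.rpow_nonneg (by linarith) _)] at h3
      have h5 : t ^ c = (t ^ (c / 2)) ^ 2 := by
        rw [← Real.rpow_natCast, ← Real.rpow_mul (by linarith)]
        congr 1
        push_cast
        ring
      rw [h5]
      have := Real.log_nonneg h4
      gcongr
    have h6 : Tendsto (fun X : ℝ => C' * (1 + A) * X - X ^ 2 / 16) atTop atBot := by
      have h7 : Tendsto (fun X : ℝ => X * (C' * (1 + A) - X / 16)) atTop atBot := by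
        refine Tendsto.atTop_mul_atBot₀ tendsto_id ?_
        have h8 : Tendsto (fun X : ℝ => X / 16) atTop atTop :=
          tendsto_id.atTop_div_const (by norm_num)
        exact tendsto_atBot_add_const_left _ _ (tendsto_neg_atTop_atBot.comp h8)
      refine h7.congr fun X => ?_
      ring
    refine tendsto_atBot_mono' _ ?_ (h6.comp hX)
    filter_upwards [h1] with t h3
    simp only [Function.comp_apply]
    gcongr
  have f3 : Tendsto (fun t : ℝ => 2 * K ^ 2 - (t ^ c) ^ 2 / 8) atTop atBot := by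
    have h8 : Tendsto (fun t : ℝ => (t ^ c) ^ 2 / 8) atTop atTop :=
      ((tendsto_pow_atTop two_ne_zero).comp hX).atTop_div_const (by norm_num)
    exact tendsto_atBot_add_const_left _ _ (tendsto_neg_atTop_atBot.comp h8)
  have f4 : Tendsto (fun t : ℝ => KK * (4 * (C' * Real.log t * t ^ (-c)) *
      Real.exp (2 * (K + 1) ^ 2) +
      Real.exp (C' * (1 + A) * Real.log t ^ 2 - (t ^ c) ^ 2 / 16) +
      Real.exp (2 * K ^ 2 - (t ^ c) ^ 2 / 8))) atTop (𝓝 0) := by
    have g1 := (f1.const_mul 4).mul_const (Real.exp (2 * (K + 1) ^ 2))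
    have g2 := Real.tendsto_exp_atBot.comp f2
    have g3 := Real.tendsto_exp_atBot.comp f3
    have g4 := ((g1.add g2).add g3).const_mul KK
    simpa using g4
  obtain ⟨T1, hT1⟩ := eventually_atTop.1 ((f0.eventually_le_const (show (0 : ℝ) < 1 / 4 by
    norm_num)).and ((f1.eventually_le_const one_pos).and (f4.eventually_le_const hη)))
  refine ⟨max T1 100, le_max_right _ _, fun t ht h hh0 hh => ?_⟩
  obtain ⟨a1, a2, a3⟩ := hT1 t ((le_max_left _ _).trans ht)
  have ht100 : 100 ≤ t := (le_max_right _ _).trans ht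
  have ht0 : 0 < t := by linarith
  have hlog := one_le_log ht100
  have hKK := KK_pos
  refine ⟨hh.trans a1, ?_, ?_⟩
  · refine le_trans ?_ a2
    gcongr
  · refine le_trans ?_ a3
    have e1 : (t ^ c) ^ 2 ≤ 1 / h ^ 2 := by
      rw [le_div_iff₀ (by positivity), ← mul_pow]
      refine pow_le_one₀ (by positivity) ?_
      calc t ^ c * h ≤ t ^ c * t ^ (-c) := by gcongr
        _ = 1 := by rw [← Real.rpow_add ht0]; simp
    have e2 : (t ^ c) ^ 2 / 16 ≤ 1 / (16 * h ^ 2) := by
      have : 1 / (16 * h ^ 2) = 1 / h ^ 2 / 16 := by rw [div_div, mul_comm]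
      rw [this]; linarith
    have e3 : (t ^ c) ^ 2 / 8 ≤ 1 / (8 * h ^ 2) := by
      have : 1 / (8 * h ^ 2) = 1 / h ^ 2 / 8 := by rw [div_div, mul_comm]
      rw [this]; linarith
    gcongr

lemma xi_ne_right {w : ℂ} (hw : 1 < w.re) : xi w ≠ 0 := by
  rw [xi_eq_AA (Or.inr hw)]
  exact mul_ne_zero (AA_ne (Or.inr hw)) (riemannZeta_ne_zero_of_one_le_re hw.le)

lemma right_arith {C L y : ℝ} (hC : 0 < C) (hL : 1 ≤ L) :
    (C + L + y) * y ≤ (C + 1) ^ 2 * (1 + 0) * L ^ 2 + 2 * y ^ 2 := by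
  have m1 : (C + L) * y ≤ (C + L) ^ 2 / 4 + y ^ 2 := by nlinarith [sq_nonneg ((C + L) / 2 - y)]
  have m2 : C + L ≤ (C + 1) * L := by nlinarith
  have m3 : (C + L) ^ 2 ≤ ((C + 1) * L) ^ 2 := by gcongr
  rw [mul_pow] at m3
  have m4 : 0 ≤ (C + 1) ^ 2 * L ^ 2 := by positivity
  have e : (C + L + y) * y = (C + L) * y + y ^ 2 := by ring
  rw [e, add_zero, mul_one]
  linarith

/-- the half plane to the right -/
theorem right_near {c η : ℝ} (hc : 0 < c) (hη : 0 < η) : ∃ R : ℝ, 100 ≤ R ∧ ∀ w : ℂ, 5 ≤ w.re →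
    R ≤ ‖w‖ → ∀ h : ℝ, 0 < h → h ≤ ‖w‖ ^ (-c) → ‖xiH h w / xi w - 1‖ ≤ η := by
  obtain ⟨C1, hC1, haa⟩ := aa_right
  obtain ⟨C2, hC2, hld⟩ := logDeriv_bound
  set C := C1 + C2 + 1 with hC
  have hC0 : 0 < C := by positivity
  obtain ⟨R, hR, hpar⟩ := params ((C + 1) ^ 2) 0 0 c η (by positivity) hc hη le_rfl
  obtain ⟨R2, hR2, hpar2⟩ := params (128 * ((C + 1) ^ 2)) 0 0 c η (by positivity) hc hη le_rfl
  refine ⟨max R R2, hR.trans (le_max_left _ _), fun w hw hwR h hh hhw => ?_⟩
  obtain ⟨p1, p2, p3⟩ := hpar ‖w‖ ((le_max_left _ _).trans hwR) h hh hhw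
  obtain ⟨-, p4, -⟩ := hpar2 ‖w‖ ((le_max_right _ _).trans hwR) h hh hhw
  have hw100 : 100 ≤ ‖w‖ := hR.trans ((le_max_left _ _).trans hwR)
  have hlog := one_le_log hw100
  set L := Real.log ‖w‖ with hL
  have hxi0 := xi_ne_right (w := w) (by linarith)
  have hC1' : 1 ≤ (C + 1) ^ 2 := one_le_pow₀ (by linarith)
  have hh6 : h ≤ 1 / 128 := by
    have : 128 * 1 * 1 * h ≤ 128 * ((C + 1) ^ 2) * L * h := by gcongr
    linarith
  -- the logarithmic derivative on the segment
  have key : ∀ y : ℝ, ‖xi (w + y * Complex.I)‖ ≤ ‖xi w‖ * Real.exp ((C + L + |y|) * |y|) ∧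
      ‖xi (w + y * Complex.I) - xi w‖ ≤ ‖xi w‖ * (Real.exp ((C + L + |y|) * |y|) - 1) := by
    intro y
    have h1 := seg_bound (g := xi) (a := w) (b := w + y * Complex.I) (B := C + L + |y|)
      (by positivity) (fun v hv => by
        have hre : v.re = w.re := by
          obtain ⟨p, q, hp, hq, hpq, rfl⟩ := hv
          simp only [Complex.add_re, Complex.real_smul, Complex.mul_re, Complex.ofReal_re,
            Complex.ofReal_im, zero_mul, sub_zero, Complex.I_re, Complex.I_im, mul_zero, mul_one,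
            sub_self, add_zero]
          rw [← add_mul, hpq, one_mul]
        have hnv : ‖v‖ ≤ ‖w‖ + |y| := by
          obtain ⟨p, q, hp, hq, hpq, rfl⟩ := hv
          have e : p • w + q • (w + y * Complex.I) = w + q * (y * Complex.I) := by
            have : (p : ℂ) + q = 1 := by exact_mod_cast hpq
            simp only [Complex.real_smul]
            linear_combination w * this
          rw [e]
          refine (norm_add_le _ _).trans ?_
          rw [norm_mul, norm_mul, Complex.norm_I, mul_one, Complex.norm_real, Complex.norm_real,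
            Real.norm_eq_abs, Real.norm_eq_abs, abs_of_nonneg hq]
          have : q * |y| ≤ 1 * |y| := by gcongr; linarith
          linarith
        have hv5 : 5 ≤ v.re := by rw [hre]; exact hw
        have hvR : v ∈ Reg := Or.inr (by linarith)
        refine ⟨differentiable_xi v, ?_⟩
        have hvn : 5 ≤ ‖v‖ := hv5.trans ((le_abs_self _).trans (Complex.abs_re_le_norm v))
        have d1 := hasDerivAt_AA hvR
        have hv1 : v ≠ 1 := (Reg_ne hvR).2.1
        have d2 := (differentiableAt_riemannZeta hv1).hasDerivAt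
        have d3 := d1.fun_mul d2
        have hEq : xi =ᶠ[𝓝 v] fun s => AA s * riemannZeta s := by
          have hopen : IsOpen {s : ℂ | 1 < s.re} := isOpen_lt continuous_const Complex.continuous_re
          filter_upwards [hopen.mem_nhds (show v ∈ {s : ℂ | 1 < s.re} by
            show 1 < v.re; linarith)] with s hs
          exact xi_eq_AA (Or.inr hs)
        rw [hEq.deriv_eq, d3.deriv, xi_eq_AA hvR]
        have h8 := riemannZeta_ne_zero_of_one_le_re (s := v) (by linarith)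
        have h9 : deriv riemannZeta v = logDeriv riemannZeta v * riemannZeta v := by
          rw [logDeriv_apply, div_mul_cancel₀ _ h8]
        have e : AA v * aa v * riemannZeta v + AA v * deriv riemannZeta v =
            (aa v + logDeriv riemannZeta v) * (AA v * riemannZeta v) := by rw [h9]; ring
        rw [e, norm_mul]
        gcongr
        refine (norm_add_le _ _).trans ?_
        have q1 := haa v hv5
        have q2 := hld v (by linarith)
        have q3 : Real.log ‖v‖ ≤ L + |y| := by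
          have h10 : Real.log ‖v‖ ≤ Real.log (‖w‖ * (1 + |y|)) := by
            refine Real.log_le_log (by linarith) ?_
            have : 1 * |y| ≤ ‖w‖ * |y| := by gcongr; linarith
            linarith
          rw [Real.log_mul (by linarith) (by positivity)] at h10
          have h11 := Real.log_le_sub_one_of_pos (show 0 < 1 + |y| by positivity)
          linarith
        rw [hC]
        linarith)
    have e1 : ‖w + y * Complex.I - w‖ = |y| := by
      rw [add_sub_cancel_left, norm_mul, Complex.norm_I, mul_one, Complex.norm_real,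
        Real.norm_eq_abs]
    rw [e1] at h1
    exact h1
  set f : ℝ → ℂ := fun x => xi (w + h * x * Complex.I) / xi w with hf
  have hfc : Continuous f := (continuous_shift h w).div_const _
  have hcast : ∀ x : ℝ, w + h * x * Complex.I = w + ((h * x : ℝ) : ℂ) * Complex.I := by
    intro x; push_cast; ring
  have hCL : C + L + 1 ≤ (C + 1) ^ 2 * L := by
    have h1 : (C + 1) * 1 ≤ (C + 1) * L := by gcongr
    nlinarith
  have hmain : ∀ x : ℝ, |h * x| ≤ 1 →
      ‖f x - 1‖ ≤ Real.exp (0 * |x|) * (Real.exp ((C + 1) ^ 2 * L * h * |x|) - 1) := by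
    intro x hx
    have h1 := (key (h * x)).2
    have e2 : f x - 1 = (xi (w + ((h * x : ℝ) : ℂ) * Complex.I) - xi w) / xi w := by
      rw [hf, sub_div, div_self hxi0]
      simp only
      rw [hcast]
    rw [e2, norm_div, zero_mul, Real.exp_zero, one_mul, div_le_iff₀ (norm_pos_iff.2 hxi0)]
    refine h1.trans ?_
    have e3 : (C + 1) ^ 2 * L * h * |x| = (C + 1) ^ 2 * L * |h * x| := by
      rw [abs_mul, abs_of_pos hh]; ring
    rw [mul_comm ‖xi w‖, e3]
    have e4 : (C + L + |h * x|) * |h * x| ≤ (C + 1) ^ 2 * L * |h * x| :=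
      mul_le_mul_of_nonneg_right (by linarith) (abs_nonneg _)
    have e5 := Real.exp_le_exp.2 e4
    exact mul_le_mul_of_nonneg_right (by linarith) (norm_nonneg _)
  have htail : ∀ x : ℝ, 1 < |h * x| →
      ‖f x‖ ≤ Real.exp ((C + 1) ^ 2 * (1 + 0) * L ^ 2 + 2 * (h * x) ^ 2) := by
    intro x hx
    have h1 := (key (h * x)).1
    rw [hf]
    simp only
    rw [norm_div, hcast, div_le_iff₀ (norm_pos_iff.2 hxi0)]
    refine h1.trans ?_
    rw [mul_comm ‖xi w‖]
    have hyy : (h * x) ^ 2 = |h * x| ^ 2 := (sq_abs _).symm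
    rw [hyy]
    exact mul_le_mul_of_nonneg_right (Real.exp_le_exp.2 (right_arith hC0 hlog))
      (norm_nonneg _)
  have hfin := (compare hfc (continuous_const (y := (1 : ℂ))) (by positivity) hh hmain htail
    (by nlinarith) (fun x => by simp) p2).2.2
  have e5 : ∫ x, f x ∂gm = xiH h w / xi w := by
    rw [hf, integral_div, xiH]
  have e6 : ∫ _x : ℝ, (1 : ℂ) ∂gm = 1 := by simp
  rw [e5, e6] at hfin
  exact hfin.trans p3

lemma norm_EP_sub_one {k : ℕ} (u : Fin k → ℂ) {κ : ℝ} (hκ : ∑ i, ‖u i‖ ≤ κ) (hκ1 : κ ≤ 1) :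
    ‖EP u - 1‖ ≤ (68 * Real.exp 2 * KK + 1) * κ := by
  have h0 : 0 ≤ ∑ i, ‖u i‖ := Finset.sum_nonneg fun i _ => norm_nonneg _
  have hκ0 : 0 ≤ κ := h0.trans hκ
  have h1 := EP_sub_quad u
  have hKK := KK_pos
  set κ' := ∑ i, ‖u i‖
  have h2 : ‖((∑ i, u i) ^ 2 - ∑ i, u i ^ 2) / 2‖ ≤ κ' ^ 2 := by
    rw [norm_div, Complex.norm_two]
    have h3 : ‖(∑ i, u i) ^ 2‖ ≤ κ' ^ 2 := by
      rw [norm_pow]
      gcongr
      exact norm_sum_le _ _
    have h4 : ‖∑ i, u i ^ 2‖ ≤ κ' ^ 2 := by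
      refine (norm_sum_le _ _).trans ?_
      calc ∑ i, ‖u i ^ 2‖ = ∑ i, ‖u i‖ * ‖u i‖ := by
            refine Finset.sum_congr rfl fun i _ => ?_
            rw [norm_pow, sq]
        _ ≤ ∑ i, ‖u i‖ * κ' := by
            refine Finset.sum_le_sum fun i hi => ?_
            gcongr
            exact Finset.single_le_sum (f := fun i => ‖u i‖) (fun i _ => norm_nonneg _) hi
        _ = κ' ^ 2 := by rw [← Finset.sum_mul, sq]
    have h5 := norm_sub_le ((∑ i, u i) ^ 2) (∑ i, u i ^ 2)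
    linarith
  have e : EP u - 1 = (EP u - (1 + ((∑ i, u i) ^ 2 - ∑ i, u i ^ 2) / 2)) +
      ((∑ i, u i) ^ 2 - ∑ i, u i ^ 2) / 2 := by ring
  rw [e]
  refine (norm_add_le _ _).trans ?_
  have h6 : κ' ^ 2 ≤ κ := by
    calc κ' ^ 2 ≤ κ ^ 2 := by gcongr
      _ = κ * κ := sq κ
      _ ≤ 1 * κ := by gcongr
      _ = κ := one_mul κ
  have h7 : 68 * κ' ^ 3 * Real.exp (2 * κ' ^ 2) * KK ≤ 68 * κ * Real.exp (2 * 1) * KK := by
    have h8 : κ' ^ 3 ≤ κ := by
      calc κ' ^ 3 ≤ κ ^ 3 := by gcongr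
        _ = κ ^ 2 * κ := by ring
        _ ≤ 1 ^ 2 * κ := by gcongr
        _ = κ := by ring
    gcongr
    linarith
  rw [mul_one] at h7
  linarith

/-- the strip -/
theorem strip_near {C a a' η : ℝ} (hC : 0 < C) (haa : a < a') (ha' : a' < 0) (hη : 0 < η) :
    ∃ R : ℝ, 100 ≤ R ∧ ∀ t ≥ R, ∀ (k : ℕ) (z : Fin k → ℂ) (g : ℂ → ℂ), Loc C t z g →
    ∀ σ : ℝ, 1 / 2 ≤ σ → σ ≤ 5 → (∀ i, t ^ a' ≤ ‖pt σ t - z i‖) → ∀ h : ℝ, 0 < h → h ≤ t ^ a →
    xi (pt σ t) ≠ 0 ∧ ‖xiH h (pt σ t) / xi (pt σ t) - 1‖ ≤ η := by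
  obtain ⟨C', hC', T1, hT1, hrat⟩ := ratio hC
  obtain ⟨T2, hT2, hpar⟩ := params C' 1 (-a') (-a) (η / 2) hC' (by linarith) (by positivity)
    (by linarith)
  set M := 68 * Real.exp 2 * KK + 1 with hM
  have hKK := KK_pos
  have hM0 : 0 < M := by positivity
  have hlim : Tendsto (fun t : ℝ => C * Real.log t * t ^ (-(a' - a))) atTop (𝓝 0) := by
    have h1 := (isLittleO_log_rpow_atTop (sub_pos.2 haa)).tendsto_div_nhds_zero
    have h2 := h1.const_mul C
    rw [mul_zero] at h2
    refine h2.congr' ?_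
    filter_upwards [eventually_gt_atTop 0] with t ht
    rw [Real.rpow_neg ht.le, mul_assoc, div_eq_mul_inv]
  obtain ⟨T3, hT3⟩ := eventually_atTop.1 (hlim.eventually_le_const
    (show (0 : ℝ) < min 1 (η / 2 / M) by positivity))
  refine ⟨max (max T1 T2) T3, hT1.trans ((le_max_left _ _).trans (le_max_left _ _)), ?_⟩
  intro t ht k z g hL σ h1 h2 hd h hh hht
  have ht1 : T1 ≤ t := ((le_max_left _ _).trans (le_max_left _ _)).trans ht
  have ht2 : T2 ≤ t := ((le_max_right _ _).trans (le_max_left _ _)).trans ht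
  have ht3 : T3 ≤ t := (le_max_right _ _).trans ht
  have ht0 : 0 < t := by linarith
  have hlog := one_le_log (hT1.trans ht1)
  obtain ⟨q1, q2, q3⟩ := hpar t ht2 h hh (by rw [neg_neg]; exact hht)
  have hκ0 : ∑ i, ‖(h * Complex.I) / (pt σ t - z i)‖ ≤ C * Real.log t * t ^ (-(a' - a)) := by
    have hta : 0 < t ^ a' := Real.rpow_pos_of_pos ht0 _
    calc ∑ i, ‖(h * Complex.I) / (pt σ t - z i)‖ ≤ ∑ _i : Fin k, t ^ a / t ^ a' := by
          refine Finset.sum_le_sum fun i _ => ?_
          rw [norm_div, norm_mul, Complex.norm_I, mul_one, Complex.norm_real, Real.norm_eq_abs,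
            abs_of_pos hh]
          have := hd i
          gcongr
      _ = k * (t ^ a / t ^ a') := by simp
      _ ≤ (C * Real.log t) * (t ^ a / t ^ a') := by
          gcongr
          exact hL.hk
      _ = _ := by
          rw [← Real.rpow_sub ht0]
          congr 2
          ring
  have hmin1 : min 1 (η / 2 / M) ≤ 1 := min_le_left _ _
  have hmin2 : min 1 (η / 2 / M) ≤ η / 2 / M := min_le_right _ _
  have hκ1 := hκ0.trans ((hT3 t ht3).trans hmin1)
  obtain ⟨r1, r2⟩ := hrat t ht1 k z g hL σ h1 h2 h 1 (-a') hh (by linarith)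
    (fun i => by rw [neg_neg]; exact hd i) hκ1 q1 q2
  refine ⟨r1, ?_⟩
  set u : Fin k → ℂ := fun i => (h * Complex.I) / (pt σ t - z i) with hu
  have h3 := norm_EP_sub_one u (hκ0.trans (hT3 t ht3)) hmin1
  rw [← hM] at h3
  have h4 : M * min 1 (η / 2 / M) ≤ η / 2 := by
    calc M * min 1 (η / 2 / M) ≤ M * (η / 2 / M) := by gcongr
      _ = η / 2 := by field_simp
  have e : xiH h (pt σ t) / xi (pt σ t) - 1 =
      (xiH h (pt σ t) / xi (pt σ t) - EP u) + (EP u - 1) := by ring
  rw [e]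
  refine (norm_add_le _ _).trans ?_
  have h5 := r2.trans q3
  linarith

end Pool.Agent.HF
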