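import Pool.Agent.Lib.MP_af3d17_nt_h54.Gauss

/-!
# MP_af3d17_nt, heat flow: products `∏ (1 + x u i)` and their Gaussian averages
-/

set_option autoImplicit false

namespace Pool.Agent.HF

open MeasureTheory ProbabilityTheory Filter Topology

lemma norm_exp_sub_le (v : ℂ) : ‖Complex.exp v - (1 + v)‖ ≤ ‖v‖ ^ 2 * Real.exp ‖v‖ := by
  have h := Complex.norm_exp_sub_sum_le_norm_mul_exp v 2
  simpa [Finset.sum_range_succ] using h

lemma norm_prod_le_exp {ι : Type*} (s : Finset ι) (v : ι → ℂ) :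
    ‖∏ i ∈ s, (1 + v i)‖ ≤ Real.exp (∑ i ∈ s, ‖v i‖) := by
  rw [norm_prod, Real.exp_sum]
  refine Finset.prod_le_prod (fun i _ => norm_nonneg _) fun i _ => ?_
  calc ‖1 + v i‖ ≤ ‖(1 : ℂ)‖ + ‖v i‖ := norm_add_le _ _
    _ = ‖v i‖ + 1 := by rw [norm_one]; ring
    _ ≤ _ := Real.add_one_le_exp _

/-- first approximation -/
lemma prod_sub_exp {ι : Type*} (s : Finset ι) (v : ι → ℂ) :
    ‖∏ i ∈ s, (1 + v i) - Complex.exp (∑ i ∈ s, v i)‖ ≤
      (∑ i ∈ s, ‖v i‖ ^ 2) * Real.exp (∑ i ∈ s, ‖v i‖) := by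
  classical
  induction s using Finset.induction_on with
  | empty => simp
  | insert a s ha ih =>
    rw [Finset.prod_insert ha, Finset.sum_insert ha, Finset.sum_insert ha, Finset.sum_insert ha,
      Complex.exp_add, Real.exp_add]
    set P := ∏ i ∈ s, (1 + v i)
    set S := ∑ i ∈ s, v i with hS
    set Q := ∑ i ∈ s, ‖v i‖ ^ 2
    set κ := ∑ i ∈ s, ‖v i‖ with hκ
    have hSκ : ‖Complex.exp S‖ ≤ Real.exp κ := by
      rw [Complex.norm_exp, Real.exp_le_exp]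
      exact (Complex.re_le_norm S).trans (norm_sum_le _ _)
    have h1 : ‖1 + v a‖ ≤ Real.exp ‖v a‖ := by
      calc ‖1 + v a‖ ≤ ‖(1 : ℂ)‖ + ‖v a‖ := norm_add_le _ _
        _ = ‖v a‖ + 1 := by rw [norm_one]; ring
        _ ≤ _ := Real.add_one_le_exp _
    have h2 : ‖(1 + v a) - Complex.exp (v a)‖ ≤ ‖v a‖ ^ 2 * Real.exp ‖v a‖ := by
      rw [norm_sub_rev]; exact norm_exp_sub_le _
    have e : (1 + v a) * P - Complex.exp (v a) * Complex.exp S =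
        (1 + v a) * (P - Complex.exp S) + ((1 + v a) - Complex.exp (v a)) * Complex.exp S := by
      ring
    rw [e]
    calc ‖(1 + v a) * (P - Complex.exp S) + ((1 + v a) - Complex.exp (v a)) * Complex.exp S‖
        ≤ ‖(1 + v a) * (P - Complex.exp S)‖ +
          ‖((1 + v a) - Complex.exp (v a)) * Complex.exp S‖ := norm_add_le _ _
      _ = ‖1 + v a‖ * ‖P - Complex.exp S‖ +
          ‖(1 + v a) - Complex.exp (v a)‖ * ‖Complex.exp S‖ := by rw [norm_mul, norm_mul]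
      _ ≤ Real.exp ‖v a‖ * (Q * Real.exp κ) + (‖v a‖ ^ 2 * Real.exp ‖v a‖) * Real.exp κ := by
          gcongr
      _ = _ := by ring

/-- second approximation -/
lemma prod_sub_quad {ι : Type*} (s : Finset ι) (v : ι → ℂ) :
    ‖∏ i ∈ s, (1 + v i) -
      (1 + ∑ i ∈ s, v i + ((∑ i ∈ s, v i) ^ 2 - ∑ i ∈ s, v i ^ 2) / 2)‖ ≤
      (∑ i ∈ s, ‖v i‖) ^ 3 * Real.exp (∑ i ∈ s, ‖v i‖) := by
  classical
  induction s using Finset.induction_on with
  | empty => simp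
  | insert a s ha ih =>
    rw [Finset.prod_insert ha, Finset.sum_insert ha, Finset.sum_insert ha, Finset.sum_insert ha,
      Real.exp_add]
    set P := ∏ i ∈ s, (1 + v i)
    set S := ∑ i ∈ s, v i with hS
    set Q := ∑ i ∈ s, v i ^ 2 with hQ
    set κ := ∑ i ∈ s, ‖v i‖ with hκ
    have hκ0 : 0 ≤ κ := Finset.sum_nonneg fun i _ => norm_nonneg _
    have hS' : ‖S‖ ≤ κ := norm_sum_le _ _
    have hQ' : ‖Q‖ ≤ κ ^ 2 := by
      refine (norm_sum_le _ _).trans ?_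
      calc ∑ i ∈ s, ‖v i ^ 2‖ = ∑ i ∈ s, ‖v i‖ * ‖v i‖ := by
            refine Finset.sum_congr rfl fun i _ => ?_
            rw [norm_pow, sq]
        _ ≤ ∑ i ∈ s, ‖v i‖ * κ := by
            refine Finset.sum_le_sum fun i hi => ?_
            gcongr
            exact Finset.single_le_sum (f := fun i => ‖v i‖) (fun i _ => norm_nonneg _) hi
        _ = κ ^ 2 := by rw [← Finset.sum_mul, sq]
    have hT : ‖(S ^ 2 - Q) / 2‖ ≤ κ ^ 2 := by
      rw [norm_div, Complex.norm_two]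
      have h3 : ‖S ^ 2 - Q‖ ≤ κ ^ 2 + κ ^ 2 := by
        refine (norm_sub_le _ _).trans (add_le_add ?_ hQ')
        rw [norm_pow]; gcongr
      linarith
    have h1 : ‖1 + v a‖ ≤ 1 + ‖v a‖ := by
      calc ‖1 + v a‖ ≤ ‖(1 : ℂ)‖ + ‖v a‖ := norm_add_le _ _
        _ = 1 + ‖v a‖ := by rw [norm_one]
    have e : (1 + v a) * P - (1 + (v a + S) + ((v a + S) ^ 2 - (v a ^ 2 + Q)) / 2) =
        (1 + v a) * (P - (1 + S + (S ^ 2 - Q) / 2)) + v a * ((S ^ 2 - Q) / 2) := by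
      ring
    rw [e]
    set w := ‖v a‖ with hw
    have hw0 : 0 ≤ w := norm_nonneg _
    have hx := Real.add_one_le_exp w
    have hx1 : 1 ≤ Real.exp κ := Real.one_le_exp hκ0
    calc ‖(1 + v a) * (P - (1 + S + (S ^ 2 - Q) / 2)) + v a * ((S ^ 2 - Q) / 2)‖
        ≤ ‖(1 + v a) * (P - (1 + S + (S ^ 2 - Q) / 2))‖ + ‖v a * ((S ^ 2 - Q) / 2)‖ :=
          norm_add_le _ _
      _ = ‖1 + v a‖ * ‖P - (1 + S + (S ^ 2 - Q) / 2)‖ + w * ‖(S ^ 2 - Q) / 2‖ := by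
          rw [norm_mul, norm_mul]
      _ ≤ (1 + w) * (κ ^ 3 * Real.exp κ) + w * κ ^ 2 := by gcongr
      _ ≤ (w + 1) * (κ ^ 3 * Real.exp κ) + w * κ ^ 2 * Real.exp κ := by
          have : w * κ ^ 2 ≤ w * κ ^ 2 * Real.exp κ := le_mul_of_one_le_right (by positivity) hx1
          linarith
      _ ≤ (w + κ) ^ 3 * ((w + 1) * Real.exp κ) := by
          have h5 : (w + 1) * (κ ^ 3 * Real.exp κ) + w * κ ^ 2 * Real.exp κ =
            ((w + 1) * κ ^ 3 + w * κ ^ 2) * Real.exp κ := by ring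
          rw [h5, ← mul_assoc]
          refine mul_le_mul_of_nonneg_right ?_ (Real.exp_pos _).le
          have p1 : 0 ≤ w * κ ^ 2 := by positivity
          have p2 : 0 ≤ w ^ 2 * κ := by positivity
          have p3 : 0 ≤ w ^ 3 := by positivity
          have p4 : 0 ≤ w * (w * κ ^ 2) := by positivity
          have p5 : 0 ≤ w * (w ^ 2 * κ) := by positivity
          have p6 : 0 ≤ w * w ^ 3 := by positivity
          nlinarith
      _ ≤ (w + κ) ^ 3 * (Real.exp w * Real.exp κ) := by gcongr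

variable {k : ℕ}

lemma continuous_prod (u : Fin k → ℂ) :
    Continuous fun x : ℝ => ∏ i, (1 + (x : ℂ) * u i) := by fun_prop

lemma norm_prod_le (u : Fin k → ℂ) (x : ℝ) :
    ‖∏ i, (1 + (x : ℂ) * u i)‖ ≤ Real.exp ((∑ i, ‖u i‖) * |x|) := by
  refine (norm_prod_le_exp Finset.univ fun i => (x : ℂ) * u i).trans (le_of_eq ?_)
  congr 1
  rw [Finset.sum_mul]
  refine Finset.sum_congr rfl fun i _ => ?_
  rw [norm_mul, Complex.norm_real, Real.norm_eq_abs, mul_comm]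

/-- the Gaussian average of `∏ (1 + x u i)` -/
noncomputable def EP (u : Fin k → ℂ) : ℂ := ∫ x : ℝ, ∏ i, (1 + (x : ℂ) * u i) ∂gm

lemma integrable_prod (u : Fin k → ℂ) :
    Integrable (fun x : ℝ => ∏ i, (1 + (x : ℂ) * u i)) gm := by
  refine integrable_of_le (continuous_prod u) (C := Real.exp (2 * (∑ i, ‖u i‖) ^ 2)) fun x => ?_
  refine (norm_prod_le u x).trans ((exp_lin_le _ x).trans ?_)
  gcongr
  norm_num

lemma norm_EP_le (u : Fin k → ℂ) : ‖EP u‖ ≤ Real.exp (2 * (∑ i, ‖u i‖) ^ 2) * KK := by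
  refine norm_integral_le fun x => ?_
  refine (norm_prod_le u x).trans ((exp_lin_le _ x).trans ?_)
  gcongr
  norm_num

/-- large regime -/
lemma EP_sub_exp (u : Fin k → ℂ) : ‖EP u - Complex.exp ((∑ i, u i) ^ 2 / 2)‖ ≤
    8 * (∑ i, ‖u i‖ ^ 2) * Real.exp (2 * (∑ i, ‖u i‖) ^ 2) * KK := by
  set κ := ∑ i, ‖u i‖ with hκ
  set S := ∑ i, u i with hS
  have hSκ : ‖S‖ ≤ κ := norm_sum_le _ _
  have hc : Continuous fun x : ℝ => Complex.exp ((x : ℂ) * S) := by fun_prop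
  have hi : Integrable (fun x : ℝ => Complex.exp ((x : ℂ) * S)) gm := by
    refine integrable_of_le hc (C := Real.exp (2 * κ ^ 2)) fun x => ?_
    have h1 : ‖Complex.exp ((x : ℂ) * S)‖ ≤ Real.exp (κ * |x|) := by
      rw [Complex.norm_exp, Real.exp_le_exp]
      refine (Complex.re_le_norm _).trans ?_
      rw [norm_mul, Complex.norm_real, Real.norm_eq_abs, mul_comm]
      gcongr
    refine h1.trans ((exp_lin_le _ x).trans ?_)
    gcongr
    norm_num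
  rw [← integral_cexp, EP, ← integral_sub (integrable_prod u) hi]
  refine norm_integral_le fun x => ?_
  have h1 := prod_sub_exp Finset.univ fun i => (x : ℂ) * u i
  have e1 : ∑ i, (x : ℂ) * u i = (x : ℂ) * S := by rw [hS, Finset.mul_sum]
  have e2 : ∑ i, ‖(x : ℂ) * u i‖ ^ 2 = x ^ 2 * ∑ i, ‖u i‖ ^ 2 := by
    rw [Finset.mul_sum]
    refine Finset.sum_congr rfl fun i _ => ?_
    rw [norm_mul, Complex.norm_real, Real.norm_eq_abs, mul_pow, sq_abs]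
  have e3 : ∑ i, ‖(x : ℂ) * u i‖ = κ * |x| := by
    rw [hκ, Finset.sum_mul]
    refine Finset.sum_congr rfl fun i _ => ?_
    rw [norm_mul, Complex.norm_real, Real.norm_eq_abs, mul_comm]
  rw [e1, e2, e3] at h1
  refine h1.trans ?_
  have hQ : 0 ≤ ∑ i, ‖u i‖ ^ 2 := Finset.sum_nonneg fun i _ => by positivity
  calc (x ^ 2 * ∑ i, ‖u i‖ ^ 2) * Real.exp (κ * |x|)
      ≤ ((8 * Real.exp (x ^ 2 / 8)) * ∑ i, ‖u i‖ ^ 2) *
        (Real.exp (2 * κ ^ 2) * Real.exp (x ^ 2 / 8)) := by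
        have := exp_lin_le κ x
        have h2 := sq_le_exp x
        gcongr
    _ = 8 * (∑ i, ‖u i‖ ^ 2) * Real.exp (2 * κ ^ 2) * Real.exp (x ^ 2 / 4) := by
        rw [← exp_quarter]; ring

/-- small regime -/
lemma EP_sub_quad (u : Fin k → ℂ) : ‖EP u - (1 + ((∑ i, u i) ^ 2 - ∑ i, u i ^ 2) / 2)‖ ≤
    68 * (∑ i, ‖u i‖) ^ 3 * Real.exp (2 * (∑ i, ‖u i‖) ^ 2) * KK := by
  set κ := ∑ i, ‖u i‖ with hκ
  set S := ∑ i, u i with hS
  set Q := ∑ i, u i ^ 2 with hQ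
  have hκ0 : 0 ≤ κ := Finset.sum_nonneg fun i _ => norm_nonneg _
  rw [← integral_poly S ((S ^ 2 - Q) / 2)]
  have hi : Integrable (fun x : ℝ => (1 + (x : ℂ) * S + (x : ℂ) ^ 2 * ((S ^ 2 - Q) / 2))) gm := by
    refine integrable_of_le (by fun_prop) (C := 1 + 4 * ‖S‖ + 8 * ‖(S ^ 2 - Q) / 2‖) fun x => ?_
    have h0 : (1 : ℝ) ≤ Real.exp (x ^ 2 / 4) := Real.one_le_exp (by positivity)
    have hmono : Real.exp (x ^ 2 / 8) ≤ Real.exp (x ^ 2 / 4) := by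
      rw [Real.exp_le_exp]; nlinarith [sq_nonneg x]
    have h1 : ‖(x : ℂ) * S‖ ≤ 4 * ‖S‖ * Real.exp (x ^ 2 / 4) := by
      rw [norm_mul, Complex.norm_real, Real.norm_eq_abs]
      have h2 : |x| ≤ 4 * Real.exp (x ^ 2 / 4) := (abs_le_exp x).trans (by linarith)
      calc |x| * ‖S‖ ≤ (4 * Real.exp (x ^ 2 / 4)) * ‖S‖ := by gcongr
        _ = _ := by ring
    have h2 : ‖(x : ℂ) ^ 2 * ((S ^ 2 - Q) / 2)‖ ≤
        8 * ‖(S ^ 2 - Q) / 2‖ * Real.exp (x ^ 2 / 4) := by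
      rw [norm_mul, norm_pow, Complex.norm_real, Real.norm_eq_abs, sq_abs]
      have h3 : x ^ 2 ≤ 8 * Real.exp (x ^ 2 / 4) := (sq_le_exp x).trans (by linarith)
      calc x ^ 2 * ‖(S ^ 2 - Q) / 2‖ ≤ (8 * Real.exp (x ^ 2 / 4)) * ‖(S ^ 2 - Q) / 2‖ := by gcongr
        _ = _ := by ring
    calc ‖1 + (x : ℂ) * S + (x : ℂ) ^ 2 * ((S ^ 2 - Q) / 2)‖
        ≤ ‖1 + (x : ℂ) * S‖ + ‖(x : ℂ) ^ 2 * ((S ^ 2 - Q) / 2)‖ := norm_add_le _ _
      _ ≤ (‖(1 : ℂ)‖ + ‖(x : ℂ) * S‖) + ‖(x : ℂ) ^ 2 * ((S ^ 2 - Q) / 2)‖ := by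
          gcongr; exact norm_add_le _ _
      _ ≤ (1 * Real.exp (x ^ 2 / 4) + 4 * ‖S‖ * Real.exp (x ^ 2 / 4)) +
          8 * ‖(S ^ 2 - Q) / 2‖ * Real.exp (x ^ 2 / 4) := by
          rw [norm_one, one_mul]; gcongr
      _ = _ := by ring
  rw [EP, ← integral_sub (integrable_prod u) hi]
  refine norm_integral_le fun x => ?_
  have h1 := prod_sub_quad Finset.univ fun i => (x : ℂ) * u i
  have e1 : ∑ i, (x : ℂ) * u i = (x : ℂ) * S := by rw [hS, Finset.mul_sum]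
  have e2 : ∑ i, ((x : ℂ) * u i) ^ 2 = (x : ℂ) ^ 2 * Q := by
    rw [hQ, Finset.mul_sum]
    refine Finset.sum_congr rfl fun i _ => ?_
    rw [mul_pow]
  have e3 : ∑ i, ‖(x : ℂ) * u i‖ = κ * |x| := by
    rw [hκ, Finset.sum_mul]
    refine Finset.sum_congr rfl fun i _ => ?_
    rw [norm_mul, Complex.norm_real, Real.norm_eq_abs, mul_comm]
  rw [e1, e2, e3] at h1
  have e4 : 1 + (x : ℂ) * S + (((x : ℂ) * S) ^ 2 - (x : ℂ) ^ 2 * Q) / 2 =
      1 + (x : ℂ) * S + (x : ℂ) ^ 2 * ((S ^ 2 - Q) / 2) := by ring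
  rw [e4] at h1
  refine h1.trans ?_
  calc (κ * |x|) ^ 3 * Real.exp (κ * |x|)
      = κ ^ 3 * |x| ^ 3 * Real.exp (κ * |x|) := by ring
    _ ≤ κ ^ 3 * (68 * Real.exp (x ^ 2 / 8)) * (Real.exp (2 * κ ^ 2) * Real.exp (x ^ 2 / 8)) := by
        have := exp_lin_le κ x
        have h2 := cube_le_exp x
        gcongr
    _ = 68 * κ ^ 3 * Real.exp (2 * κ ^ 2) * Real.exp (x ^ 2 / 4) := by
        rw [← exp_quarter]; ring

end Pool.Agent.HF
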