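import Pool.Agent.Lib.MP_af3d17_nt_h54.Local
import Pool.Agent.Lib.MP_af3d17_nt_h54.Prods

/-!
# MP_af3d17_nt, heat flow: the quotient `ξ_h / ξ`
-/

set_option autoImplicit false

namespace Pool.Agent.HF

open MeasureTheory ProbabilityTheory Filter Topology Metric
open Pool.Agent.ZP

/-- local factorisation of `ζ` near the height `t` -/
structure Loc (C t : ℝ) {k : ℕ} (z : Fin k → ℂ) (g : ℂ → ℂ) : Prop where
  hk : (k : ℝ) ≤ C * Real.log t
  hz : ∀ i, z i ∈ closedBall (pt 10 t) (97 / 10) ∧ riemannZeta (z i) = 0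
  hg : AnalyticOnNhd ℂ g (closedBall (pt 10 t) (98 / 10))
  hf : ∀ s ∈ closedBall (pt 10 t) (98 / 10), riemannZeta s = (∏ i, (s - z i)) * g s
  hne : ∀ s ∈ closedBall (pt 10 t) (97 / 10), g s ≠ 0
  hld : ∀ s ∈ closedBall (pt 10 t) (96 / 10), ‖logDeriv g s‖ ≤ C * Real.log t
  hlow : ∀ s ∈ closedBall (pt 10 t) (96 / 10), Real.exp (-(C * Real.log t)) ≤ ‖g s‖

lemma one_le_log {t : ℝ} (ht : 100 ≤ t) : 1 ≤ Real.log t := by
  rw [Real.le_log_iff_exp_le (by linarith)]
  have := Real.exp_one_lt_d9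
  linarith

theorem exists_loc : ∃ C T1 : ℝ, 0 < C ∧ 100 ≤ T1 ∧ ∀ t ≥ T1,
    ∃ (k : ℕ) (z : Fin k → ℂ) (g : ℂ → ℂ), Loc C t z g := by
  obtain ⟨C1, T1, hC1, hT1, hloc⟩ := local_zeta
  obtain ⟨c, hc, hlow⟩ := zeta_lower
  refine ⟨14 * C1 + |Real.log c|, T1, by positivity, hT1, fun t ht => ?_⟩
  obtain ⟨k, z, g, h1, h2, h3, h4, h5, h6⟩ := hloc t ht
  have hL := one_le_log (hT1.trans ht)
  have hmul : C1 * Real.log t ≤ (14 * C1 + |Real.log c|) * Real.log t := by
    have : 0 ≤ |Real.log c| * Real.log t := by positivity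
    have : 0 ≤ C1 * Real.log t := by positivity
    linarith
  refine ⟨k, z, g, ⟨h1.trans hmul, h2, h3, h4, h5, fun s hs => (h6 s hs).trans hmul, ?_⟩⟩
  intro s hs
  have hc0 : pt 10 t ∈ closedBall (pt 10 t) (96 / 10) := mem_closedBall_self (by norm_num)
  have k1 := (seg_bound (g := g) (a := s) (b := pt 10 t) (B := C1 * Real.log t)
    (by positivity) fun w hw => by
      have hw' : w ∈ closedBall (pt 10 t) (96 / 10) :=
        (convex_closedBall _ _).segment_subset hs hc0 hw
      refine ⟨(h3 w (closedBall_subset_closedBall (by norm_num) hw')).differentiableAt, ?_⟩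
      have h7 := h6 w hw'
      have h8 := h5 w (closedBall_subset_closedBall (by norm_num) hw')
      have h9 : deriv g w = logDeriv g w * g w := by
        rw [logDeriv_apply, div_mul_cancel₀ _ h8]
      rw [h9, norm_mul]
      gcongr).1
  have k2 : ‖pt 10 t - s‖ ≤ 10 := by
    rw [mem_closedBall, dist_comm, dist_eq_norm] at hs
    linarith
  have k3 : c ≤ ‖g (pt 10 t)‖ * Real.exp (3 * (C1 * Real.log t)) := by
    have e1 := hlow (pt 10 t) (by rw [pt_re]; norm_num)
    rw [h4 _ (mem_closedBall_self (by norm_num)), norm_mul, norm_prod] at e1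
    have e2 : ∏ i, ‖pt 10 t - z i‖ ≤ (97 / 10 : ℝ) ^ k := by
      calc ∏ i, ‖pt 10 t - z i‖ ≤ ∏ _i : Fin k, (97 / 10 : ℝ) := by
            refine Finset.prod_le_prod (fun i _ => norm_nonneg _) fun i _ => ?_
            have := (h2 i).1
            rwa [mem_closedBall, dist_comm, dist_eq_norm] at this
        _ = _ := by rw [Finset.prod_const, Finset.card_univ, Fintype.card_fin]
    have e3 : (97 / 10 : ℝ) ^ k ≤ Real.exp (3 * (C1 * Real.log t)) := by
      have e4 : (97 / 10 : ℝ) ≤ Real.exp 3 := by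
        have := Real.exp_one_gt_d9
        have e5 : Real.exp 3 = Real.exp 1 ^ 3 := by rw [← Real.exp_nat_mul]; norm_num
        rw [e5]
        have : (2.7 : ℝ) ^ 3 ≤ Real.exp 1 ^ 3 := by
          gcongr
          linarith
        norm_num at this ⊢
        linarith
      calc (97 / 10 : ℝ) ^ k ≤ Real.exp 3 ^ k := by gcongr
        _ = Real.exp (3 * k) := by rw [← Real.exp_nat_mul, mul_comm]
        _ ≤ _ := by rw [Real.exp_le_exp]; gcongr
    calc c ≤ (∏ i, ‖pt 10 t - z i‖) * ‖g (pt 10 t)‖ := e1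
      _ ≤ Real.exp (3 * (C1 * Real.log t)) * ‖g (pt 10 t)‖ := by
          gcongr
          exact e2.trans e3
      _ = _ := mul_comm _ _
  have k4 : c ≤ ‖g s‖ * Real.exp (13 * (C1 * Real.log t)) := by
    calc c ≤ ‖g (pt 10 t)‖ * Real.exp (3 * (C1 * Real.log t)) := k3
      _ ≤ (‖g s‖ * Real.exp (C1 * Real.log t * 10)) * Real.exp (3 * (C1 * Real.log t)) := by
          gcongr
          exact k1.trans (by gcongr)
      _ = _ := by rw [mul_assoc, ← Real.exp_add]; congr 2; ring
  have k5 : Real.exp (-|Real.log c|) ≤ c := by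
    calc Real.exp (-|Real.log c|) ≤ Real.exp (Real.log c) :=
          Real.exp_le_exp.2 (neg_abs_le _)
      _ = c := Real.exp_log hc
  have k6 : Real.exp (-|Real.log c| - 13 * (C1 * Real.log t)) ≤ ‖g s‖ := by
    rw [Real.exp_sub, div_le_iff₀ (Real.exp_pos _)]
    exact k5.trans k4
  refine le_trans ?_ k6
  rw [Real.exp_le_exp]
  have : |Real.log c| * 1 ≤ |Real.log c| * Real.log t := by gcongr
  have : 0 ≤ C1 * Real.log t := by positivity
  nlinarith

lemma tail_arith {C Cg Ca A L y : ℝ} (hC : 0 < C) (hCg : 0 < Cg) (hCa : 0 < Ca) (hA : 0 ≤ A)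
    (hL : 1 ≤ L) : Cg * L * (1 + y) ≤
      (2 * Ca + Cg + Cg ^ 2 + 2 * C) * (1 + A) * L ^ 2 + 1 * y ^ 2 +
        (-(A * L * (C * L)) - C * L) := by
  have m1 : Cg * L * y ≤ Cg ^ 2 * L ^ 2 + y ^ 2 := by
    nlinarith [sq_nonneg (Cg * L - y), sq_nonneg (Cg * L), sq_nonneg y]
  have m2 : L ≤ L ^ 2 := by nlinarith
  have m3 : Cg * L ≤ Cg * L ^ 2 := by gcongr
  have m4 : C * L ≤ C * L ^ 2 := by gcongr
  have m5 : 0 ≤ C * L ^ 2 := by positivity
  have m6 : 0 ≤ Ca * L ^ 2 := by positivity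
  have m7 : 0 ≤ Ca * (A * L ^ 2) := by positivity
  have m8 : 0 ≤ Cg * (A * L ^ 2) := by positivity
  have m9 : 0 ≤ Cg ^ 2 * (A * L ^ 2) := by positivity
  have m10 : 0 ≤ C * (A * L ^ 2) := by positivity
  have e : (2 * Ca + Cg + Cg ^ 2 + 2 * C) * (1 + A) * L ^ 2 = 2 * (Ca * L ^ 2) + Cg * L ^ 2 +
      Cg ^ 2 * L ^ 2 + 2 * (C * L ^ 2) + 2 * (Ca * (A * L ^ 2)) + Cg * (A * L ^ 2) +
      Cg ^ 2 * (A * L ^ 2) + 2 * (C * (A * L ^ 2)) := by ring
  have e2 : A * L * (C * L) = C * (A * L ^ 2) := by ring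
  rw [e, e2]
  linarith

/-- the quotient in terms of the zeros -/
theorem ratio {C : ℝ} (hC : 0 < C) : ∃ C' : ℝ, 0 < C' ∧ ∃ T1 : ℝ, 100 ≤ T1 ∧ ∀ t ≥ T1,
    ∀ (k : ℕ) (z : Fin k → ℂ) (g : ℂ → ℂ), Loc C t z g → ∀ σ : ℝ, 1 / 2 ≤ σ → σ ≤ 5 →
    ∀ h κ A : ℝ, 0 < h → 0 ≤ A → (∀ i, t ^ (-A) ≤ ‖pt σ t - z i‖) →
    ∑ i, ‖(h * Complex.I) / (pt σ t - z i)‖ ≤ κ → h ≤ 1 / 4 → C' * Real.log t * h ≤ 1 →
    xi (pt σ t) ≠ 0 ∧ ‖xiH h (pt σ t) / xi (pt σ t) -
      EP (fun i => (h * Complex.I) / (pt σ t - z i))‖ ≤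
      KK * (4 * (C' * Real.log t * h) * Real.exp (2 * (κ + 1) ^ 2) +
        Real.exp (C' * (1 + A) * Real.log t ^ 2 - 1 / (16 * h ^ 2)) +
        Real.exp (2 * κ ^ 2 - 1 / (8 * h ^ 2))) := by
  obtain ⟨Cg, Tg, hCg, hTg, hgr⟩ := growth
  obtain ⟨Ca, hCa, haa⟩ := aa_strip
  refine ⟨2 * Ca + Cg + Cg ^ 2 + 2 * C, by positivity, Tg, hTg, ?_⟩
  intro t ht k z g hL σ hσ1 hσ2 h κ A hh hA hd hκ hh4 hCh
  have ht100 : 100 ≤ t := hTg.trans ht
  have ht0 : 0 < t := by linarith
  have hlog := one_le_log ht100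
  set L := Real.log t with hLdef
  set C' := 2 * Ca + Cg + Cg ^ 2 + 2 * C with hC'
  have hC'0 : 0 < C' := by positivity
  set s := pt σ t with hs
  have hdpos : 0 < t ^ (-A) := Real.rpow_pos_of_pos ht0 _
  have hsz : ∀ i, s - z i ≠ 0 := fun i => norm_pos_iff.1 (hdpos.trans_le (hd i))
  -- points of the segment
  have hball : ∀ y : ℝ, |y| ≤ 1 → s + y * Complex.I ∈ closedBall (pt 10 t) (96 / 10) := by
    intro y hy
    have e : s + y * Complex.I = pt σ (t + y) := by apply Complex.ext <;> simp [hs]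
    rw [e]
    refine pt_mem_disc (by norm_num) ?_
    have : y ^ 2 ≤ 1 := by rw [← sq_abs]; exact pow_le_one₀ (abs_nonneg _) hy
    nlinarith
  have hs96 : s ∈ closedBall (pt 10 t) (96 / 10) := by simpa using hball 0 (by simp)
  have h67 : closedBall (pt 10 t) (96 / 10) ⊆ closedBall (pt 10 t) (97 / 10) :=
    closedBall_subset_closedBall (by norm_num)
  have h68 : closedBall (pt 10 t) (96 / 10) ⊆ closedBall (pt 10 t) (98 / 10) :=
    closedBall_subset_closedBall (by norm_num)
  have hreg : ∀ w ∈ closedBall (pt 10 t) (96 / 10), w ∈ Reg ∧ |w.re| ≤ 20 ∧ 4 ≤ w.im ∧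
      w.im ≤ 2 * t := by
    intro w hw
    obtain ⟨m1, m2, m3, m4⟩ := mem_disc hw
    refine ⟨Or.inl (by linarith), ?_, by linarith, by linarith⟩
    rw [abs_le]; constructor <;> linarith
  have hxi : ∀ w ∈ closedBall (pt 10 t) (96 / 10),
      xi w = (∏ i, (w - z i)) * (AA w * g w) := by
    intro w hw
    rw [xi_eq_AA (hreg w hw).1, hL.hf w (h68 hw)]
    ring
  have hH0 : AA s * g s ≠ 0 := mul_ne_zero (AA_ne (hreg s hs96).1) (hL.hne s (h67 hs96))
  have hP0 : ∏ i, (s - z i) ≠ 0 := Finset.prod_ne_zero_iff.2 fun i _ => hsz i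
  have hxi0 : xi s ≠ 0 := by rw [hxi s hs96]; exact mul_ne_zero hP0 hH0
  refine ⟨hxi0, ?_⟩
  set u : Fin k → ℂ := fun i => (h * Complex.I) / (s - z i) with hu
  set p : ℝ → ℂ := fun x => ∏ i, (1 + (x : ℂ) * u i) with hp
  set f : ℝ → ℂ := fun x => xi (s + h * x * Complex.I) / xi s with hf
  have hfc : Continuous f := (continuous_shift h s).div_const _
  have hpc : Continuous p := continuous_prod u
  have hpn : ∀ x, ‖p x‖ ≤ Real.exp (κ * |x|) := fun x => by
    refine (norm_prod_le u x).trans ?_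
    rw [Real.exp_le_exp]
    gcongr
  -- the main part
  have hmain : ∀ x : ℝ, |h * x| ≤ 1 →
      ‖f x - p x‖ ≤ Real.exp (κ * |x|) * (Real.exp (C' * L * h * |x|) - 1) := by
    intro x hx
    set w := s + h * x * Complex.I with hw
    have hwe : w = s + ((h * x : ℝ) : ℂ) * Complex.I := by rw [hw]; push_cast; ring
    have hwb : w ∈ closedBall (pt 10 t) (96 / 10) := by rw [hwe]; exact hball _ hx
    have hseg := seg_bound (g := fun w => AA w * g w) (a := s) (b := w) (B := C' * L)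
      (by positivity) (fun v hv => by
        have hv' : v ∈ closedBall (pt 10 t) (96 / 10) :=
          (convex_closedBall _ _).segment_subset hs96 hwb hv
        obtain ⟨n1, n2, n3, n4⟩ := hreg v hv'
        have d1 := hasDerivAt_AA n1
        have d2 := ((hL.hg v (h68 hv')).differentiableAt).hasDerivAt
        have d3 := d1.fun_mul d2
        refine ⟨d3.differentiableAt, ?_⟩
        rw [d3.deriv]
        have h8 := hL.hne v (h67 hv')
        have h9 : deriv g v = logDeriv g v * g v := by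
          rw [logDeriv_apply, div_mul_cancel₀ _ h8]
        have e : AA v * aa v * g v + AA v * deriv g v =
            (aa v + logDeriv g v) * (AA v * g v) := by rw [h9]; ring
        rw [e, norm_mul]
        gcongr
        refine (norm_add_le _ _).trans ?_
        have q1 := haa v n2 n3
        have q2 := hL.hld v hv'
        have q3 : Real.log v.im ≤ 2 * L := by
          have : Real.log v.im ≤ Real.log (t ^ 2) := by
            refine Real.log_le_log (by linarith) (n4.trans ?_)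
            nlinarith
          rwa [Real.log_pow, Nat.cast_ofNat] at this
        have q4 : Ca * Real.log v.im ≤ Ca * (2 * L) := by gcongr
        have q5 : 0 ≤ Cg * L := by positivity
        have q6 : 0 ≤ Cg ^ 2 * L := by positivity
        have q7 : 0 ≤ C * L := by positivity
        have q8 : C' * L = Ca * (2 * L) + Cg * L + Cg ^ 2 * L + 2 * (C * L) := by
          rw [hC']; ring
        rw [q8]
        linarith)
    have e1 : ‖w - s‖ = h * |x| := by
      rw [hwe, add_sub_cancel_left, norm_mul, Complex.norm_I, mul_one, Complex.norm_real,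
        Real.norm_eq_abs, abs_mul, abs_of_pos hh]
    have e2 : f x = p x * ((AA w * g w) / (AA s * g s)) := by
      rw [hf]
      simp only
      rw [← hw, hxi w hwb, hxi s hs96, hp]
      have e3 : ∏ i, (w - z i) = (∏ i, (s - z i)) * ∏ i, (1 + (x : ℂ) * u i) := by
        rw [← Finset.prod_mul_distrib]
        refine Finset.prod_congr rfl fun i _ => ?_
        rw [hu, hw]
        have := hsz i
        field_simp
        ring
      simp only
      rw [e3]
      field_simp
    have e4 : f x - p x = p x * ((AA w * g w - AA s * g s) / (AA s * g s)) := by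
      rw [e2, sub_div, div_self hH0]
      ring
    rw [e4, norm_mul, norm_div]
    have h10 : ‖AA w * g w - AA s * g s‖ ≤
        ‖AA s * g s‖ * (Real.exp (C' * L * (h * |x|)) - 1) := by
      have := hseg.2
      rwa [e1] at this
    have h11 : ‖AA w * g w - AA s * g s‖ / ‖AA s * g s‖ ≤
        Real.exp (C' * L * h * |x|) - 1 := by
      rw [div_le_iff₀ (norm_pos_iff.2 hH0), mul_assoc (C' * L)]
      linarith
    exact mul_le_mul (hpn x) h11 (by positivity) (Real.exp_pos _).le
  -- the tail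
  have htail : ∀ x : ℝ, 1 < |h * x| →
      ‖f x‖ ≤ Real.exp (C' * (1 + A) * L ^ 2 + 1 * (h * x) ^ 2) := by
    intro x _
    have e0 : s + h * x * Complex.I = pt σ (t + h * x) := by
      apply Complex.ext
      · rw [shift_re, hs, pt_re, pt_re]
      · rw [shift_im, hs, pt_im, pt_im]
    have g1 := hgr t ht σ (by linarith) (by linarith) (h * x)
    have hAA : 0 < ‖AA s‖ := norm_pos_iff.2 (AA_ne (hreg s hs96).1)
    have g2 : ‖AA s‖ * Real.exp (-(A * L * (C * L)) - C * L) ≤ ‖xi s‖ := by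
      rw [hxi s hs96, norm_mul, norm_mul, norm_prod]
      have g3 : Real.exp (-(A * L * (C * L))) ≤ ∏ i, ‖s - z i‖ := by
        calc Real.exp (-(A * L * (C * L))) ≤ Real.exp (-(A * L) * k) := by
              rw [Real.exp_le_exp]
              have hkk := hL.hk
              have hAL : 0 ≤ A * L := by positivity
              have : A * L * k ≤ A * L * (C * L) := by gcongr
              linarith
          _ = (t ^ (-A)) ^ k := by
              rw [Real.rpow_def_of_pos ht0, ← Real.exp_nat_mul]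
              congr 1
              ring
          _ = ∏ _i : Fin k, t ^ (-A) := by simp
          _ ≤ _ := Finset.prod_le_prod (fun i _ => hdpos.le) fun i _ => hd i
      have g4 := hL.hlow s hs96
      calc ‖AA s‖ * Real.exp (-(A * L * (C * L)) - C * L)
          = Real.exp (-(A * L * (C * L))) * (‖AA s‖ * Real.exp (-(C * L))) := by
            rw [sub_eq_add_neg, Real.exp_add]; ring
        _ ≤ _ := by gcongr
    rw [hf]
    simp only
    rw [norm_div, e0, div_le_iff₀ (norm_pos_iff.2 hxi0)]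
    refine g1.trans ?_
    have g5 : Real.exp (Cg * L * (1 + |h * x|)) ≤
        Real.exp (C' * (1 + A) * L ^ 2 + 1 * (h * x) ^ 2) *
          Real.exp (-(A * L * (C * L)) - C * L) := by
      rw [← Real.exp_add, Real.exp_le_exp]
      have hyy : (h * x) ^ 2 = |h * x| ^ 2 := (sq_abs _).symm
      rw [hyy, hC']
      exact tail_arith hC hCg hCa hA hlog
    calc ‖AA s‖ * Real.exp (Cg * L * (1 + |h * x|))
        ≤ ‖AA s‖ * (Real.exp (C' * (1 + A) * L ^ 2 + 1 * (h * x) ^ 2) *
          Real.exp (-(A * L * (C * L)) - C * L)) := by gcongr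
      _ = Real.exp (C' * (1 + A) * L ^ 2 + 1 * (h * x) ^ 2) *
          (‖AA s‖ * Real.exp (-(A * L * (C * L)) - C * L)) := by ring
      _ ≤ _ := by gcongr
  have hfin := (compare hfc hpc (by positivity) hh hmain htail (by nlinarith) hpn hCh).2.2
  have e5 : ∫ x, f x ∂gm = xiH h s / xi s := by
    rw [hf, integral_div, xiH]
  have e6 : ∫ x, p x ∂gm = EP u := rfl
  rw [e5, e6] at hfin
  exact hfin

end Pool.Agent.HF
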