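import Pool.Agent.Lib.MP_af3d17_nt_h54.Prods

/-!
# MP_af3d17_nt, heat flow: choice of the scale
-/

set_option autoImplicit false

namespace Pool.Agent.HF

open Filter Topology

variable {k : ℕ}

/-- smooth number of the points within `ρ` -/
noncomputable def SS (x : Fin k → ℝ) (ρ : ℝ) : ℝ := ∑ i, ρ / (ρ + |x i|)

/-- smooth number of the points at distance about `ρ` -/
noncomputable def EE (x : Fin k → ℝ) (ρ : ℝ) : ℝ := ∑ i, ρ * |x i| / (ρ ^ 2 + x i ^ 2)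

lemma SS_nonneg (x : Fin k → ℝ) {ρ : ℝ} (hρ : 0 < ρ) : 0 ≤ SS x ρ :=
  Finset.sum_nonneg fun i _ => by positivity

lemma EE_nonneg (x : Fin k → ℝ) {ρ : ℝ} (hρ : 0 < ρ) : 0 ≤ EE x ρ :=
  Finset.sum_nonneg fun i _ => by positivity

lemma SS_mono (x : Fin k → ℝ) {ρ ρ' : ℝ} (hρ : 0 < ρ) (h : ρ ≤ ρ') : SS x ρ ≤ SS x ρ' := by
  refine Finset.sum_le_sum fun i _ => ?_
  have h1 : 0 < ρ + |x i| := by positivity
  have h2 : 0 < ρ' + |x i| := by linarith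
  rw [div_le_div_iff₀ h1 h2]
  have := abs_nonneg (x i)
  nlinarith

lemma SS_four (x : Fin k → ℝ) {ρ : ℝ} (hρ : 0 < ρ) : SS x (4 * ρ) ≤ 4 * SS x ρ := by
  rw [SS, SS, Finset.mul_sum]
  refine Finset.sum_le_sum fun i _ => ?_
  have := abs_nonneg (x i)
  rw [← mul_div_assoc]
  gcongr
  linarith

lemma SS_le (x : Fin k → ℝ) {ρ : ℝ} (hρ : 0 < ρ) : SS x ρ ≤ k := by
  calc SS x ρ ≤ ∑ _i : Fin k, (1 : ℝ) := by
        refine Finset.sum_le_sum fun i _ => ?_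
        have := abs_nonneg (x i)
        rw [div_le_one (by positivity)]
        linarith
    _ = k := by simp

lemma EE_le (x : Fin k → ℝ) {ρ : ℝ} (hρ : 0 < ρ) :
    6 / 5 * EE x ρ ≤ SS x (4 * ρ) - SS x (ρ / 4) := by
  rw [EE, SS, SS, Finset.mul_sum, ← Finset.sum_sub_distrib]
  refine Finset.sum_le_sum fun i _ => ?_
  have ha := abs_nonneg (x i)
  have hsq : x i ^ 2 = |x i| ^ 2 := (sq_abs _).symm
  rw [hsq]
  set a := |x i|
  have h1 : 0 < 4 * ρ + a := by positivity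
  have h2 : 0 < ρ / 4 + a := by positivity
  have h3 : 0 < ρ ^ 2 + a ^ 2 := by positivity
  have e : 4 * ρ / (4 * ρ + a) - ρ / 4 / (ρ / 4 + a) =
      15 / 4 * (ρ * a) / ((4 * ρ + a) * (ρ / 4 + a)) := by
    field_simp
    ring
  rw [e, ← mul_div_assoc, div_le_div_iff₀ h3 (by positivity)]
  have h4 : 0 ≤ ρ * a := by positivity
  have h5 : 6 / 5 * ((4 * ρ + a) * (ρ / 4 + a)) ≤ 15 / 4 * (ρ ^ 2 + a ^ 2) := by
    nlinarith [sq_nonneg (ρ - a)]
  calc 6 / 5 * (ρ * a) * ((4 * ρ + a) * (ρ / 4 + a))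
      = (ρ * a) * (6 / 5 * ((4 * ρ + a) * (ρ / 4 + a))) := by ring
    _ ≤ (ρ * a) * (15 / 4 * (ρ ^ 2 + a ^ 2)) := by gcongr
    _ = _ := by ring

lemma SS_two (x : Fin k → ℝ) {ρ : ℝ} (hρ : 0 < ρ) {i j : Fin k} (hij : i ≠ j)
    (hi : |x i| ≤ ρ / 100) (hj : |x j| ≤ ρ / 100) : 198 / 100 ≤ SS x ρ := by
  have h0 : ∀ i, |x i| ≤ ρ / 100 → 99 / 100 ≤ ρ / (ρ + |x i|) := by
    intro i hi
    have := abs_nonneg (x i)
    rw [le_div_iff₀ (by positivity)]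
    linarith
  have h1 : ∑ l ∈ ({i, j} : Finset (Fin k)), ρ / (ρ + |x l|) ≤ SS x ρ :=
    Finset.sum_le_sum_of_subset_of_nonneg (Finset.subset_univ _) fun l _ _ => by positivity
  rw [Finset.sum_pair hij] at h1
  have := h0 i hi
  have := h0 j hj
  linarith

/-- the scales -/
noncomputable def sc (ρ : ℝ) (j : ℕ) : ℝ := 16 ^ j * ρ

lemma sc_pos {ρ : ℝ} (hρ : 0 < ρ) (j : ℕ) : 0 < sc ρ j := by rw [sc]; positivity

lemma sc_mono {ρ : ℝ} (hρ : 0 < ρ) {i j : ℕ} (h : i ≤ j) : sc ρ i ≤ sc ρ j := by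
  rw [sc, sc]
  gcongr
  norm_num

lemma tele (x : Fin k → ℝ) {ρ : ℝ} (hρ : 0 < ρ) (m n : ℕ) :
    6 / 5 * ∑ j ∈ Finset.range n, EE x (sc ρ (m + j)) ≤
      SS x (sc ρ (m + n) / 4) - SS x (sc ρ m / 4) := by
  induction n with
  | zero => simp
  | succ n ih =>
    rw [Finset.sum_range_succ, mul_add]
    have h1 := EE_le x (sc_pos hρ (m + n))
    have e : 4 * sc ρ (m + n) = sc ρ (m + (n + 1)) / 4 := by
      rw [sc, sc, ← add_assoc, pow_succ]; ring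
    rw [e] at h1
    linarith

lemma pigeon (x : Fin k → ℝ) {ρ : ℝ} (hρ : 0 < ρ) {M c C : ℝ} {m n : ℕ} (hm : 0 < m)
    (hn : 0 < n) (h1 : 4 * M ≤ 6 / 5 * (c * m)) (h2 : (k : ℝ) ≤ 6 / 5 * (C * n)) :
    (∃ j < m, SS x (sc ρ j) < M ∧ EE x (sc ρ j) ≤ c) ∨
    (∃ j < m + n, M ≤ SS x (sc ρ j) ∧ EE x (sc ρ j) ≤ C) := by
  obtain ⟨m', rfl⟩ : ∃ m', m = m' + 1 := ⟨m - 1, by omega⟩
  rcases lt_or_ge (SS x (sc ρ m')) M with h | h
  · left
    by_contra hcon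
    push Not at hcon
    have hE : ∀ j ∈ Finset.range (m' + 1), c < EE x (sc ρ (0 + j)) := by
      intro j hj
      rw [Finset.mem_range] at hj
      rw [zero_add]
      exact hcon j hj (lt_of_le_of_lt (SS_mono x (sc_pos hρ j) (sc_mono hρ (by omega))) h)
    have h3 : ∑ j ∈ Finset.range (m' + 1), c < ∑ j ∈ Finset.range (m' + 1),
        EE x (sc ρ (0 + j)) := Finset.sum_lt_sum_of_nonempty ⟨0, by simp⟩ hE
    have h4 := tele x hρ 0 (m' + 1)
    have h5 := SS_nonneg x (show 0 < sc ρ 0 / 4 by have := sc_pos hρ 0; positivity)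
    have e : sc ρ (0 + (m' + 1)) / 4 = 4 * sc ρ m' := by
      rw [sc, sc, zero_add, pow_succ]; ring
    rw [e] at h4
    have h6 := SS_four x (sc_pos hρ m')
    rw [Finset.sum_const, Finset.card_range, nsmul_eq_mul] at h3
    have h7 : c * ((m' + 1 : ℕ) : ℝ) = ((m' + 1 : ℕ) : ℝ) * c := mul_comm _ _
    rw [h7] at h1
    linarith
  · right
    by_contra hcon
    push Not at hcon
    have hE : ∀ j ∈ Finset.range n, C < EE x (sc ρ (m' + 1 + j)) := by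
      intro j hj
      rw [Finset.mem_range] at hj
      exact hcon _ (by omega) (h.trans (SS_mono x (sc_pos hρ m') (sc_mono hρ (by omega))))
    have h3 : ∑ j ∈ Finset.range n, C < ∑ j ∈ Finset.range n,
        EE x (sc ρ (m' + 1 + j)) := Finset.sum_lt_sum_of_nonempty ⟨0, by simpa using hn⟩ hE
    have h4 := tele x hρ (m' + 1) n
    have h5 := SS_nonneg x (show 0 < sc ρ (m' + 1) / 4 by have := sc_pos hρ (m' + 1); positivity)
    have h6 := SS_le x (show 0 < sc ρ (m' + 1 + n) / 4 by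
      have := sc_pos hρ (m' + 1 + n); positivity)
    rw [Finset.sum_const, Finset.card_range, nsmul_eq_mul] at h3
    have h7 : C * (n : ℝ) = (n : ℝ) * C := mul_comm _ _
    rw [h7] at h2
    linarith

/-! ### one scale -/

/-- the factor `1 / (1 - i a / c)` -/
noncomputable def dd (c a : ℝ) : ℂ := c / (c - a * Complex.I)

lemma norm_den (c a : ℝ) : ‖(c : ℂ) - a * Complex.I‖ = Real.sqrt (c ^ 2 + a ^ 2) := by
  rw [Complex.norm_def, Complex.normSq_apply]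
  congr 1
  simp
  ring

lemma den_ne {c : ℝ} (hc : 0 < c) (a : ℝ) : (c : ℂ) - a * Complex.I ≠ 0 := by
  intro h
  have := congrArg Complex.re h
  simp at this
  linarith

lemma sqrt_ge_one_add {c a : ℝ} (hc : 1 ≤ c) :
    1 + a ^ 2 ≤ Real.sqrt (c ^ 2 + a ^ 2) * (1 + |a|) := by
  have h1 : Real.sqrt (1 + a ^ 2) ≤ Real.sqrt (c ^ 2 + a ^ 2) :=
    Real.sqrt_le_sqrt (by nlinarith)
  have h2 : Real.sqrt (1 + a ^ 2) ≤ 1 + |a| := by
    rw [Real.sqrt_le_left (by positivity)]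
    nlinarith [abs_nonneg a, sq_abs a]
  calc 1 + a ^ 2 = Real.sqrt (1 + a ^ 2) * Real.sqrt (1 + a ^ 2) :=
        (Real.mul_self_sqrt (by positivity)).symm
    _ ≤ _ := by gcongr

lemma norm_dd_le_one {c : ℝ} (hc : 1 ≤ c) (a : ℝ) : ‖dd c a‖ ≤ 1 := by
  rw [dd, norm_div, norm_den, Complex.norm_real, Real.norm_eq_abs, abs_of_pos (by linarith)]
  have h : c ≤ Real.sqrt (c ^ 2 + a ^ 2) := Real.le_sqrt_of_sq_le (by nlinarith [sq_nonneg a])
  exact (div_le_one (by linarith)).2 h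

lemma norm_dd_le {c : ℝ} (hc : 1 ≤ c) (hc4 : c ≤ 4) (a : ℝ) : ‖dd c a‖ ≤ 6 / (1 + |a|) := by
  rw [dd, norm_div, norm_den, Complex.norm_real, Real.norm_eq_abs, abs_of_pos (by linarith)]
  have h0 : 0 < Real.sqrt (c ^ 2 + a ^ 2) := Real.sqrt_pos.2 (by nlinarith [sq_nonneg a])
  rw [div_le_div_iff₀ h0 (by positivity)]
  have h1 : c * (1 + |a|) ≤ Real.sqrt (36 * (c ^ 2 + a ^ 2)) := by
    refine Real.le_sqrt_of_sq_le ?_
    have ha := sq_abs a
    have h2 : (1 + |a|) ^ 2 ≤ 2 * (1 + a ^ 2) := by nlinarith [sq_nonneg (|a| - 1)]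
    have h3 : c ^ 2 ≤ 16 := by nlinarith
    calc (c * (1 + |a|)) ^ 2 = c ^ 2 * (1 + |a|) ^ 2 := by ring
      _ ≤ 16 * (2 * (1 + a ^ 2)) := by gcongr
      _ ≤ _ := by nlinarith [sq_nonneg a]
  rw [Real.sqrt_mul (by norm_num)] at h1
  have h4 : Real.sqrt 36 = 6 := by
    rw [show (36 : ℝ) = 6 ^ 2 by norm_num, Real.sqrt_sq (by norm_num)]
  rwa [h4] at h1

lemma dd_sub {c : ℝ} (hc : 1 ≤ c) (hc4 : c ≤ 4) (a : ℝ) :
    ‖dd c a - ((1 / (1 + |a|) : ℝ) : ℂ)‖ ≤ 5 * (|a| / (1 + a ^ 2)) := by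
  have hne := den_ne (show 0 < c by linarith) a
  have hpos : (0 : ℝ) < 1 + |a| := by positivity
  have hne2 : ((1 + |a| : ℝ) : ℂ) ≠ 0 := by exact_mod_cast hpos.ne'
  have e : dd c a - ((1 / (1 + |a|) : ℝ) : ℂ) =
      ((c * |a| : ℝ) + a * Complex.I) / (((c : ℂ) - a * Complex.I) * ((1 + |a| : ℝ) : ℂ)) := by
    rw [dd]
    push_cast at hne2 ⊢
    rw [div_sub_div _ _ hne hne2]
    congr 1
    ring
  rw [e, norm_div, norm_mul, norm_den, Complex.norm_real, Real.norm_eq_abs, abs_of_pos hpos]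
  have h0 : 0 < Real.sqrt (c ^ 2 + a ^ 2) := Real.sqrt_pos.2 (by nlinarith [sq_nonneg a])
  have h1 : ‖((c * |a| : ℝ) : ℂ) + a * Complex.I‖ ≤ 5 * |a| := by
    refine (norm_add_le _ _).trans ?_
    rw [Complex.norm_real, norm_mul (a : ℂ) Complex.I, Complex.norm_I, Complex.norm_real,
      Real.norm_eq_abs, Real.norm_eq_abs, mul_one,
      abs_of_nonneg (show 0 ≤ c * |a| from mul_nonneg (by linarith) (abs_nonneg a))]
    nlinarith [abs_nonneg a]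
  rw [← mul_div_assoc]
  have h2 := sqrt_ge_one_add (a := a) hc
  gcongr

lemma dd_sq_sub {c : ℝ} (hc : 1 ≤ c) (hc4 : c ≤ 4) (a : ℝ) :
    ‖dd c a ^ 2 - dd c a‖ ≤ 4 * (|a| / (1 + a ^ 2)) := by
  have hne := den_ne (show 0 < c by linarith) a
  have e : dd c a ^ 2 - dd c a = (c * (a * Complex.I)) / ((c : ℂ) - a * Complex.I) ^ 2 := by
    rw [dd]
    field_simp
    ring
  have h1 : 0 < c ^ 2 + a ^ 2 := by nlinarith [sq_nonneg a]
  rw [e, norm_div, norm_pow, norm_den, Real.sq_sqrt h1.le, norm_mul, norm_mul, Complex.norm_I,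
    Complex.norm_real, Complex.norm_real, Real.norm_eq_abs, Real.norm_eq_abs, mul_one,
    abs_of_pos (show 0 < c by linarith), ← mul_div_assoc]
  have := abs_nonneg a
  have h2 : 1 + a ^ 2 ≤ c ^ 2 + a ^ 2 := by nlinarith
  gcongr

end Pool.Agent.HF
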