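import Pool.Agent.Lib.MP_af3d17_nt_h54.Gauss
import Pool.Agent.Lib.MP_af3d17_nt_h98.Defs

/-!
# MP_af3d17_nt, heat flow: Riemann's `ξ` and its Gaussian averages
-/

set_option autoImplicit false

namespace Pool.Agent.HF

open MeasureTheory ProbabilityTheory Filter Topology Metric
open Pool.Agent.ZP

/-- Riemann's function `ξ(s) = s (s - 1) π^(-s/2) Γ(s/2) ζ(s) / 2` (an entire function). -/
noncomputable def xi (s : ℂ) : ℂ := (s * (s - 1) * completedRiemannZeta₀ s + 1) / 2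

lemma differentiable_xi : Differentiable ℂ xi := by
  have := differentiable_completedZeta₀
  unfold xi
  fun_prop

lemma continuous_xi : Continuous xi := differentiable_xi.continuous

lemma xi_one_sub (s : ℂ) : xi (1 - s) = xi s := by
  rw [xi, xi, completedRiemannZeta₀_one_sub]
  ring

lemma xi_eq {s : ℂ} (h0 : s ≠ 0) (h1 : s ≠ 1) (hG : Complex.Gammaℝ s ≠ 0) :
    xi s = s * (s - 1) / 2 * Complex.Gammaℝ s * riemannZeta s := by
  rw [riemannZeta_def_of_ne_zero h0, completedRiemannZeta_eq, xi]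
  have h2 : 1 - s ≠ 0 := sub_ne_zero.2 (Ne.symm h1)
  field_simp
  ring

lemma conj_two : (starRingEnd ℂ) 2 = 2 := map_ofNat _ 2

lemma Gammaℝ_conj (s : ℂ) : Complex.Gammaℝ ((starRingEnd ℂ) s) =
    (starRingEnd ℂ) (Complex.Gammaℝ s) := by
  have e1 : -(starRingEnd ℂ) s / 2 = (starRingEnd ℂ) (-s / 2) := by
    rw [map_div₀, map_neg, conj_two]
  have e2 : (starRingEnd ℂ) s / 2 = (starRingEnd ℂ) (s / 2) := by
    rw [map_div₀, conj_two]
  rw [Complex.Gammaℝ, Complex.Gammaℝ, map_mul, e1, e2, Complex.Gamma_conj]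
  congr 1
  rw [Complex.cpow_conj]
  · rw [Complex.conj_ofReal]
  · rw [Complex.arg_ofReal_of_nonneg Real.pi_pos.le]
    exact Real.pi_pos.ne

lemma xi_conj (s : ℂ) : xi ((starRingEnd ℂ) s) = (starRingEnd ℂ) (xi s) := by
  set f : ℂ → ℂ := fun z => (starRingEnd ℂ) (xi ((starRingEnd ℂ) z)) with hf
  have hfd : Differentiable ℂ f := by
    intro z
    have h1 := (differentiable_xi ((starRingEnd ℂ) z)).hasDerivAt
    have h2 := h1.conj_conj
    rw [Complex.conj_conj] at h2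
    exact h2.differentiableAt
  have hU : IsOpen {z : ℂ | 1 < z.re} := isOpen_lt continuous_const Complex.continuous_re
  have heq : f =ᶠ[𝓝 2] xi := by
    filter_upwards [hU.mem_nhds (show (2 : ℂ) ∈ {z : ℂ | 1 < z.re} by simp)] with z hz
    have hz' : 1 < z.re := hz
    have hz2 : 1 < ((starRingEnd ℂ) z).re := by rw [Complex.conj_re]; exact hz'
    have hne : ∀ {w : ℂ}, 1 < w.re → w ≠ 0 ∧ w ≠ 1 ∧ Complex.Gammaℝ w ≠ 0 := by
      intro w hw
      refine ⟨?_, ?_, Complex.Gammaℝ_ne_zero_of_re_pos (by linarith)⟩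
      · rintro rfl
        simp at hw
        linarith
      · rintro rfl
        simp at hw
    obtain ⟨a1, a2, a3⟩ := hne hz'
    obtain ⟨b1, b2, b3⟩ := hne hz2
    show (starRingEnd ℂ) (xi ((starRingEnd ℂ) z)) = xi z
    rw [xi_eq a1 a2 a3, xi_eq b1 b2 b3, Gammaℝ_conj, riemannZeta_conj]
    simp only [map_mul, map_div₀, map_sub, map_one, conj_two, Complex.conj_conj]
  have hall : f = xi := by
    have h1 : AnalyticOnNhd ℂ f Set.univ := fun z _ => hfd.analyticAt z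
    have h2 : AnalyticOnNhd ℂ xi Set.univ := fun z _ => differentiable_xi.analyticAt z
    exact h1.eq_of_eventuallyEq h2 heq
  have := congrFun hall s
  rw [← this]
  show _ = (starRingEnd ℂ) ((starRingEnd ℂ) (xi ((starRingEnd ℂ) s)))
  rw [Complex.conj_conj]

lemma xi_mirror (s : ℂ) : xi (1 - (starRingEnd ℂ) s) = (starRingEnd ℂ) (xi s) := by
  rw [xi_one_sub, xi_conj]

/-- zeros of `ξ` in the upper half plane -/
lemma xi_eq_zero_iff {s : ℂ} (hs : 0 < s.im) (hG : Complex.Gammaℝ s ≠ 0) :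
    xi s = 0 ↔ riemannZeta s = 0 := by
  have h0 : s ≠ 0 := by rintro rfl; simp at hs
  have h1 : s ≠ 1 := by rintro rfl; simp at hs
  rw [xi_eq h0 h1 hG, mul_eq_zero, or_iff_right]
  have h2 : s - 1 ≠ 0 := sub_ne_zero.2 h1
  have h3 : s * (s - 1) / 2 ≠ 0 := by
    refine div_ne_zero (mul_ne_zero h0 h2) (by norm_num)
  exact mul_ne_zero h3 hG

/-- bounded on vertical strips -/
lemma Lambda_strip (a b : ℝ) : ∃ C : ℝ, 0 < C ∧ ∀ s : ℂ, a ≤ s.re → s.re ≤ b →
    ‖completedRiemannZeta₀ s‖ ≤ C := by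
  set P := HurwitzZeta.hurwitzEvenFEPair 0 with hP
  have hconv : ∀ s : ℂ, MellinConvergent P.f_modif s := by
    intro s
    obtain ⟨u, hu⟩ := exists_gt s.re
    obtain ⟨v, hv⟩ := exists_lt s.re
    exact mellinConvergent_of_isBigO_rpow P.toStrongFEPair.hf_int
      (P.isStrongFEPair_toStrongFEPair.hf_top _) hu (P.isStrongFEPair_toStrongFEPair.hf_zero _) hv
  have hnorm : ∀ (c : ℝ), IntegrableOn (fun t : ℝ => t ^ (c - 1) * ‖P.f_modif t‖) (Set.Ioi 0) := by
    intro c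
    have h1 := (hconv (c : ℂ)).norm
    refine h1.congr ?_
    filter_upwards [ae_restrict_mem measurableSet_Ioi] with t ht
    have ht' : 0 < t := ht
    rw [norm_smul, Complex.norm_cpow_eq_rpow_re_of_pos ht']
    simp
  set C : ℝ := (∫ t in Set.Ioi (0 : ℝ), t ^ (a / 2 - 1) * ‖P.f_modif t‖) +
    ∫ t in Set.Ioi (0 : ℝ), t ^ (b / 2 - 1) * ‖P.f_modif t‖ with hC
  have hC0 : 0 ≤ C := by
    refine add_nonneg ?_ ?_ <;>
    · refine setIntegral_nonneg measurableSet_Ioi fun t ht => ?_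
      have ht' : 0 < t := ht
      positivity
  refine ⟨C / 2 + 1, by positivity, fun s h1 h2 => ?_⟩
  have e1 : completedRiemannZeta₀ s = mellin P.f_modif (s / 2) / 2 := rfl
  rw [e1, norm_div, Complex.norm_two]
  have h3 : ‖mellin P.f_modif (s / 2)‖ ≤ C := by
    rw [mellin, hC, ← integral_add (hnorm _) (hnorm _)]
    refine norm_integral_le_of_norm_le ((hnorm _).add (hnorm _)) ?_
    filter_upwards [ae_restrict_mem measurableSet_Ioi] with t ht
    have ht' : 0 < t := ht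
    rw [norm_smul, Complex.norm_cpow_eq_rpow_re_of_pos ht']
    have e2 : (s / 2 - 1).re = s.re / 2 - 1 := by simp
    rw [e2]
    have h4 : t ^ (s.re / 2 - 1) ≤ t ^ (a / 2 - 1) + t ^ (b / 2 - 1) := by
      rcases le_total t 1 with ht1 | ht1
      · have := Real.rpow_le_rpow_of_exponent_ge ht' ht1
          (show a / 2 - 1 ≤ s.re / 2 - 1 by linarith)
        have := Real.rpow_nonneg ht'.le (b / 2 - 1)
        linarith
      · have := Real.rpow_le_rpow_of_exponent_le ht1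
          (show s.re / 2 - 1 ≤ b / 2 - 1 by linarith)
        have := Real.rpow_nonneg ht'.le (a / 2 - 1)
        linarith
    show t ^ (s.re / 2 - 1) * ‖P.f_modif t‖ ≤
      t ^ (a / 2 - 1) * ‖P.f_modif t‖ + t ^ (b / 2 - 1) * ‖P.f_modif t‖
    rw [← add_mul]
    gcongr
  linarith

lemma xi_strip (a b : ℝ) : ∃ C : ℝ, 0 < C ∧ ∀ s : ℂ, a ≤ s.re → s.re ≤ b →
    ‖xi s‖ ≤ C * (1 + ‖s‖) ^ 2 := by
  obtain ⟨C, hC, h⟩ := Lambda_strip a b
  refine ⟨C + 1, by linarith, fun s h1 h2 => ?_⟩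
  have h3 := h s h1 h2
  have h4 : ‖s - 1‖ ≤ 1 + ‖s‖ := by
    refine (norm_sub_le _ _).trans ?_
    rw [norm_one]; linarith
  have h5 : ‖s‖ ≤ 1 + ‖s‖ := by linarith
  have h6 : 1 ≤ (1 + ‖s‖) ^ 2 := one_le_pow₀ (by linarith [norm_nonneg s])
  rw [xi, norm_div, Complex.norm_two]
  have h7 : ‖s * (s - 1) * completedRiemannZeta₀ s + 1‖ ≤ (1 + ‖s‖) ^ 2 * C + (1 + ‖s‖) ^ 2 := by
    refine (norm_add_le _ _).trans ?_
    rw [norm_mul, norm_mul, norm_one]
    have : ‖s‖ * ‖s - 1‖ * ‖completedRiemannZeta₀ s‖ ≤ (1 + ‖s‖) * (1 + ‖s‖) * C := by gcongr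
    nlinarith
  have h8 : 0 ≤ (1 + ‖s‖) ^ 2 * C + (1 + ‖s‖) ^ 2 := by positivity
  nlinarith

/-- The Gaussian average of `ξ` along the vertical line through `s`, with standard deviation `h`
(`= 8 H_t(z)` with the de Bruijn-Newman function `H_t`, `t = - 2 h ^ 2`, `s = 1/2 + i z / 2`). -/
noncomputable def xiH (h : ℝ) (s : ℂ) : ℂ :=
  ∫ x : ℝ, xi (s + h * x * Complex.I) ∂(gaussianReal 0 1)

lemma shift_re (h : ℝ) (s : ℂ) (x : ℝ) : (s + h * x * Complex.I).re = s.re := by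
  simp [← Complex.ofReal_mul]

lemma shift_im (h : ℝ) (s : ℂ) (x : ℝ) : (s + h * x * Complex.I).im = s.im + h * x := by
  simp [← Complex.ofReal_mul]

lemma continuous_shift (h : ℝ) (s : ℂ) :
    Continuous fun x : ℝ => xi (s + h * x * Complex.I) :=
  continuous_xi.comp (by fun_prop)

/-- majorant for the integrand -/
lemma shift_bound (a b h R : ℝ) : ∃ C : ℝ, 0 < C ∧ ∀ s : ℂ, a ≤ s.re → s.re ≤ b → ‖s‖ ≤ R →
    ∀ x : ℝ, ‖xi (s + h * x * Complex.I)‖ ≤ C * Real.exp (x ^ 2 / 4) := by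
  obtain ⟨C, hC, h1⟩ := xi_strip a b
  refine ⟨C * (2 * (1 + |R|) ^ 2 + 16 * h ^ 2), by positivity, fun s h2 h3 h4 x => ?_⟩
  have h5 := h1 (s + h * x * Complex.I) (by rw [shift_re]; exact h2) (by rw [shift_re]; exact h3)
  refine h5.trans ?_
  rw [mul_assoc C]
  refine mul_le_mul_of_nonneg_left ?_ hC.le
  have h6 : ‖s + h * x * Complex.I‖ ≤ |R| + |h| * |x| := by
    refine (norm_add_le _ _).trans ?_
    rw [norm_mul, norm_mul, Complex.norm_I, mul_one, Complex.norm_real, Complex.norm_real,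
      Real.norm_eq_abs, Real.norm_eq_abs]
    gcongr
    exact h4.trans (le_abs_self R)
  have h7 : (1 + ‖s + h * x * Complex.I‖) ^ 2 ≤ ((1 + |R|) + |h| * |x|) ^ 2 :=
    pow_le_pow_left₀ (by positivity) (by linarith) 2
  have h8 : ((1 + |R|) + |h| * |x|) ^ 2 ≤ 2 * (1 + |R|) ^ 2 + 2 * (h ^ 2 * x ^ 2) := by
    have e : h ^ 2 * x ^ 2 = (|h| * |x|) ^ 2 := by rw [mul_pow, sq_abs, sq_abs]
    rw [e]
    nlinarith [sq_nonneg ((1 + |R|) - |h| * |x|)]
  have h9 : x ^ 2 ≤ 8 * Real.exp (x ^ 2 / 4) := by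
    refine (sq_le_exp x).trans ?_
    have : Real.exp (x ^ 2 / 8) ≤ Real.exp (x ^ 2 / 4) := by
      rw [Real.exp_le_exp]; nlinarith [sq_nonneg x]
    linarith
  have h10 : (1 : ℝ) ≤ Real.exp (x ^ 2 / 4) := Real.one_le_exp (by positivity)
  calc (1 + ‖s + h * x * Complex.I‖) ^ 2 ≤ 2 * (1 + |R|) ^ 2 + 2 * (h ^ 2 * x ^ 2) :=
        h7.trans h8
    _ ≤ 2 * (1 + |R|) ^ 2 * Real.exp (x ^ 2 / 4) +
        2 * (h ^ 2 * (8 * Real.exp (x ^ 2 / 4))) := by
        have h11 : 2 * (1 + |R|) ^ 2 ≤ 2 * (1 + |R|) ^ 2 * Real.exp (x ^ 2 / 4) :=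
          le_mul_of_one_le_right (by positivity) h10
        have h12 : h ^ 2 * x ^ 2 ≤ h ^ 2 * (8 * Real.exp (x ^ 2 / 4)) :=
          mul_le_mul_of_nonneg_left h9 (sq_nonneg h)
        linarith
    _ = _ := by ring

lemma integrable_shift (h : ℝ) (s : ℂ) :
    Integrable (fun x : ℝ => xi (s + h * x * Complex.I)) gm := by
  obtain ⟨C, _, h1⟩ := shift_bound s.re s.re h ‖s‖
  exact integrable_of_le (continuous_shift h s) (h1 s le_rfl le_rfl le_rfl)

lemma deriv_xi_bound (h : ℝ) (s₀ : ℂ) : ∃ C : ℝ, 0 < C ∧ ∀ s ∈ ball s₀ 1,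
    ∀ x : ℝ, ‖deriv xi (s + h * x * Complex.I)‖ ≤ C * Real.exp (x ^ 2 / 4) := by
  obtain ⟨C, hC, h1⟩ := shift_bound (s₀.re - 2) (s₀.re + 2) h (‖s₀‖ + 2)
  refine ⟨C, hC, fun s hs x => ?_⟩
  have h2 : ∀ z ∈ sphere (s + h * x * Complex.I) 1, ‖xi z‖ ≤ C * Real.exp (x ^ 2 / 4) := by
    intro z hz
    have e : z = (z - h * x * Complex.I) + h * x * Complex.I := by ring
    have h3 : dist (z - h * x * Complex.I) s₀ ≤ 2 := by
      have h4 : dist (z - h * x * Complex.I) s = 1 := by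
        rw [mem_sphere, dist_eq_norm] at hz
        rw [dist_eq_norm, ← hz]
        congr 1
        ring_nf
      calc dist (z - h * x * Complex.I) s₀ ≤ dist (z - h * x * Complex.I) s + dist s s₀ :=
            dist_triangle _ _ _
        _ ≤ 1 + 1 := by
            rw [mem_ball] at hs
            linarith
        _ = 2 := by norm_num
    rw [dist_eq_norm] at h3
    have h5 := (Complex.abs_re_le_norm (z - h * x * Complex.I - s₀)).trans h3
    rw [Complex.sub_re, abs_le] at h5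
    have h6 : ‖z - h * x * Complex.I‖ ≤ ‖s₀‖ + 2 := by
      calc ‖z - h * x * Complex.I‖ = ‖(z - h * x * Complex.I - s₀) + s₀‖ := by congr 1; ring
        _ ≤ ‖z - h * x * Complex.I - s₀‖ + ‖s₀‖ := norm_add_le _ _
        _ ≤ _ := by linarith
    rw [e]
    exact h1 _ (by linarith) (by linarith) h6 x
  have h3 := Complex.norm_deriv_le_of_forall_mem_sphere_norm_le one_pos
    differentiable_xi.diffContOnCl h2
  rwa [div_one] at h3

lemma hasDerivAt_xiH (h : ℝ) (s₀ : ℂ) :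
    HasDerivAt (xiH h) (∫ x : ℝ, deriv xi (s₀ + h * x * Complex.I) ∂gm) s₀ := by
  obtain ⟨C, hC, h1⟩ := deriv_xi_bound h s₀
  have hd : Continuous (deriv xi) :=
    (differentiable_xi.contDiff (n := 1)).continuous_deriv le_rfl
  refine (hasDerivAt_integral_of_dominated_loc_of_deriv_le (ball_mem_nhds s₀ one_pos)
    (F := fun s x => xi (s + h * x * Complex.I)) (μ := gm)
    (F' := fun s x => deriv xi (s + h * x * Complex.I))
    (bound := fun x => C * Real.exp (x ^ 2 / 4)) ?_ (integrable_shift h s₀) ?_ ?_ ?_ ?_).2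
  · exact Eventually.of_forall fun s => (continuous_shift h s).aestronglyMeasurable
  · exact (hd.comp (by fun_prop)).aestronglyMeasurable
  · exact ae_of_all _ fun x s hs => h1 s hs x
  · exact integrable_exp_sq.const_mul C
  · refine ae_of_all _ fun x s _ => ?_
    have h2 := (differentiable_xi (s + h * x * Complex.I)).hasDerivAt
    have h3 : HasDerivAt (fun s : ℂ => s + h * x * Complex.I) 1 s :=
      (hasDerivAt_id s).add_const _
    have h4 := h2.comp s h3
    rw [mul_one] at h4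
    exact h4

lemma differentiable_xiH (h : ℝ) : Differentiable ℂ (xiH h) :=
  fun s => (hasDerivAt_xiH h s).differentiableAt

lemma xiH_mirror (h : ℝ) (s : ℂ) :
    xiH h (1 - (starRingEnd ℂ) s) = (starRingEnd ℂ) (xiH h s) := by
  rw [xiH, xiH, ← integral_conj]
  congr 1
  funext x
  rw [← xi_mirror]
  congr 1
  simp
  ring

lemma xiH_conj (h : ℝ) (s : ℂ) :
    xiH h ((starRingEnd ℂ) s) = (starRingEnd ℂ) (xiH h s) := by
  rw [xiH, xiH, ← integral_conj, ← integral_neg_gm]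
  congr 1
  funext x
  rw [← xi_conj]
  congr 1
  simp

end Pool.Agent.HF
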